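import Pool.Agent.Lib.MP_ed661f_ag.H.Num

/-! Chains from subset sums (task X34). -/

set_option autoImplicit false

namespace Pool.Agent.Lib.MP_ed661f_ag.X

open Pool.Agent.Lib.MP_ed661f_ag.G Pool.Agent.Lib.MP_ed661f_ag.H

/-- extracted from the proof of `H.chainD` -/
theorem chain_of_subset (n dl : ℕ) (hdl : 1 ≤ dl) (hn : 2 ^ 101 * dl ≤ n) :
    ∃ (z0 nb : ℕ) (τ : ℝ), 6 * n ≤ 10 * z0 ∧ z0 ≤ n ∧ 16 * z0 ≤ 10 * (z0 + 4 * nb) ∧
      3 * (z0 + 4 * nb) ≤ 5 * z0 ∧ 1 / 40 / (z0 : ℝ) ≤ τ ∧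
      τ ≤ ∑ b ∈ Finset.range nb, gz (z0 + 4 * b) - 1 / 40 / (z0 : ℝ) ∧
      ∀ U ⊆ Finset.range nb, ∀ η : ℝ, 0 ≤ η → ∑ b ∈ U, gz (z0 + 4 * b) ≤ τ →
        τ - η ≤ ∑ b ∈ U, gz (z0 + 4 * b) →
        ∃ (s : ℕ) (x : ℝ), RchD dl s x ∧ √n ≤ x ∧ x ≤ √n * Real.exp η := by
  have hn2 : 2 ^ 101 ≤ n := le_trans (Nat.le_mul_of_pos_right _ hdl) hn
  obtain ⟨a, j0, e, j, nb, q1, q2, q3, q4, q5, q6, q7, q8, q9, q10⟩ := paramsD n dl hdl hn
  obtain ⟨A, hA⟩ : ∃ A, A = a ^ 2 * dl := ⟨_, rfl⟩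
  rw [← hA] at q1 q3 q4 q7 q8 q9 q10
  obtain ⟨z0, hz0⟩ : ∃ z0, z0 = A + 2 * j0 + e := ⟨_, rfl⟩
  rw [← hz0] at q1 q7 q8
  have h101 : 2 ^ 101 = 2 * 2 ^ 100 := by norm_num
  have hAbig : 2 ^ 100 ≤ A := by omega
  have hApos : 0 < A := lt_of_lt_of_le (by positivity) hAbig
  have hj0 : 1 ≤ j0 := by
    rcases Nat.eq_zero_or_pos j0 with h | h
    · rw [h] at q3
      norm_num at q3
      omega
    · exact h
  have hj : 2 ≤ j := by
    by_contra h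
    have h1 : j ≤ 1 := by omega
    have h2 : j ^ 2 ≤ 1 ^ 2 := Nat.pow_le_pow_left h1 2
    omega
  have hz100 : 2 ^ 100 ≤ z0 := by omega
  have hz6 : 6 * n ≤ 10 * z0 := by omega
  -- the start
  have hAR : (0 : ℝ) < A := by exact_mod_cast hApos
  have hdlR : (0 : ℝ) < dl := by exact_mod_cast hdl
  have haR : (0 : ℝ) < a := by
    have : 0 < a := by omega
    exact_mod_cast this
  have hsdl : 0 < √(dl : ℝ) := Real.sqrt_pos.2 hdlR
  have hsq0 : ((a : ℝ) * √(dl : ℝ)) ^ 2 = A := by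
    rw [mul_pow, Real.sq_sqrt hdlR.le, hA]
    push_cast
    ring
  obtain ⟨x0, hx0⟩ : ∃ x0 : ℝ, x0 = ((A + j0 : ℕ) : ℝ) / (a * √(dl : ℝ)) := ⟨_, rfl⟩
  have R1 : RchD dl (A + j0) x0 := by
    rw [hx0]
    apply RchD.step (A + j0) (RchD.start a q2)
    · have : a * dl ≤ A := by
        rw [hA]
        calc a * dl = 1 * (a * dl) := by ring
          _ ≤ a * (a * dl) := Nat.mul_le_mul_right _ (by omega)
          _ = a ^ 2 * dl := by ring
      omega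
    · rw [hsq0]
      have : (1 : ℝ) ≤ j0 := by exact_mod_cast hj0
      push_cast
      linarith
  have hx0pos : 0 < x0 := by
    rw [hx0]
    have : (0 : ℝ) < ((A + j0 : ℕ) : ℝ) := by
      have : 0 < A + j0 := by omega
      exact_mod_cast this
    positivity
  have hsq : x0 ^ 2 * A = ((A : ℝ) + j0) ^ 2 := by
    rw [hx0, div_pow, hsq0]
    push_cast
    field_simp
  have q3' : 45 * (A : ℝ) + 100 * e * A ≤ 100 * (j0 : ℝ) ^ 2 := by exact_mod_cast q3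
  have q4' : 100 * (j0 : ℝ) ^ 2 ≤ 55 * (A : ℝ) + 100 * e * A := by exact_mod_cast q4
  have hz0R : (z0 : ℝ) = A + 2 * j0 + e := by rw [hz0]; push_cast; ring
  have hy1 : (z0 : ℝ) + 45 / 100 ≤ x0 ^ 2 := by
    rw [← mul_le_mul_iff_left₀ hAR, hsq, hz0R]
    nlinarith
  have hy2 : x0 ^ 2 ≤ (z0 : ℝ) + 55 / 100 := by
    rw [← mul_le_mul_iff_left₀ hAR, hsq, hz0R]
    nlinarith
  -- the target
  obtain ⟨τ, hτ⟩ : ∃ τ : ℝ, τ = Real.log (((n : ℝ) - j) / √n) - Real.log x0 -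
      ∑ b ∈ Finset.range nb, Real.log (((z0 : ℝ) + 4 * b + 4) / (z0 + 4 * b + 2)) := ⟨_, rfl⟩
  have hz6' : 1000000 ≤ z0 := le_trans (by norm_num) hz100
  obtain ⟨tr1, tr2⟩ := target_rangeD n j nb z0 x0 q1 hz6' hx0pos hy1 hy2 q5 q6 q7 q8 τ hτ
  refine ⟨z0, nb, τ, hz6, by omega, q7, q8, tr1, tr2, ?_⟩
  intro E hE η hη hE1 hE2
  -- the word
  have hnpos : (0 : ℝ) < n := by
    have : 0 < n := by omega
    exact_mod_cast this
  obtain ⟨σ', R2, hσ'⟩ := word_rchD R1 hx0pos z0 nb (by omega) (by omega) hy1 hy2 q8 E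
  set x := x0 *
    ∏ b ∈ Finset.range nb, (if b ∈ E then ((z0 : ℝ) + 4 * b + 3) / (z0 + 4 * b + 1)
        else ((z0 : ℝ) + 4 * b + 4) / (z0 + 4 * b + 2)) with hx
  have hPpos : 0 < ∏ b ∈ Finset.range nb, (if b ∈ E then ((z0 : ℝ) + 4 * b + 3) / (z0 + 4 * b + 1)
        else ((z0 : ℝ) + 4 * b + 4) / (z0 + 4 * b + 2)) := by
    apply Finset.prod_pos
    intro b _
    split_ifs <;> positivity
  have hxpos : 0 < x := mul_pos hx0pos hPpos
  have hlogx : Real.log x = Real.log x0 +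
      (∑ b ∈ Finset.range nb, Real.log (((z0 : ℝ) + 4 * b + 4) / (z0 + 4 * b + 2)) +
        ∑ b ∈ E, gz (z0 + 4 * b)) := by
    rw [hx, Real.log_mul hx0pos.ne' hPpos.ne', n8_log_prod nb E hE z0]
  have hjn : (j : ℝ) < n := by
    have : j < n := by omega
    exact_mod_cast this
  have hsn : 0 < √(n : ℝ) := Real.sqrt_pos.2 hnpos
  have htgt : 0 < ((n : ℝ) - j) / √n := div_pos (by linarith) hsn
  have hup : Real.log x ≤ Real.log (((n : ℝ) - j) / √n) := by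
    rw [hlogx]
    linarith
  have hdn : Real.log (((n : ℝ) - j) / √n) - η ≤ Real.log x := by
    rw [hlogx]
    linarith
  have hxle : x ≤ ((n : ℝ) - j) / √n := (Real.log_le_log_iff hxpos htgt).1 hup
  have hxge : ((n : ℝ) - j) / √n ≤ x * Real.exp η := by
    rw [← Real.log_le_log_iff htgt (by positivity), Real.log_mul hxpos.ne' (Real.exp_pos _).ne',
      Real.log_exp]
    linarith
  -- the last step
  have hlast : x ^ 2 + 1 / 100 ≤ ((n - j : ℕ) : ℝ) := by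
    have h1 : x ^ 2 ≤ (((n : ℝ) - j) / √n) ^ 2 := pow_le_pow_left₀ hxpos.le hxle 2
    rw [div_pow, Real.sq_sqrt hnpos.le] at h1
    have h2 : ((n : ℝ) - j) ^ 2 / n = n - 2 * j + (j : ℝ) ^ 2 / n := by
      field_simp
      ring
    have q6' : 100 * (j : ℝ) ^ 2 ≤ 55 * n := by exact_mod_cast q6
    have h3 : (j : ℝ) ^ 2 / n ≤ 55 / 100 := by
      rw [div_le_iff₀ hnpos]
      linarith
    have h4 : (2 : ℝ) ≤ j := by exact_mod_cast hj
    rw [Nat.cast_sub (by omega)]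
    linarith
  have R3 : RchD dl (n - j) (((n - j : ℕ) : ℝ) / x) :=
    RchD.step (n - j) R2 (by omega) hlast
  have hcast : ((n - j : ℕ) : ℝ) = (n : ℝ) - j := Nat.cast_sub (by omega)
  refine ⟨n - j, _, R3, ?_, ?_⟩
  · rw [hcast, le_div_iff₀ hxpos]
    rw [le_div_iff₀ hsn] at hxle
    linarith
  · rw [hcast, div_le_iff₀ hxpos]
    rw [div_le_iff₀ hsn] at hxge
    calc (n : ℝ) - j ≤ x * Real.exp η * √n := hxge
      _ = √n * Real.exp η * x := by ring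

end Pool.Agent.Lib.MP_ed661f_ag.X
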