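import Pool.Agent.Lib.MP_ed661f_ag.X.DensGz
import Pool.Agent.Lib.MP_ed661f_ag.X.ChainSub

/-! The chain with an exponentially small error (task X35). -/

set_option autoImplicit false

namespace Pool.Agent.Lib.MP_ed661f_ag.X

open Pool.Agent.Lib.MP_ed661f_ag.G Pool.Agent.Lib.MP_ed661f_ag.H

/-- `chain_of_subset`, `density` at `τ - ε`, `ε = exp (-(z0 ^ (1 / 19) / 3))`, `num_end`,
`η = 2 * ε` -/
theorem chainX : ∃ N0 : ℕ, 2 ^ 101 ≤ N0 ∧ ∀ n dl : ℕ, 1 ≤ dl → N0 * dl ≤ n →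
    ∃ (s : ℕ) (x : ℝ), RchD dl s x ∧ √n ≤ x ∧
      x ^ 2 * (1 - Real.exp (-((n : ℝ) ^ (1 / 20 : ℝ)))) < n := by
  obtain ⟨Z0, hZ0⟩ := density
  obtain ⟨N1, hN1⟩ := num_end
  refine ⟨max (max (2 * Z0) N1) (2 ^ 101), le_max_right _ _, ?_⟩
  intro n dl hdl hn
  have hle : max (max (2 * Z0) N1) (2 ^ 101) ≤ n := le_trans (Nat.le_mul_of_pos_right _ hdl) hn
  have hn1 : 2 * Z0 ≤ n := le_trans (le_trans (le_max_left _ _) (le_max_left _ _)) hle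
  have hn2 : N1 ≤ n := le_trans (le_trans (le_max_right _ _) (le_max_left _ _)) hle
  have hn3 : 2 ^ 101 * dl ≤ n := le_trans (Nat.mul_le_mul_right _ (le_max_right _ _)) hn
  have hn4 : 2 ^ 101 ≤ n := le_trans (le_max_right _ _) hle
  have hn5 : 0 < n := lt_of_lt_of_le (by positivity) hn4
  obtain ⟨z0, nb, τ, h6, -, h7, h8, t1, t2, hU⟩ := chain_of_subset n dl hdl hn3
  obtain ⟨e1, e2⟩ := hN1 n z0 hn2 h6
  obtain ⟨ε, hε⟩ : ∃ ε : ℝ, ε = Real.exp (-((z0 : ℝ) ^ (1 / 19 : ℝ) / 3)) := ⟨_, rfl⟩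
  rw [← hε] at e1 e2
  have hε0 : 0 < ε := by rw [hε]; exact Real.exp_pos _
  have hz0 : 0 < z0 := by omega
  have hz0R : (0 : ℝ) < z0 := by exact_mod_cast hz0
  have f1 : 1 / 50 / (z0 : ℝ) + 1 / 200 / (z0 : ℝ) = 1 / 40 / (z0 : ℝ) := by
    rw [← add_div]; norm_num
  have f2 : 0 < 1 / 200 / (z0 : ℝ) := by positivity
  obtain ⟨U, hUs, hU1⟩ := hZ0 z0 (by omega) nb h7 h8 (τ - ε) (by linarith) (by linarith)
  rw [← hε, abs_lt] at hU1
  obtain ⟨s, x, hr, hx1, hx2⟩ := hU U hUs (2 * ε) (by linarith) (by linarith) (by linarith)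
  refine ⟨s, x, hr, hx1, ?_⟩
  have hnR : (0 : ℝ) < n := by exact_mod_cast hn5
  obtain ⟨E, hE⟩ : ∃ E : ℝ, E = Real.exp (-((n : ℝ) ^ (1 / 20 : ℝ))) := ⟨_, rfl⟩
  rw [← hE] at e1 ⊢
  have hx0 : 0 ≤ x := le_trans (Real.sqrt_nonneg _) hx1
  have g1 : x ^ 2 ≤ n * Real.exp (4 * ε) := by
    calc x ^ 2 ≤ (√n * Real.exp (2 * ε)) ^ 2 := pow_le_pow_left₀ hx0 hx2 2
      _ = n * Real.exp (4 * ε) := by
        rw [mul_pow, Real.sq_sqrt hnR.le, ← Real.exp_nat_mul]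
        congr 2
        push_cast
        ring
  have hE1 : E ≤ 1 := by
    rw [hE]
    exact Real.exp_le_one_iff.2 (by
      have : 0 ≤ (n : ℝ) ^ (1 / 20 : ℝ) := by positivity
      linarith)
  have g2 : 1 - E ≤ Real.exp (-E) := by linarith [Real.add_one_le_exp (-E)]
  calc x ^ 2 * (1 - E) ≤ n * Real.exp (4 * ε) * (1 - E) :=
        mul_le_mul_of_nonneg_right g1 (by linarith)
    _ ≤ n * Real.exp (4 * ε) * Real.exp (-E) := mul_le_mul_of_nonneg_left g2 (by positivity)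
    _ = n * Real.exp (4 * ε - E) := by
        rw [mul_assoc, ← Real.exp_add]
        congr 2
    _ < n * 1 := by
        apply mul_lt_mul_of_pos_left _ hnR
        rw [Real.exp_lt_one_iff]
        linarith
    _ = n := mul_one _

end Pool.Agent.Lib.MP_ed661f_ag.X
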