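import Pool.Agent.Lib.MP_ed661f_ag.X.Defs

/-! Numerical inequalities (task X31). -/

set_option autoImplicit false

namespace Pool.Agent.Lib.MP_ed661f_ag.X

theorem EE_ge (z : ℕ) : 3 * (z : ℝ) ^ (1 / 19 : ℝ) + 12 ≤ EE z := by
  unfold EE
  push_cast
  linarith [Nat.le_ceil ((z : ℝ) ^ (1 / 19 : ℝ))]

theorem EE_le {z : ℕ} (hz : 1 ≤ z) : (EE z : ℝ) ≤ 18 * (z : ℝ) ^ (1 / 19 : ℝ) := by
  have h0 : (1 : ℝ) ≤ (z : ℝ) ^ (1 / 19 : ℝ) :=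
    Real.one_le_rpow (by exact_mod_cast hz) (by norm_num)
  unfold EE
  push_cast
  linarith [Nat.ceil_lt_add_one (show 0 ≤ (z : ℝ) ^ (1 / 19 : ℝ) by linarith)]

theorem num_small : ∃ Z0 : ℕ, ∀ z : ℕ, Z0 ≤ z → 32000000 * EE z ≤ z ∧
    1280000 * (EE z : ℝ) * (z : ℝ) ^ (9 / 4 : ℝ) ≤ (z : ℝ) ^ 3 := by
  refine ⟨(10 ^ 10) ^ 2, fun z hz => ?_⟩
  have hz1 : 1 ≤ z := le_trans (by norm_num) hz
  have hzR : (((10 : ℝ) ^ 10) ^ 2) ≤ z := by exact_mod_cast hz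
  have hzpos : (0 : ℝ) < z := lt_of_lt_of_le (by positivity) hzR
  have hz1R : (1 : ℝ) ≤ z := by exact_mod_cast hz1
  have hE := EE_le hz1
  have h1 : (10 : ℝ) ^ 10 ≤ (z : ℝ) ^ (1 / 2 : ℝ) := by
    rw [← Real.sqrt_eq_rpow]
    exact Real.le_sqrt_of_sq_le hzR
  constructor
  · have h2 : (z : ℝ) ^ (1 / 19 : ℝ) * (z : ℝ) ^ (1 / 2 : ℝ) ≤ z := by
      rw [← Real.rpow_add hzpos]
      calc (z : ℝ) ^ (1 / 19 + 1 / 2 : ℝ) ≤ (z : ℝ) ^ (1 : ℝ) :=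
            Real.rpow_le_rpow_of_exponent_le hz1R (by norm_num)
        _ = z := Real.rpow_one _
    have h3 : (32000000 : ℝ) * EE z ≤ z := by
      have h4 : (0 : ℝ) ≤ (z : ℝ) ^ (1 / 19 : ℝ) := by positivity
      nlinarith
    exact_mod_cast h3
  · have h2 : (z : ℝ) ^ (1 / 19 : ℝ) * (z : ℝ) ^ (1 / 2 : ℝ) * (z : ℝ) ^ (9 / 4 : ℝ) ≤
        (z : ℝ) ^ 3 := by
      rw [← Real.rpow_add hzpos, ← Real.rpow_add hzpos, ← Real.rpow_natCast (z : ℝ) 3]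
      exact Real.rpow_le_rpow_of_exponent_le hz1R (by norm_num)
    refine le_trans ?_ h2
    apply mul_le_mul_of_nonneg_right _ (by positivity)
    have h4 : (0 : ℝ) ≤ (z : ℝ) ^ (1 / 19 : ℝ) := by positivity
    nlinarith

theorem num_far {z : ℕ} {p : ℝ} (hp0 : 3 / 50 ≤ p) (hp1 : p ≤ 47 / 50) :
    Real.exp ((z : ℝ) ^ (1 / 19 : ℝ)) * Real.exp (-(8 * p * (1 - p) * (EE z : ℝ))) ≤ 1 / 100 := by
  have hE := EE_ge z
  have hy : (0 : ℝ) ≤ (z : ℝ) ^ (1 / 19 : ℝ) := by positivity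
  have hp : 45 / 100 ≤ 8 * p * (1 - p) := by nlinarith
  have h1 : 45 / 100 * (3 * (z : ℝ) ^ (1 / 19 : ℝ) + 12) ≤ 8 * p * (1 - p) * (EE z : ℝ) :=
    mul_le_mul hp hE (by positivity) (by linarith)
  rw [← Real.exp_add]
  have h2 : (z : ℝ) ^ (1 / 19 : ℝ) + -(8 * p * (1 - p) * (EE z : ℝ)) ≤ -5 := by linarith
  refine (Real.exp_le_exp.2 h2).trans ?_
  rw [Real.exp_neg, inv_eq_one_div]
  apply one_div_le_one_div_of_le (by norm_num)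
  have h3 : (2.7182818283 : ℝ) < Real.exp 1 := Real.exp_one_gt_d9
  have h4 : Real.exp 5 = Real.exp 1 ^ 5 := by
    rw [← Real.exp_nat_mul]
    norm_num
  rw [h4]
  calc (100 : ℝ) ≤ (2.7182818283 : ℝ) ^ 5 := by norm_num
    _ ≤ Real.exp 1 ^ 5 := pow_le_pow_left₀ (by norm_num) h3.le 5

end Pool.Agent.Lib.MP_ed661f_ag.X
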