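import Pool.Agent.Lib.MP_ed661f_ag.X.Defs

/-! Numerical inequalities (task X32). -/

set_option autoImplicit false

open Filter Topology

namespace Pool.Agent.Lib.MP_ed661f_ag.X

private theorem ev1 : ∀ᶠ y : ℝ in atTop,
    Real.exp (-(y / 3)) / (2 * Real.pi ^ 2) < (1 - y ^ 38 * Real.exp (-y)) / 20 := by
  have h1 : Tendsto (fun y : ℝ => Real.exp (-(y / 3)) / (2 * Real.pi ^ 2)) atTop (𝓝 0) := by
    have : Tendsto (fun y : ℝ => y / 3) atTop atTop := tendsto_id.atTop_div_const (by norm_num)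
    have h := (Real.tendsto_exp_neg_atTop_nhds_zero.comp this).div_const (2 * Real.pi ^ 2)
    simpa using h
  have h2 : Tendsto (fun y : ℝ => (1 - y ^ 38 * Real.exp (-y)) / 20) atTop (𝓝 (1 / 20)) := by
    have h := ((tendsto_const_nhds (x := (1 : ℝ))).sub
      (Real.tendsto_pow_mul_exp_neg_atTop_nhds_zero 38)).div_const 20
    simpa using h
  exact h1.eventually_lt h2 (by norm_num)

private theorem ev2 : ∀ᶠ y : ℝ in atTop, 200 * y ^ 19 * Real.exp (-(y / 3)) ≤ 1 := by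
  have h1 : Tendsto (fun y : ℝ => y / 3) atTop atTop := tendsto_id.atTop_div_const (by norm_num)
  have h := ((Real.tendsto_pow_mul_exp_neg_atTop_nhds_zero 19).comp h1).const_mul (200 * 3 ^ 19)
  have h' : Tendsto (fun y : ℝ => 200 * y ^ 19 * Real.exp (-(y / 3))) atTop (𝓝 0) := by
    have e : (fun y : ℝ => 200 * y ^ 19 * Real.exp (-(y / 3))) =
        fun y : ℝ => 200 * 3 ^ 19 * ((fun x : ℝ => x ^ 19 * Real.exp (-x)) ∘ fun y => y / 3) y := by
      funext y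
      simp only [Function.comp, div_pow]
      ring
    rw [e]
    simpa using h
  exact (h'.eventually_lt_const (by norm_num : (0 : ℝ) < 1)).mono fun y hy => hy.le

private theorem zroot : Tendsto (fun z : ℕ => (z : ℝ) ^ (1 / 19 : ℝ)) atTop atTop :=
  (tendsto_rpow_atTop (by norm_num)).comp tendsto_natCast_atTop_atTop

private theorem zroot_pow (z : ℕ) (k : ℕ) :
    ((z : ℝ) ^ (1 / 19 : ℝ)) ^ (19 * k) = (z : ℝ) ^ k := by
  rw [pow_mul]
  congr 1
  rw [← Real.rpow_natCast, ← Real.rpow_mul (Nat.cast_nonneg z)]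
  norm_num

theorem num_delta : ∃ Z0 : ℕ, ∀ z : ℕ, Z0 ≤ z →
    1 / (2 * Real.pi ^ 2 * Real.exp (-((z : ℝ) ^ (1 / 19 : ℝ) / 3)) ^ 2) <
      (Real.exp ((z : ℝ) ^ (1 / 19 : ℝ)) - (z : ℝ) ^ 2) / 20 := by
  have h := zroot.eventually ev1
  rw [eventually_atTop] at h
  obtain ⟨Z0, hZ0⟩ := h
  refine ⟨Z0, fun z hz => ?_⟩
  have h := hZ0 z hz
  have hp := zroot_pow z 2
  set y := (z : ℝ) ^ (1 / 19 : ℝ) with hy
  rw [show 19 * 2 = 38 by norm_num] at hp
  rw [hp] at h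
  have he : 0 < Real.exp y := Real.exp_pos y
  have h2 := mul_lt_mul_of_pos_left h he
  have e1 : Real.exp y * (Real.exp (-(y / 3)) / (2 * Real.pi ^ 2)) =
      1 / (2 * Real.pi ^ 2 * Real.exp (-(y / 3)) ^ 2) := by
    have hpi : (0 : ℝ) < Real.pi := Real.pi_pos
    have h3 : Real.exp y * Real.exp (-(y / 3)) ^ 3 = 1 := by
      rw [← Real.exp_nat_mul, ← Real.exp_add]
      rw [show y + ((3 : ℕ) : ℝ) * -(y / 3) = 0 by push_cast; ring, Real.exp_zero]
    have h4 : 0 < Real.exp (-(y / 3)) := Real.exp_pos _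
    rw [eq_div_iff (by positivity)]
    have : Real.exp y * (Real.exp (-(y / 3)) / (2 * Real.pi ^ 2)) *
        (2 * Real.pi ^ 2 * Real.exp (-(y / 3)) ^ 2) = Real.exp y * Real.exp (-(y / 3)) ^ 3 := by
      field_simp
    rw [this, h3]
  have e2 : Real.exp y * ((1 - (z : ℝ) ^ 2 * Real.exp (-y)) / 20) =
      (Real.exp y - (z : ℝ) ^ 2) / 20 := by
    have h3 : Real.exp y * Real.exp (-y) = 1 := by rw [← Real.exp_add]; simp
    have : Real.exp y * ((1 - (z : ℝ) ^ 2 * Real.exp (-y)) / 20) =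
      (Real.exp y - (z : ℝ) ^ 2 * (Real.exp y * Real.exp (-y))) / 20 := by ring
    rw [this, h3, mul_one]
  rw [e1, e2] at h2
  exact h2

private theorem ev3 : ∀ᶠ x : ℝ in atTop,
    x ^ (1 / 20 : ℝ) ≤ 1 / 12 * x ^ (1 / 19 : ℝ) := by
  have h : ∀ᶠ x : ℝ in atTop, (12 : ℝ) ≤ x ^ (1 / 380 : ℝ) :=
    (tendsto_rpow_atTop (by norm_num)).eventually_ge_atTop 12
  filter_upwards [h, eventually_gt_atTop (0 : ℝ)] with x hx hx0
  have e : x ^ (1 / 19 : ℝ) = x ^ (1 / 20 : ℝ) * x ^ (1 / 380 : ℝ) := by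
    rw [← Real.rpow_add hx0]; norm_num
  rw [e]
  have : 0 ≤ x ^ (1 / 20 : ℝ) := Real.rpow_nonneg hx0.le _
  nlinarith

private theorem ev4 : ∀ᶠ x : ℝ in atTop, (100 : ℝ) ≤ x ^ (1 / 19 : ℝ) :=
  (tendsto_rpow_atTop (by norm_num)).eventually_ge_atTop 100

/-- the loss at the end of the chain is smaller than `exp (-n ^ (1 / 20))` -/
theorem num_end : ∃ N0 : ℕ, ∀ n z : ℕ, N0 ≤ n → 6 * n ≤ 10 * z →
    4 * Real.exp (-((z : ℝ) ^ (1 / 19 : ℝ) / 3)) < Real.exp (-((n : ℝ) ^ (1 / 20 : ℝ))) ∧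
      Real.exp (-((z : ℝ) ^ (1 / 19 : ℝ) / 3)) ≤ 1 / 200 / (z : ℝ) := by
  have hA := zroot.eventually ev2
  rw [eventually_atTop] at hA
  obtain ⟨Z0, hZ0⟩ := hA
  have hB := tendsto_natCast_atTop_atTop (R := ℝ).eventually (ev3.and ev4)
  rw [eventually_atTop] at hB
  obtain ⟨N1, hN1⟩ := hB
  refine ⟨max (max (2 * Z0) N1) 10, fun n z hn hnz => ?_⟩
  have hn1 : 2 * Z0 ≤ n := le_trans (le_trans (le_max_left _ _) (le_max_left _ _)) hn
  have hn2 : N1 ≤ n := le_trans (le_trans (le_max_right _ _) (le_max_left _ _)) hn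
  have hn3 : 10 ≤ n := le_trans (le_max_right _ _) hn
  obtain ⟨h3, h4⟩ := hN1 n hn2
  constructor
  · have hz : (3 / 5 : ℝ) * n ≤ z := by
      have : (6 : ℝ) * n ≤ 10 * z := by exact_mod_cast hnz
      linarith
    have hn0 : (0 : ℝ) ≤ n := Nat.cast_nonneg n
    have h5 : ((3 / 5 : ℝ) * n) ^ (1 / 19 : ℝ) ≤ (z : ℝ) ^ (1 / 19 : ℝ) :=
      Real.rpow_le_rpow (by positivity) hz (by norm_num)
    rw [Real.mul_rpow (by norm_num) hn0] at h5
    have h6 : (3 / 5 : ℝ) ≤ (3 / 5 : ℝ) ^ (1 / 19 : ℝ) := by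
      conv_lhs => rw [← Real.rpow_one (3 / 5 : ℝ)]
      exact Real.rpow_le_rpow_of_exponent_ge (by norm_num) (by norm_num) (by norm_num)
    have h7 : (3 / 5 : ℝ) * (n : ℝ) ^ (1 / 19 : ℝ) ≤ (z : ℝ) ^ (1 / 19 : ℝ) :=
      le_trans (mul_le_mul_of_nonneg_right h6 (by linarith)) h5
    have h8 : (4 : ℝ) < Real.exp 2 := by
      have := Real.add_one_lt_exp (x := 1) (by norm_num)
      have h2 : Real.exp 2 = Real.exp 1 * Real.exp 1 := by rw [← Real.exp_add]; norm_num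
      have := Real.exp_one_gt_d9
      rw [h2]; nlinarith
    have h9 : 4 * Real.exp (-((z : ℝ) ^ (1 / 19 : ℝ) / 3)) <
        Real.exp 2 * Real.exp (-((z : ℝ) ^ (1 / 19 : ℝ) / 3)) :=
      mul_lt_mul_of_pos_right h8 (Real.exp_pos _)
    refine lt_of_lt_of_le h9 ?_
    rw [← Real.exp_add]
    apply Real.exp_le_exp.2
    linarith
  · have hz1 : Z0 ≤ z := by omega
    have hz0 : (0 : ℝ) < z := by
      have : 0 < z := by omega
      exact_mod_cast this
    have h := hZ0 z hz1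
    have hp := zroot_pow z 1
    rw [mul_one, pow_one] at hp
    rw [hp] at h
    rw [div_div, le_div_iff₀ (by positivity)]
    linarith

end Pool.Agent.Lib.MP_ed661f_ag.X
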