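import Pool.Agent.Lib.MP_ed661f_ag.X.Defs

/-! Choice of the parameters for large multipliers (task X27).

Notation: `y = z ^ (1 / 19)`, `t = log z`, `u = log lam / t`, so that `9 / 4 ≤ u ≤ y / t`;
`j = ⌈5 / 2 * u⌉₊ + 1`, `M = j ^ 2 + j`, `K = ⌈√M * (5 / 9) * log (2 * M ^ 2)⌉₊ + 1`. -/

set_option autoImplicit false

namespace Pool.Agent.Lib.MP_ed661f_ag.X

private theorem log16_le : Real.log 16 ≤ 2.7726 := by
  have h : Real.log 16 = 4 * Real.log 2 := by
    rw [show (16 : ℝ) = 2 ^ (4 : ℕ) by norm_num, Real.log_pow]; norm_num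
  have := Real.log_two_lt_d9
  rw [h]; linarith

private theorem log64_le : Real.log 64 ≤ 4.16 := by
  have h : Real.log 64 = 6 * Real.log 2 := by
    rw [show (64 : ℝ) = 2 ^ (6 : ℕ) by norm_num, Real.log_pow]; norm_num
  have := Real.log_two_lt_d9
  rw [h]; linarith

/-- the comparison of `16 ^ K` and `lam / z ^ 2`: `log 16 * (20 / 9) * (5 / 2) / 19 < 1` -/
theorem par_cmp : ∃ Z0 : ℕ, ∀ z : ℕ, Z0 ≤ z → ∀ u : ℝ, 9 / 4 ≤ u →
    u ≤ (z : ℝ) ^ (1 / 19 : ℝ) / Real.log z → ∀ j K : ℕ, (j : ℝ) ≤ 5 / 2 * u + 2 →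
    (K : ℝ) ≤ (j + 1) * (20 / 9 * Real.log (j + 1) + 2 / 5) + 2 →
    K * Real.log 16 ≤ (u - 2) * Real.log z ∧ (K : ℝ) ≤ (j + 1) * Real.log (z : ℝ) ∧
      (j : ℝ) ≤ (z : ℝ) ^ (1 / 19 : ℝ) * (4 / Real.log z) := by
  refine ⟨⌈Real.exp 6000⌉₊, fun z hz u hu hu2 j K hj hK => ?_⟩
  have hz' : Real.exp 6000 ≤ (z : ℝ) := le_trans (Nat.le_ceil _) (by exact_mod_cast hz)
  have hz0 : (0 : ℝ) < z := lt_of_lt_of_le (Real.exp_pos _) hz'
  have ht : (6000 : ℝ) ≤ Real.log z := by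
    rw [Real.le_log_iff_exp_le hz0]; exact hz'
  set t := Real.log (z : ℝ) with htdef
  set y := (z : ℝ) ^ (1 / 19 : ℝ) with hy
  have hy0 : 0 < y := Real.rpow_pos_of_pos hz0 _
  have hlogy : Real.log y = t / 19 := by
    rw [hy, Real.log_rpow hz0]; ring
  have ht0 : (0 : ℝ) < t := by linarith
  have hut : u * t ≤ y := by
    rw [le_div_iff₀ ht0] at hu2; exact hu2
  have hu0 : (0 : ℝ) < u := by linarith
  have hj0 : (0 : ℝ) ≤ (j : ℝ) := Nat.cast_nonneg j
  have hK0 : (0 : ℝ) ≤ (K : ℝ) := Nat.cast_nonneg K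
  -- j + 1 ≤ y
  have hjy : (j : ℝ) + 1 ≤ y := by
    have : u * 6000 ≤ u * t := by nlinarith
    linarith
  have hlogj : Real.log ((j : ℝ) + 1) ≤ t / 19 := by
    rw [← hlogy]
    exact Real.log_le_log (by linarith) hjy
  have h16 := log16_le
  have h160 : 0 < Real.log 16 := Real.log_pos (by norm_num)
  refine ⟨?_, ?_, ?_⟩
  · rcases le_total 20 u with h20 | h20
    · -- u ≥ 20
      have h1 : (K : ℝ) ≤ (5 / 2 * u + 3) * (20 / 171 * t + 2 / 5) + 2 := by
        refine le_trans hK ?_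
        have hA : (20 / 9 * Real.log ((j : ℝ) + 1) + 2 / 5) ≤ 20 / 171 * t + 2 / 5 := by
          linarith
        have hB : 0 ≤ 20 / 171 * t + 2 / 5 := by positivity
        have : ((j : ℝ) + 1) * (20 / 9 * Real.log ((j : ℝ) + 1) + 2 / 5) ≤
            (5 / 2 * u + 3) * (20 / 171 * t + 2 / 5) :=
          le_trans (mul_le_mul_of_nonneg_left hA (by linarith))
            (mul_le_mul_of_nonneg_right (by linarith) hB)
        linarith
      have h2 : (K : ℝ) * Real.log 16 ≤ ((5 / 2 * u + 3) * (20 / 171 * t + 2 / 5) + 2) * 2.7726 :=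
        mul_le_mul h1 h16 h160.le (by positivity)
      refine le_trans h2 ?_
      nlinarith [mul_nonneg (sub_nonneg.2 h20) (sub_nonneg.2 ht)]
    · -- u ≤ 20
      have hj53 : (j : ℝ) + 1 ≤ 53 := by linarith
      have hl : Real.log ((j : ℝ) + 1) ≤ 4.16 :=
        le_trans (Real.log_le_log (by linarith) (by linarith)) log64_le
      have h1 : (K : ℝ) ≤ 53 * (20 / 9 * 4.16 + 2 / 5) + 2 := by
        refine le_trans hK ?_
        have : ((j : ℝ) + 1) * (20 / 9 * Real.log ((j : ℝ) + 1) + 2 / 5) ≤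
            53 * (20 / 9 * 4.16 + 2 / 5) :=
          le_trans (mul_le_mul_of_nonneg_left (by linarith) (by linarith))
            (mul_le_mul_of_nonneg_right hj53 (by norm_num))
        linarith
      have h2 : (K : ℝ) * Real.log 16 ≤ (53 * (20 / 9 * 4.16 + 2 / 5) + 2) * 2.7726 :=
        mul_le_mul h1 h16 h160.le (by norm_num)
      refine le_trans h2 ?_
      nlinarith
  · refine le_trans hK ?_
    have : ((j : ℝ) + 1) * (20 / 9 * Real.log ((j : ℝ) + 1) + 2 / 5) ≤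
        ((j : ℝ) + 1) * (20 / 171 * t + 2 / 5) :=
      mul_le_mul_of_nonneg_left (by linarith) (by linarith)
    nlinarith
  · have h3 : (j : ℝ) ≤ 4 * u := by linarith
    have h4 : y * (4 / t) = 4 * (y / t) := by ring
    rw [h4]
    linarith

end Pool.Agent.Lib.MP_ed661f_ag.X
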