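import Pool.Agent.Lib.MP_ed661f_ag.X.Defs

/-! Choice of the parameters for large multipliers (task X26).

Notation: `y = z ^ (1 / 19)`, `t = log z`, `u = log lam / t`, so that `9 / 4 ≤ u ≤ y / t`;
`j = ⌈5 / 2 * u⌉₊ + 1`, `M = j ^ 2 + j`, `K = ⌈√M * (5 / 9) * log (2 * M ^ 2)⌉₊ + 1`. -/

set_option autoImplicit false

namespace Pool.Agent.Lib.MP_ed661f_ag.X

/-- the bound for `K` -/
theorem par_K (j : ℕ) (hj : 3 ≤ j) : ∃ K : ℕ, 1 ≤ K ∧
    2 * (((j ^ 2 + j : ℕ) : ℝ)) ^ 2 ≤ Real.exp (9 / 5 * K / √((j ^ 2 + j : ℕ) : ℝ)) ∧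
    (K : ℝ) ≤ (j + 1) * (20 / 9 * Real.log (j + 1) + 2 / 5) + 2 := by
  have hjR : (3 : ℝ) ≤ j := by exact_mod_cast hj
  obtain ⟨M, hM⟩ : ∃ M : ℝ, M = ((j ^ 2 + j : ℕ) : ℝ) := ⟨_, rfl⟩
  rw [← hM]
  have hM' : M = (j : ℝ) ^ 2 + j := by rw [hM]; push_cast; ring
  have hMpos : 12 ≤ M := by rw [hM']; nlinarith
  have hs0 : 0 < √M := Real.sqrt_pos.2 (by linarith)
  have hs1 : √M ≤ j + 1 := by
    rw [Real.sqrt_le_left (by linarith)]
    rw [hM']
    nlinarith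
  have hlog2 : Real.log 2 < 0.6931471808 := Real.log_two_lt_d9
  have hl : Real.log (2 * M ^ 2) ≤ 4 * Real.log (j + 1) + 7 / 10 := by
    have h1 : 2 * M ^ 2 ≤ 2 * ((j : ℝ) + 1) ^ 4 := by
      have : M ≤ ((j : ℝ) + 1) ^ 2 := by rw [hM']; nlinarith
      have h2 : M ^ 2 ≤ (((j : ℝ) + 1) ^ 2) ^ 2 := pow_le_pow_left₀ (by linarith) this 2
      nlinarith
    have h3 := Real.log_le_log (by positivity) h1
    have h4 : Real.log (2 * ((j : ℝ) + 1) ^ 4) = Real.log 2 + 4 * Real.log (j + 1) := by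
      rw [Real.log_mul (by norm_num) (by positivity), Real.log_pow]
      push_cast
      ring
    linarith
  have hlpos : 0 < Real.log (2 * M ^ 2) := Real.log_pos (by nlinarith)
  obtain ⟨K, hK⟩ : ∃ K : ℕ, K = ⌈√M * (5 / 9) * Real.log (2 * M ^ 2)⌉₊ := ⟨_, rfl⟩
  have hpos : 0 < √M * (5 / 9) * Real.log (2 * M ^ 2) := by positivity
  have hK1 : √M * (5 / 9) * Real.log (2 * M ^ 2) ≤ K := by rw [hK]; exact Nat.le_ceil _
  have hK2 : (K : ℝ) < √M * (5 / 9) * Real.log (2 * M ^ 2) + 1 := by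
    rw [hK]; exact Nat.ceil_lt_add_one hpos.le
  refine ⟨K, ?_, ?_, ?_⟩
  · rw [hK]
    exact Nat.one_le_ceil_iff.2 hpos
  · have h1 : Real.log (2 * M ^ 2) ≤ 9 / 5 * K / √M := by
      rw [le_div_iff₀ hs0]
      linarith
    calc 2 * M ^ 2 = Real.exp (Real.log (2 * M ^ 2)) := (Real.exp_log (by positivity)).symm
      _ ≤ _ := Real.exp_le_exp.2 h1
  · have h1 : √M * (5 / 9) * Real.log (2 * M ^ 2) ≤
        (j + 1) * (5 / 9) * (4 * Real.log (j + 1) + 7 / 10) := by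
      apply mul_le_mul _ hl hlpos.le (by positivity)
      exact mul_le_mul_of_nonneg_right hs1 (by norm_num)
    have h2 : ((j : ℝ) + 1) * (5 / 9) * (4 * Real.log (j + 1) + 7 / 10) =
        (j + 1) * (20 / 9 * Real.log (j + 1) + 7 / 18) := by ring
    have h3 : ((j : ℝ) + 1) * (20 / 9 * Real.log (j + 1) + 7 / 18) ≤
        (j + 1) * (20 / 9 * Real.log (j + 1) + 2 / 5) := by
      apply mul_le_mul_of_nonneg_left _ (by linarith)
      linarith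
    linarith

end Pool.Agent.Lib.MP_ed661f_ag.X
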