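import Pool.Agent.Lib.MP_ed661f_ag.X.ParSize
import Pool.Agent.Lib.MP_ed661f_ag.X.ParK
import Pool.Agent.Lib.MP_ed661f_ag.X.ParCmp

/-! Choice of the parameters for large multipliers (task X28). -/

set_option autoImplicit false

namespace Pool.Agent.Lib.MP_ed661f_ag.X

/-- `u = log lam / log z`, `j = ⌈5 / 2 * u⌉₊ + 1`; the last but one condition:
`32 M ^ 2 * lam * z ^ (-(2 / 5) j) ≤ z ^ (2 / 5) * lam * z ^ (-(2 / 5) (5 / 2 * u + 1)) = 1` -/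
theorem params : ∃ Z0 : ℕ, ∀ z : ℕ, Z0 ≤ z → ∀ lam : ℝ, (z : ℝ) ^ (9 / 4 : ℝ) ≤ lam →
    lam ≤ Real.exp ((z : ℝ) ^ (1 / 19 : ℝ)) → ∃ j M K : ℕ, 3 ≤ j ∧ M = j ^ 2 + j ∧ 1 ≤ K ∧
      2 * (M : ℝ) ^ 2 ≤ Real.exp (9 / 5 * K / √(M : ℝ)) ∧
      1000 * K * M ^ 2 * (16 * M ^ 3 * EE z) ≤ z ∧
      32 * lam * M ^ 2 * (4 * (16 * (M : ℝ) ^ 3 * EE z) * M ^ 2 / z) ^ j ≤ 1 ∧
      16 ^ K * (z : ℝ) ^ 2 ≤ lam := by
  obtain ⟨Z1, h1⟩ := par_size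
  obtain ⟨Z2, h2⟩ := par_cmp
  refine ⟨max (max Z1 Z2) 3, fun z hz lam hlam hlam2 => ?_⟩
  have hz1 : Z1 ≤ z := by omega
  have hz2 : Z2 ≤ z := by omega
  have hz3 : (3 : ℝ) ≤ z := by
    have : 3 ≤ z := by omega
    exact_mod_cast this
  have hz0 : (0 : ℝ) < z := by linarith
  have ht : 0 < Real.log z := Real.log_pos (by linarith)
  have hl0 : 0 < lam := lt_of_lt_of_le (Real.rpow_pos_of_pos hz0 _) hlam
  obtain ⟨u, hu⟩ : ∃ u, u = Real.log lam / Real.log z := ⟨_, rfl⟩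
  have hut : u * Real.log z = Real.log lam := by
    rw [hu]
    exact div_mul_cancel₀ _ ht.ne'
  have hu1 : 9 / 4 ≤ u := by
    rw [hu, le_div_iff₀ ht, ← Real.log_rpow hz0]
    exact Real.log_le_log (Real.rpow_pos_of_pos hz0 _) hlam
  have hu2 : u ≤ (z : ℝ) ^ (1 / 19 : ℝ) / Real.log z := by
    rw [hu]
    refine div_le_div_of_nonneg_right ?_ ht.le
    rw [← Real.log_exp ((z : ℝ) ^ (1 / 19 : ℝ))]
    exact Real.log_le_log hl0 hlam2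
  have hzu : (z : ℝ) ^ u = lam := by
    rw [Real.rpow_def_of_pos hz0, mul_comm, hut, Real.exp_log hl0]
  have hc1 : 5 / 2 * u ≤ (⌈5 / 2 * u⌉₊ : ℝ) := Nat.le_ceil _
  have hc2 : (⌈5 / 2 * u⌉₊ : ℝ) < 5 / 2 * u + 1 := Nat.ceil_lt_add_one (by linarith)
  obtain ⟨j, hj⟩ : ∃ j, j = ⌈5 / 2 * u⌉₊ + 1 := ⟨_, rfl⟩
  have hj1 : 5 / 2 * u + 1 ≤ (j : ℝ) := by
    rw [hj]
    push_cast
    linarith
  have hj2 : (j : ℝ) ≤ 5 / 2 * u + 2 := by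
    rw [hj]
    push_cast
    linarith
  have hj3 : 3 ≤ j := by
    have : (3 : ℝ) ≤ j := by linarith
    exact_mod_cast this
  obtain ⟨K, hK1, hK2, hK3⟩ := par_K j hj3
  obtain ⟨hk1, hk2, hk3⟩ := h2 z hz2 u hu1 hu2 j K hj2 hK3
  obtain ⟨hs1, hs2, hs3⟩ := h1 z hz1 j hj3 hk3 (j ^ 2 + j) K rfl hk2
  refine ⟨j, j ^ 2 + j, K, hj3, rfl, hK1, hK2, hs1, ?_, ?_⟩
  · have hM0 : (0 : ℝ) ≤ ((j ^ 2 + j : ℕ) : ℝ) := Nat.cast_nonneg _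
    generalize ((j ^ 2 + j : ℕ) : ℝ) = M at hs2 hs3 hM0 ⊢
    have hb0 : 0 ≤ 4 * (16 * M ^ 3 * EE z) * M ^ 2 / z := by positivity
    have hb1 : (4 * (16 * M ^ 3 * EE z) * M ^ 2 / z) ^ j ≤ lam⁻¹ * (z : ℝ) ^ (-(2 / 5) : ℝ) := by
      calc (4 * (16 * M ^ 3 * EE z) * M ^ 2 / z) ^ j
          ≤ ((z : ℝ) ^ (-(2 / 5 : ℝ))) ^ j := pow_le_pow_left₀ hb0 hs2 j
        _ = (z : ℝ) ^ (-(2 / 5 : ℝ) * j) := by
          rw [Real.rpow_mul hz0.le, Real.rpow_natCast]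
        _ ≤ (z : ℝ) ^ (-u + -(2 / 5) : ℝ) :=
          Real.rpow_le_rpow_of_exponent_le (by linarith) (by linarith)
        _ = lam⁻¹ * (z : ℝ) ^ (-(2 / 5) : ℝ) := by
          rw [Real.rpow_add hz0, Real.rpow_neg hz0.le, hzu]
    have hl : 0 < lam⁻¹ := inv_pos.2 hl0
    calc 32 * lam * M ^ 2 * (4 * (16 * M ^ 3 * EE z) * M ^ 2 / z) ^ j
        ≤ 32 * lam * M ^ 2 * (lam⁻¹ * (z : ℝ) ^ (-(2 / 5) : ℝ)) :=
          mul_le_mul_of_nonneg_left hb1 (by positivity)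
      _ = (lam * lam⁻¹) * ((32 * M ^ 2) * (z : ℝ) ^ (-(2 / 5) : ℝ)) := by ring
      _ ≤ 1 * ((z : ℝ) ^ (2 / 5 : ℝ) * (z : ℝ) ^ (-(2 / 5) : ℝ)) := by
        rw [mul_inv_cancel₀ hl0.ne']
        exact mul_le_mul_of_nonneg_left
          (mul_le_mul_of_nonneg_right hs3 (Real.rpow_nonneg hz0.le _)) zero_le_one
      _ = 1 := by
        rw [← Real.rpow_add hz0, add_neg_cancel, Real.rpow_zero, one_mul]
  · have h3 : Real.log (16 ^ K * (z : ℝ) ^ 2) ≤ Real.log lam := by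
      rw [Real.log_mul (by positivity) (by positivity), Real.log_pow, Real.log_pow, ← hut]
      push_cast
      linarith
    exact (Real.log_le_log_iff (by positivity) hl0).1 h3

end Pool.Agent.Lib.MP_ed661f_ag.X
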