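import Mathlib

/-! A residue class with a small sum (task X19). -/

set_option autoImplicit false

namespace Pool.Agent.Lib.MP_ed661f_ag.X

theorem Pigeon_sum (a : ℕ → ℝ) (h0 m : ℕ) :
    ∑ r ∈ Finset.range h0, ∑ i ∈ Finset.range m, a (r + h0 * i) =
      ∑ b ∈ Finset.range (h0 * m), a b := by
  induction m with
  | zero => simp
  | succ m ih =>
    simp only [Finset.sum_range_succ, Finset.sum_add_distrib]
    rw [ih, Nat.mul_succ, Finset.sum_range_add]
    congr 1
    exact Finset.sum_congr rfl fun r _ => by rw [add_comm]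

theorem pigeon {a : ℕ → ℝ} (ha : ∀ b, 0 ≤ a b) {nb h0 : ℕ} (hh : 1 ≤ h0) {E : ℝ}
    (hE : ∑ b ∈ Finset.range nb, a b < E) :
    ∃ r < h0, h0 * ∑ i ∈ Finset.range (nb / h0), a (r + h0 * i) < E := by
  by_contra hcon
  push Not at hcon
  have h1 : ∑ r ∈ Finset.range h0, E ≤
      ∑ r ∈ Finset.range h0, (h0 : ℝ) * ∑ i ∈ Finset.range (nb / h0), a (r + h0 * i) :=
    Finset.sum_le_sum fun r hr => hcon r (Finset.mem_range.1 hr)
  rw [← Finset.mul_sum, Pigeon_sum, Finset.sum_const, Finset.card_range, nsmul_eq_mul] at h1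
  have hpos : (0 : ℝ) < h0 := by exact_mod_cast hh
  have h2 : E ≤ ∑ b ∈ Finset.range (h0 * (nb / h0)), a b := le_of_mul_le_mul_left h1 hpos
  have h3 : ∑ b ∈ Finset.range (h0 * (nb / h0)), a b ≤ ∑ b ∈ Finset.range nb, a b :=
    Finset.sum_le_sum_of_subset_of_nonneg
      (Finset.range_mono (Nat.mul_div_le nb h0)) fun b _ _ => ha b
  linarith

end Pool.Agent.Lib.MP_ed661f_ag.X
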