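import Pool.Agent.Lib.MP_ed661f_ag.X.SmallWin
import Pool.Agent.Lib.MP_ed661f_ag.X.Pigeon

/-! Small multipliers (task X24). -/

set_option autoImplicit false

namespace Pool.Agent.Lib.MP_ed661f_ag.X

open Pool.Agent.Lib.MP_ed661f_ag.G

/-- `pigeon` with `h0 = 40000 * E`, then `small_window` with `z = z0 + 4 * r`, `D = 4 * h0`,
`l = nb / h0` -/
theorem small {z0 nb E : ℕ} {lam : ℝ} (hE : 1 ≤ E) (hz : 32000000 * E ≤ z0)
    (h5 : 16 * z0 ≤ 10 * (z0 + 4 * nb)) (h6 : 3 * (z0 + 4 * nb) ≤ 5 * z0)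
    (h1 : (z0 : ℝ) ^ 2 ≤ 20 * lam) (h2 : 1280000 * E * lam ≤ (z0 : ℝ) ^ 3) :
    (E : ℝ) ≤ ∑ b ∈ Finset.range nb, nrm (lam * gz (z0 + 4 * b)) ^ 2 := by
  by_contra hcon
  rw [not_le] at hcon
  set h0 : ℕ := 40000 * E with hh0
  obtain ⟨r, hr, hsum⟩ := pigeon (a := fun b : ℕ => nrm (lam * gz (z0 + 4 * b)) ^ 2)
    (fun _ => sq_nonneg _) (h0 := h0) (by omega) hcon
  set l : ℕ := nb / h0 with hl
  have hh0pos : 0 < h0 := by omega
  have hl1 : 1 ≤ l := by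
    rw [hl, Nat.one_le_div_iff hh0pos]
    omega
  have hle : h0 * l ≤ nb := Nat.mul_div_le nb h0
  have hlt : nb < h0 * l + h0 := by
    have := Nat.lt_mul_div_succ nb hh0pos
    rw [← hl] at this
    rw [mul_add, mul_one] at this
    exact this
  have hz0 : (0 : ℝ) < z0 := by
    have : 0 < z0 := by omega
    exact_mod_cast this
  have hE0 : (0 : ℝ) < E := by exact_mod_cast hE
  -- the real inequalities
  have hle' : (h0 : ℝ) * l ≤ nb := by exact_mod_cast hle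
  have hlt' : (nb : ℝ) ≤ h0 * l + h0 := by exact_mod_cast hlt.le
  have hr' : (r : ℝ) + 1 ≤ h0 := by exact_mod_cast hr
  have h5' : 16 * (z0 : ℝ) ≤ 10 * (z0 + 4 * nb) := by exact_mod_cast h5
  have h6' : 3 * ((z0 : ℝ) + 4 * nb) ≤ 5 * z0 := by exact_mod_cast h6
  have hz' : 32000000 * (E : ℝ) ≤ z0 := by exact_mod_cast hz
  have hh0' : (h0 : ℝ) = 40000 * E := by
    rw [hh0]
    push_cast
    ring
  have hr0 : (0 : ℝ) ≤ r := Nat.cast_nonneg r
  have key := small_window (z0 := (z0 : ℝ)) (z := z0 + 4 * r) (D := 4 * h0) (lam := lam) (l := l)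
    hz0 (by linarith) (by rw [hh0']; positivity) hl1 h1 (by rw [hh0']; linarith)
    (by
      have : 4 * (h0 : ℝ) * ((l : ℝ) - 1) = 4 * (h0 * l) - 4 * h0 := by ring
      rw [this]
      rw [hh0'] at hlt' ⊢
      linarith)
    (by
      have : 4 * (h0 : ℝ) * ((l : ℝ) - 1) = 4 * (h0 * l) - 4 * h0 := by ring
      rw [this]
      linarith)
  have heq : ∑ i ∈ Finset.range l, nrm (lam * gz ((z0 : ℝ) + 4 * r + 4 * h0 * i)) ^ 2
      = ∑ i ∈ Finset.range l, nrm (lam * gz (z0 + 4 * ((r + h0 * i : ℕ) : ℝ))) ^ 2 := by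
    refine Finset.sum_congr rfl fun i _ => ?_
    congr 4
    push_cast
    ring
  rw [heq] at key
  have hsum' : (h0 : ℝ) * ∑ i ∈ Finset.range l,
      nrm (lam * gz (z0 + 4 * ((r + h0 * i : ℕ) : ℝ))) ^ 2 < E := hsum
  rw [hh0'] at hsum'
  have h7 : (E : ℝ) * (40000 * ∑ i ∈ Finset.range l,
      nrm (lam * gz (z0 + 4 * ((r + h0 * i : ℕ) : ℝ))) ^ 2) < E * 1 := by
    rw [mul_one]
    refine lt_of_eq_of_lt ?_ hsum'
    ring
  have h8 := lt_of_mul_lt_mul_left h7 hE0.le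
  linarith

end Pool.Agent.Lib.MP_ed661f_ag.X
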