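import Pool.Agent.Lib.MP_ed661f_ag.X.Large
import Pool.Agent.Lib.MP_ed661f_ag.X.Small
import Pool.Agent.Lib.MP_ed661f_ag.X.ParX
import Pool.Agent.Lib.MP_ed661f_ag.X.NumA

/-! The multiples are not all close to integers (task X29). -/

set_option autoImplicit false

namespace Pool.Agent.Lib.MP_ed661f_ag.X

open Pool.Agent.Lib.MP_ed661f_ag.G

/-- for `lam ≤ z0 ^ (9 / 4)` use `small`, for `lam ≥ z0 ^ (9 / 4)` use `params` and `large`; `num_small` -/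
theorem rl : ∃ Z0 : ℕ, ∀ z0 : ℕ, Z0 ≤ z0 → ∀ nb : ℕ, 16 * z0 ≤ 10 * (z0 + 4 * nb) →
    3 * (z0 + 4 * nb) ≤ 5 * z0 → ∀ lam : ℝ, (z0 : ℝ) ^ 2 ≤ 20 * lam →
    lam ≤ Real.exp ((z0 : ℝ) ^ (1 / 19 : ℝ)) →
    (EE z0 : ℝ) ≤ ∑ b ∈ Finset.range nb, nrm (lam * gz (z0 + 4 * b)) ^ 2 := by
  obtain ⟨Z1, h1⟩ := num_small
  obtain ⟨Z2, h2⟩ := params
  refine ⟨max Z1 Z2, fun z0 hz nb h5 h6 lam h7 h8 => ?_⟩
  have hE : 1 ≤ EE z0 := by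
    unfold EE
    omega
  rcases le_total lam ((z0 : ℝ) ^ (9 / 4 : ℝ)) with h | h
  · obtain ⟨h9, h10⟩ := h1 z0 (by omega)
    refine small hE h9 h5 h6 h7 (le_trans ?_ h10)
    exact mul_le_mul_of_nonneg_left h (by positivity)
  · obtain ⟨j, M, K, hj, hM, hK1, hK, hbig, hsm, hl⟩ := h2 z0 (by omega) lam h h8
    exact large hj hM hK1 hK hE hbig h5 h6 hsm hl

end Pool.Agent.Lib.MP_ed661f_ag.X
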