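import Pool.Agent.Lib.MP_ed661f_ag.X.Defs
import Pool.Agent.Lib.MP_ed661f_ag.G.Cub

/-! Bounds for the variance (task X30). -/

set_option autoImplicit false

namespace Pool.Agent.Lib.MP_ed661f_ag.X

open Pool.Agent.Lib.MP_ed661f_ag.G

/-- `gz z = log (1 + 2 / ((z + 1) (z + 4))) = -log (1 - 2 / ((z + 2) (z + 3)))` -/
theorem gz_bounds {z : ℝ} (hz : 0 < z) :
    2 / ((z + 2) * (z + 3)) ≤ gz z ∧ gz z ≤ 2 / ((z + 1) * (z + 4)) := by
  have h1 : 0 < (z + 1) * (z + 4) := by positivity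
  have h2 : 0 < (z + 2) * (z + 3) := by positivity
  unfold gz
  constructor
  · have h3 := Real.one_sub_inv_le_log_of_pos (div_pos h2 h1)
    refine le_trans (le_of_eq ?_) h3
    rw [inv_div]
    field_simp
    ring
  · have h3 := Real.log_le_sub_one_of_pos (div_pos h2 h1)
    refine h3.trans (le_of_eq ?_)
    field_simp
    ring

theorem gz_anti {z t : ℝ} (hz : 0 < z) (ht : 0 ≤ t) : gz (z + t) ≤ gz z := by
  unfold gz
  have hA : 0 < (z + 1) * (z + 4) := by positivity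
  have hB : 0 < (z + t + 1) * (z + t + 4) := by positivity
  have hAB : (z + 1) * (z + 4) ≤ (z + t + 1) * (z + t + 4) := by
    apply mul_le_mul (by linarith) (by linarith) (by linarith) (by linarith)
  apply Real.log_le_log (by positivity)
  rw [div_le_div_iff₀ hB hA]
  have e1 : (z + t + 2) * (z + t + 3) = (z + t + 1) * (z + t + 4) + 2 := by ring
  have e2 : (z + 2) * (z + 3) = (z + 1) * (z + 4) + 2 := by ring
  rw [e1, e2]
  generalize (z + 1) * (z + 4) = A at hAB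
  generalize (z + t + 1) * (z + t + 4) = B at hAB
  have e3 : (B + 2) * A = A * B + 2 * A := by ring
  have e4 : (A + 2) * B = A * B + 2 * B := by ring
  rw [e3, e4]
  linarith

theorem sum_gz_le {z0 nb : ℕ} (hz : 1 ≤ z0) (h6 : 3 * (z0 + 4 * nb) ≤ 5 * z0) :
    ∑ b ∈ Finset.range nb, gz (z0 + 4 * b) ≤ 1 / 3 / (z0 : ℝ) := by
  have hz0 : (1 : ℝ) ≤ z0 := by exact_mod_cast hz
  have key : ∀ n : ℕ, ∑ b ∈ Finset.range n, gz (z0 + 4 * b) ≤
      1 / 2 * (1 / (z0 : ℝ) - 1 / (z0 + 4 * n)) := by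
    intro n
    induction n with
    | zero => simp
    | succ n ih =>
      rw [Finset.sum_range_succ]
      have hz : (0 : ℝ) < z0 + 4 * n := by positivity
      have h1 := (gz_bounds hz).2
      have h2 : 2 / (((z0 : ℝ) + 4 * n + 1) * (z0 + 4 * n + 4)) ≤
          1 / 2 * (1 / (z0 + 4 * n) - 1 / (z0 + 4 * (n + 1 : ℕ))) := by
        have e : 1 / 2 * (1 / ((z0 : ℝ) + 4 * n) - 1 / (z0 + 4 * (n + 1 : ℕ))) =
            2 / ((z0 + 4 * n) * (z0 + 4 * n + 4)) := by
          push_cast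
          have h3 : (z0 : ℝ) + 4 * (n + 1) = z0 + 4 * n + 4 := by ring
          rw [h3]
          field_simp
          ring
        rw [e]
        apply div_le_div_of_nonneg_left (by norm_num) (by positivity)
        apply mul_le_mul_of_nonneg_right (by linarith) (by positivity)
      linarith
  refine (key nb).trans ?_
  have h1 : (3 : ℝ) * (z0 + 4 * nb) ≤ 5 * z0 := by exact_mod_cast h6
  have h2 : 3 / (5 * (z0 : ℝ)) ≤ 1 / (z0 + 4 * nb) := by
    rw [div_le_div_iff₀ (by positivity) (by positivity)]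
    linarith
  have h3 : 3 / (5 * (z0 : ℝ)) = 3 / 5 * (1 / z0) := by
    field_simp
  have h4 : 0 < 1 / (z0 : ℝ) := by positivity
  have h5 : 1 / 3 / (z0 : ℝ) = 1 / 3 * (1 / z0) := by ring
  rw [h5]
  rw [h3] at h2
  linarith

/-- the standard deviation is between `9 / 4` times the largest term and `1` -/
theorem sigma_bounds {z0 nb : ℕ} {p : ℝ} (hz : 1000000 ≤ z0)
    (h5 : 16 * z0 ≤ 10 * (z0 + 4 * nb)) (h6 : 3 * (z0 + 4 * nb) ≤ 5 * z0)
    (hp0 : 3 / 50 ≤ p) (hp1 : p ≤ 47 / 50) :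
    (9 / 4 * gz z0) ^ 2 ≤ var p (fun b => gz (z0 + 4 * b)) (Finset.range nb) ∧
      var p (fun b => gz (z0 + 4 * b)) (Finset.range nb) ≤ 1 := by
  have hz0 : (1000000 : ℝ) ≤ z0 := by exact_mod_cast hz
  have hz00 : (0 : ℝ) < z0 := by linarith
  have h5' : (16 : ℝ) * z0 ≤ 10 * (z0 + 4 * nb) := by exact_mod_cast h5
  have h6' : (3 : ℝ) * (z0 + 4 * nb) ≤ 5 * z0 := by exact_mod_cast h6
  have hnb : (150000 : ℝ) ≤ nb := by linarith
  have hp : 141 / 2500 ≤ p * (1 - p) := by nlinarith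
  have hp' : p * (1 - p) ≤ 1 := by nlinarith
  have hz2 : (0 : ℝ) < (z0 : ℝ) ^ 2 := by positivity
  unfold var
  constructor
  · have h1 : gz z0 ≤ 2 * (1 / (z0 : ℝ) ^ 2) := by
      refine (gz_bounds hz00).2.trans ?_
      have e : 2 * (1 / (z0 : ℝ) ^ 2) = 2 / (z0 : ℝ) ^ 2 := by ring
      rw [e]
      apply div_le_div_of_nonneg_left (by norm_num) (by positivity)
      nlinarith
    have h1' : 0 ≤ gz z0 := le_trans (by positivity) (gz_bounds hz00).1
    have h2 : ∀ b ∈ Finset.range nb, (1 / 2 * (1 / (z0 : ℝ) ^ 2)) ^ 2 ≤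
        gz (z0 + 4 * b) ^ 2 := by
      intro b hb
      have hb' : (b : ℝ) ≤ nb := by exact_mod_cast (Finset.mem_range.mp hb).le
      have hz : (0 : ℝ) < z0 + 4 * b := by positivity
      apply pow_le_pow_left₀ (by positivity)
      refine le_trans ?_ (gz_bounds hz).1
      have e : 1 / 2 * (1 / (z0 : ℝ) ^ 2) = 1 / (2 * (z0 : ℝ) ^ 2) := by field_simp
      rw [e, div_le_div_iff₀ (by positivity) (by positivity)]
      have h7 : (z0 : ℝ) + 4 * b + 2 ≤ 17 / 10 * z0 := by linarith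
      have h8 : (z0 : ℝ) + 4 * b + 3 ≤ 17 / 10 * z0 := by linarith
      have h9 := mul_le_mul h7 h8 (by positivity) (by positivity)
      nlinarith
    have h3 := Finset.sum_le_sum h2
    rw [Finset.sum_const, Finset.card_range, nsmul_eq_mul] at h3
    have h4 : (9 / 4 * gz z0) ^ 2 ≤ (9 / 4 * (2 * (1 / (z0 : ℝ) ^ 2))) ^ 2 := by
      apply pow_le_pow_left₀ (by positivity)
      apply mul_le_mul_of_nonneg_left h1 (by norm_num)
    set S := ∑ b ∈ Finset.range nb, gz ((z0 : ℝ) + 4 * b) ^ 2 with hS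
    set w : ℝ := (1 / (z0 : ℝ) ^ 2) ^ 2 with hw
    have hw0 : 0 < w := by positivity
    have e1 : (9 / 4 * (2 * (1 / (z0 : ℝ) ^ 2))) ^ 2 = 81 / 4 * w := by rw [hw]; ring
    have e2 : (nb : ℝ) * (1 / 2 * (1 / (z0 : ℝ) ^ 2)) ^ 2 = nb / 4 * w := by rw [hw]; ring
    rw [e1] at h4
    rw [e2] at h3
    have h10 : 150000 / 4 * w ≤ nb / 4 * w := by
      apply mul_le_mul_of_nonneg_right _ hw0.le
      linarith
    have hS0 : 0 ≤ S := by linarith
    have h11 : 141 / 2500 * S ≤ p * (1 - p) * S := mul_le_mul_of_nonneg_right hp hS0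
    linarith
  · have h1 : ∀ b ∈ Finset.range nb, gz ((z0 : ℝ) + 4 * b) ^ 2 ≤ gz (z0 + 4 * b) := by
      intro b _
      have hz : (0 : ℝ) < z0 + 4 * b := by positivity
      have h2 : 0 ≤ gz ((z0 : ℝ) + 4 * b) := le_trans (by positivity) (gz_bounds hz).1
      have h3 : gz ((z0 : ℝ) + 4 * b) ≤ 1 := by
        refine (gz_bounds hz).2.trans ?_
        rw [div_le_one (by positivity)]
        nlinarith
      rw [sq]
      exact mul_le_of_le_one_left h2 h3
    have h2 := (Finset.sum_le_sum h1).trans (sum_gz_le (by omega) h6)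
    have h3 : 1 / 3 / (z0 : ℝ) ≤ 1 := by
      rw [div_le_one hz00]
      linarith
    have h4 : 0 ≤ ∑ b ∈ Finset.range nb, gz ((z0 : ℝ) + 4 * b) ^ 2 :=
      Finset.sum_nonneg fun _ _ => sq_nonneg _
    have h5 : p * (1 - p) * ∑ b ∈ Finset.range nb, gz ((z0 : ℝ) + 4 * b) ^ 2 ≤
        1 * ∑ b ∈ Finset.range nb, gz ((z0 : ℝ) + 4 * b) ^ 2 :=
      mul_le_mul_of_nonneg_right hp' h4
    linarith

end Pool.Agent.Lib.MP_ed661f_ag.X
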