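import Pool.Agent.Lib.MP_ed661f_ag.X.Density
import Pool.Agent.Lib.MP_ed661f_ag.X.RL
import Pool.Agent.Lib.MP_ed661f_ag.X.Sigma
import Pool.Agent.Lib.MP_ed661f_ag.X.NumA
import Pool.Agent.Lib.MP_ed661f_ag.X.NumB

/-! The subset sums are exponentially dense (task X33). -/

set_option autoImplicit false

namespace Pool.Agent.Lib.MP_ed661f_ag.X

open Pool.Agent.Lib.MP_ed661f_ag.G

/-- `exists_subset` with `S = range nb`, `h b = gz (z0 + 4 * b)`, `p = τ / ∑ h` (between `3 / 50`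
and `47 / 50` by `sum_gz_le`), `σ = √var`, `l = 1 / (10 * gz z0)` (between `z0 ^ 2 / 20` and
`z0 ^ 2`), `L = exp (z0 ^ (1 / 19))`, `E = EE z0`, `δ = exp (-(z0 ^ (1 / 19) / 3))` -/
theorem density : ∃ Z0 : ℕ, ∀ z0 : ℕ, Z0 ≤ z0 → ∀ nb : ℕ, 16 * z0 ≤ 10 * (z0 + 4 * nb) →
    3 * (z0 + 4 * nb) ≤ 5 * z0 → ∀ τ : ℝ, 1 / 50 / (z0 : ℝ) ≤ τ →
    τ ≤ ∑ b ∈ Finset.range nb, gz (z0 + 4 * b) - 1 / 50 / (z0 : ℝ) →
    ∃ U ⊆ Finset.range nb, |∑ b ∈ U, gz (z0 + 4 * b) - τ| <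
      Real.exp (-((z0 : ℝ) ^ (1 / 19 : ℝ) / 3)) := by
  obtain ⟨Z1, hZ1⟩ := rl
  obtain ⟨Z2, hZ2⟩ := num_delta
  refine ⟨max (max Z1 Z2) 1000000, ?_⟩
  intro z0 hz nb h5 h6 τ hτ1 hτ2
  have hz1 : Z1 ≤ z0 := (le_max_left _ _).trans ((le_max_left _ _).trans hz)
  have hz2 : Z2 ≤ z0 := (le_max_right _ _).trans ((le_max_left _ _).trans hz)
  have hz3 : 1000000 ≤ z0 := (le_max_right _ _).trans hz
  have hzR : (1000000 : ℝ) ≤ (z0 : ℝ) := by exact_mod_cast hz3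
  have hz0 : (0 : ℝ) < (z0 : ℝ) := by linarith
  have hg := gz_bounds hz0
  have hgpos : 0 < gz z0 := lt_of_lt_of_le (by positivity) hg.1
  set Sg : ℝ := ∑ b ∈ Finset.range nb, gz (z0 + 4 * b) with hSg
  have h50 : (0 : ℝ) < 1 / 50 / (z0 : ℝ) := by positivity
  have hSpos : 0 < Sg := by linarith
  have hSle : Sg ≤ 1 / 3 / (z0 : ℝ) := sum_gz_le (by omega) h6
  have hfrac : ∀ x : ℝ, 1 / 50 / (z0 : ℝ) ≤ x → 3 / 50 ≤ x / Sg := by
    intro x hx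
    rw [le_div_iff₀ hSpos]
    calc 3 / 50 * Sg ≤ 3 / 50 * (1 / 3 / (z0 : ℝ)) := by linarith
      _ = 1 / 50 / (z0 : ℝ) := by ring
      _ ≤ x := hx
  have hp0 : 3 / 50 ≤ τ / Sg := hfrac τ hτ1
  have hp1 : τ / Sg ≤ 47 / 50 := by
    have h7 := hfrac (Sg - τ) (by linarith)
    rw [sub_div, div_self hSpos.ne'] at h7
    linarith
  obtain ⟨hv1, hv2⟩ := sigma_bounds hz3 h5 h6 hp0 hp1
  have hvpos : 0 < var (τ / Sg) (fun b => gz (z0 + 4 * b)) (Finset.range nb) :=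
    lt_of_lt_of_le (by positivity) hv1
  set σ : ℝ := Real.sqrt (var (τ / Sg) (fun b => gz (z0 + 4 * b)) (Finset.range nb)) with hσdef
  have hσ : 0 < σ := Real.sqrt_pos.2 hvpos
  have hσ2 : var (τ / Sg) (fun b => gz (z0 + 4 * b)) (Finset.range nb) = σ ^ 2 :=
    (Real.sq_sqrt hvpos.le).symm
  have hσ1 : σ ≤ 1 := by
    rw [hσdef, Real.sqrt_le_iff]
    exact ⟨by norm_num, by linarith⟩
  have hσg : 9 / 4 * gz z0 ≤ σ := Real.le_sqrt_of_sq_le hv1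
  have hpos : ∀ b : ℕ, 0 < gz (z0 + 4 * b) := by
    intro b
    have hb : (0 : ℝ) < (z0 : ℝ) + 4 * b := by positivity
    exact lt_of_lt_of_le (by positivity) (gz_bounds hb).1
  have hanti : ∀ b : ℕ, gz (z0 + 4 * b) ≤ gz z0 := fun b => gz_anti hz0 (by positivity)
  have hnd := hZ2 z0 hz2
  have hLz : (z0 : ℝ) ^ 2 < Real.exp ((z0 : ℝ) ^ (1 / 19 : ℝ)) := by
    have h7 : 0 < (Real.exp ((z0 : ℝ) ^ (1 / 19 : ℝ)) - (z0 : ℝ) ^ 2) / 20 :=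
      lt_of_le_of_lt (by positivity) hnd
    linarith
  have hl1 : (z0 : ℝ) ^ 2 ≤ 20 * (1 / (10 * gz z0)) := by
    have h7 : 20 * (1 / (10 * gz z0)) = 2 / gz z0 := by
      field_simp
      norm_num
    rw [h7, le_div_iff₀ hgpos]
    calc (z0 : ℝ) ^ 2 * gz z0 ≤ (z0 : ℝ) ^ 2 * (2 / ((z0 + 1) * (z0 + 4))) :=
          mul_le_mul_of_nonneg_left hg.2 (by positivity)
      _ ≤ 2 := by
        rw [mul_div_assoc', div_le_iff₀ (by positivity)]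
        nlinarith
  have hl2 : 1 / (10 * gz z0) ≤ (z0 : ℝ) ^ 2 := by
    rw [div_le_iff₀ (by positivity)]
    calc (1 : ℝ) ≤ (z0 : ℝ) ^ 2 * (10 * (2 / ((z0 + 2) * (z0 + 3)))) := by
          rw [mul_div_assoc', mul_div_assoc', le_div_iff₀ (by positivity)]
          nlinarith
      _ ≤ (z0 : ℝ) ^ 2 * (10 * gz z0) :=
          mul_le_mul_of_nonneg_left (by linarith [hg.1]) (by positivity)
  have c1 : ∀ b ∈ Finset.range nb, 1 / (10 * gz z0) * gz (z0 + 4 * b) ≤ 1 / 10 := by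
    intro b _
    rw [div_mul_eq_mul_div, one_mul, div_le_iff₀ (by positivity)]
    have := hanti b
    linarith
  have c2 : 9 / (40 * σ) ≤ 1 / (10 * gz z0) := by
    rw [div_le_div_iff₀ (by positivity) (by positivity)]
    linarith
  have c3 : ∀ s, 1 / (10 * gz z0) ≤ s → s ≤ Real.exp ((z0 : ℝ) ^ (1 / 19 : ℝ)) →
      (EE z0 : ℝ) ≤ ∑ b ∈ Finset.range nb, nrm (s * gz (z0 + 4 * b)) ^ 2 := by
    intro s hs hsL
    exact hZ1 z0 hz1 nb h5 h6 s (by linarith) hsL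
  have c4 : Real.exp ((z0 : ℝ) ^ (1 / 19 : ℝ)) *
      Real.exp (-(8 * (τ / Sg) * (1 - τ / Sg) * (EE z0 : ℝ))) ≤ 1 / (100 * σ) := by
    refine (num_far hp0 hp1).trans ?_
    rw [div_le_div_iff₀ (by norm_num) (by positivity)]
    linarith
  have c5 : 1 / (2 * Real.pi ^ 2 * Real.exp (-((z0 : ℝ) ^ (1 / 19 : ℝ) / 3)) ^ 2) <
      (Real.exp ((z0 : ℝ) ^ (1 / 19 : ℝ)) - 1 / (10 * gz z0)) / (20 * σ) := by
    refine lt_of_lt_of_le hnd ?_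
    rw [div_le_div_iff₀ (by norm_num) (by positivity)]
    have h7 : 0 ≤ Real.exp ((z0 : ℝ) ^ (1 / 19 : ℝ)) - 1 / (10 * gz z0) := by linarith
    have h8 : (Real.exp ((z0 : ℝ) ^ (1 / 19 : ℝ)) - (z0 : ℝ) ^ 2) * (20 * σ) ≤
        (Real.exp ((z0 : ℝ) ^ (1 / 19 : ℝ)) - 1 / (10 * gz z0)) * (20 * σ) :=
      mul_le_mul_of_nonneg_right (by linarith) (by positivity)
    have h9 : (Real.exp ((z0 : ℝ) ^ (1 / 19 : ℝ)) - 1 / (10 * gz z0)) * (20 * σ) ≤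
        (Real.exp ((z0 : ℝ) ^ (1 / 19 : ℝ)) - 1 / (10 * gz z0)) * 20 :=
      mul_le_mul_of_nonneg_left (by linarith) h7
    exact h8.trans h9
  obtain ⟨U, hU, hUd⟩ := exists_subset (p := τ / Sg) (h := fun b : ℕ => gz (z0 + 4 * b))
    (S := Finset.range nb) (by linarith) (by linarith) (fun b _ => (hpos b).le) hσ hσ2 c1 c2
    (hl2.trans hLz.le) c3 c4 (Real.exp_pos _) c5
  refine ⟨U, hU, ?_⟩
  have h7 : τ / Sg * ∑ b ∈ Finset.range nb, gz (z0 + 4 * b) = τ := by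
    rw [← hSg]
    exact div_mul_cancel₀ τ hSpos.ne'
  rw [h7] at hUd
  exact hUd

end Pool.Agent.Lib.MP_ed661f_ag.X
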