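import Pool.Agent.Lib.MP_ed661f_ag.X.Pair

/-! The polynomial `AA`: degree and positivity (task X16). -/

set_option autoImplicit false

open Polynomial

namespace Pool.Agent.Lib.MP_ed661f_ag.X

/-- the positive factor of `AA`, over the reals -/
noncomputable def WW (k M : ℕ) : ℝ[X] :=
  ∏ N ∈ Finset.Ico 2 M, (∑ i ∈ Finset.range N, X ^ i) ^ k

theorem map_AA (k H M : ℕ) :
    (AA k H M).map (Int.castRingHom ℝ) = (1 - X ^ H) ^ k * WW k M := by
  unfold AA WW
  simp only [Polynomial.map_mul, Polynomial.map_pow, Polynomial.map_sub, Polynomial.map_one,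
    Polynomial.map_X, Polynomial.map_prod, Polynomial.map_sum]

theorem DegAA_mul_nonneg {P Q : ℝ[X]} (hP : ∀ i, 0 ≤ P.coeff i) (hQ : ∀ i, 0 ≤ Q.coeff i)
    (i : ℕ) : 0 ≤ (P * Q).coeff i := by
  rw [Polynomial.coeff_mul]
  exact Finset.sum_nonneg fun x _ => mul_nonneg (hP _) (hQ _)

theorem DegAA_pow_nonneg {P : ℝ[X]} (hP : ∀ i, 0 ≤ P.coeff i) (k : ℕ) :
    ∀ i, 0 ≤ (P ^ k).coeff i := by
  induction k with
  | zero =>
    intro i
    rw [pow_zero, Polynomial.coeff_one]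
    split_ifs <;> norm_num
  | succ k ih =>
    rw [pow_succ]
    exact DegAA_mul_nonneg ih hP

theorem DegAA_prod_nonneg {ι : Type*} (s : Finset ι) (P : ι → ℝ[X])
    (hP : ∀ j ∈ s, ∀ i, 0 ≤ (P j).coeff i) : ∀ i, 0 ≤ (∏ j ∈ s, P j).coeff i := by
  classical
  induction s using Finset.induction_on with
  | empty =>
    intro i
    rw [Finset.prod_empty, Polynomial.coeff_one]
    split_ifs <;> norm_num
  | insert a s ha ih =>
    rw [Finset.prod_insert ha]
    exact DegAA_mul_nonneg (hP a (Finset.mem_insert_self _ _))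
      (ih fun j hj => hP j (Finset.mem_insert_of_mem hj))

theorem WW_coeff_nonneg (k M i : ℕ) : 0 ≤ (WW k M).coeff i := by
  unfold WW
  refine DegAA_prod_nonneg _ _ (fun N _ => DegAA_pow_nonneg (fun i => ?_) k) i
  rw [Polynomial.finsetSum_coeff]
  refine Finset.sum_nonneg fun j _ => ?_
  rw [Polynomial.coeff_X_pow]
  split_ifs <;> norm_num

theorem DegAA_natDegree {R : Type*} [CommRing R] (k M : ℕ) :
    (∏ N ∈ Finset.Ico 2 M, (∑ i ∈ Finset.range N, (X : R[X]) ^ i) ^ k).natDegree ≤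
      k * M ^ 2 := by
  refine (Polynomial.natDegree_prod_le _ _).trans ?_
  have h1 : ∀ N ∈ Finset.Ico 2 M,
      ((∑ i ∈ Finset.range N, (X : R[X]) ^ i) ^ k).natDegree ≤ k * M := by
    intro N hN
    rw [Finset.mem_Ico] at hN
    refine (Polynomial.natDegree_pow_le).trans (Nat.mul_le_mul_left _ ?_)
    refine Polynomial.natDegree_sum_le_of_forall_le _ _ fun i hi => ?_
    refine (Polynomial.natDegree_X_pow_le i).trans ?_
    rw [Finset.mem_range] at hi
    omega
  refine (Finset.sum_le_card_nsmul _ _ _ h1).trans ?_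
  rw [Nat.card_Ico, smul_eq_mul]
  calc (M - 2) * (k * M) ≤ M * (k * M) := Nat.mul_le_mul_right _ (Nat.sub_le _ _)
    _ = k * M ^ 2 := by ring

theorem WW_natDegree_le (k M : ℕ) : (WW k M).natDegree ≤ k * M ^ 2 := DegAA_natDegree k M

theorem WW_eval_pos (k M : ℕ) : 0 < (WW k M).eval 1 := by
  unfold WW
  rw [Polynomial.eval_prod]
  refine Finset.prod_pos fun N hN => ?_
  rw [Finset.mem_Ico] at hN
  rw [Polynomial.eval_pow, Polynomial.eval_finsetSum]
  simp only [Polynomial.eval_pow, Polynomial.eval_X, one_pow, Finset.sum_const,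
    Finset.card_range, nsmul_eq_mul, mul_one]
  have : (0 : ℝ) < N := by
    have : 0 < N := by omega
    exact_mod_cast this
  positivity

theorem AA_natDegree_le (k H M : ℕ) : (AA k H M).natDegree ≤ k * H + k * M ^ 2 := by
  unfold AA
  refine Polynomial.natDegree_mul_le.trans (Nat.add_le_add ?_ (DegAA_natDegree k M))
  refine (Polynomial.natDegree_pow_le).trans (Nat.mul_le_mul_left _ ?_)
  refine (Polynomial.natDegree_sub_le _ _).trans ?_
  rw [Polynomial.natDegree_one]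
  exact max_le (Nat.zero_le _) (Polynomial.natDegree_X_pow_le H)

theorem DegAA_dh_le {H l : ℕ} {b : ℕ → ℝ} {η : ℝ} (hb : ∀ i < l, |b i| ≤ η) (k : ℕ) :
    ∀ i, i + k * H < l → |((dh H)^[k] b) i| ≤ 2 ^ k * η := by
  induction k with
  | zero =>
    intro i hi
    simpa using hb i (by omega)
  | succ k ih =>
    intro i hi
    have e1 : (k + 1) * H = k * H + H := by ring
    rw [e1] at hi
    rw [Function.iterate_succ_apply']
    change |((dh H)^[k] b) i - ((dh H)^[k] b) (i + H)| ≤ _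
    have h1 := ih i (by omega)
    have h2 := ih (i + H) (by omega)
    have h3 := abs_sub (((dh H)^[k] b) i) (((dh H)^[k] b) (i + H))
    rw [pow_succ]
    linarith

theorem DegAA_pr_eq (k H M : ℕ) (a : ℕ → ℝ) :
    pr a ((AA k H M).map (Int.castRingHom ℝ)) =
      ∑ i ∈ Finset.range (k * M ^ 2 + 1), (WW k M).coeff i * ((dh H)^[k] a) i := by
  rw [map_AA, pr_one_sub_pow_mul]
  exact pr_eq_sum_range (Nat.lt_succ_of_le (WW_natDegree_le k M))

theorem DegAA_eval_eq (k M : ℕ) :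
    (WW k M).eval 1 = ∑ i ∈ Finset.range (k * M ^ 2 + 1), (WW k M).coeff i := by
  rw [Polynomial.eval_eq_sum_range' (Nat.lt_succ_of_le (WW_natDegree_le k M))]
  simp

/-- upper bound: `|pr b (AA)| ≤ 2 ^ k WW(1) η` if `|b| ≤ η` on the support -/
theorem abs_pr_AA_le {k H M l : ℕ} (hl : k * H + k * M ^ 2 < l) {b : ℕ → ℝ} {η : ℝ}
    (hb : ∀ i < l, |b i| ≤ η) :
    |pr b ((AA k H M).map (Int.castRingHom ℝ))| ≤ 2 ^ k * (WW k M).eval 1 * η := by
  rw [DegAA_pr_eq, DegAA_eval_eq]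
  refine (Finset.abs_sum_le_sum_abs _ _).trans ?_
  rw [show 2 ^ k * (∑ i ∈ Finset.range (k * M ^ 2 + 1), (WW k M).coeff i) * η =
    ∑ i ∈ Finset.range (k * M ^ 2 + 1), (WW k M).coeff i * (2 ^ k * η) by
      rw [← Finset.sum_mul]; ring]
  refine Finset.sum_le_sum fun i hi => ?_
  rw [Finset.mem_range] at hi
  rw [abs_mul, abs_of_nonneg (WW_coeff_nonneg k M i)]
  exact mul_le_mul_of_nonneg_left (DegAA_dh_le hb k i (by omega)) (WW_coeff_nonneg k M i)

/-- lower bound -/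
theorem le_pr_AA {k H M : ℕ} {a : ℕ → ℝ} {m : ℝ} (hm : ∀ l ≤ k * M ^ 2, m ≤ ((dh H)^[k] a) l) :
    m * (WW k M).eval 1 ≤ pr a ((AA k H M).map (Int.castRingHom ℝ)) := by
  rw [DegAA_pr_eq, DegAA_eval_eq, Finset.mul_sum]
  refine Finset.sum_le_sum fun i hi => ?_
  rw [Finset.mem_range] at hi
  rw [mul_comm]
  exact mul_le_mul_of_nonneg_left (hm i (by omega)) (WW_coeff_nonneg k M i)

/-- the final inequality -/
theorem core_ineq {k H M l : ℕ} (hl : k * H + k * M ^ 2 < l) {ν : ℕ → ℤ} {γ : ℕ → ℝ}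
    {lam η m : ℝ} (hlam : 0 ≤ lam) (hη : ∀ i < l, |lam * γ i - ν i| ≤ η)
    (hm : ∀ i ≤ k * M ^ 2, m ≤ ((dh H)^[k] γ) i) (h0 : pr ν (AA k H M) = 0) :
    lam * m ≤ 2 ^ k * η := by
  have h1 := abs_pr_AA_le hl hη
  have h2 : pr (fun i => lam * γ i) ((AA k H M).map (Int.castRingHom ℝ)) =
      lam * pr γ ((AA k H M).map (Int.castRingHom ℝ)) := pr_mul_seq _ _ _
  have h3 : pr (fun i => (ν i : ℝ)) ((AA k H M).map (Int.castRingHom ℝ)) = 0 := by
    have h4 := pr_map (Int.castRingHom ℝ) ν (AA k H M)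
    rw [h0, map_zero] at h4
    exact h4
  have h4 : pr (fun i => lam * γ i - (ν i : ℝ)) ((AA k H M).map (Int.castRingHom ℝ)) =
      lam * pr γ ((AA k H M).map (Int.castRingHom ℝ)) := by
    have h5 := pr_add_seq (fun i => lam * γ i - (ν i : ℝ)) (fun i => (ν i : ℝ))
      ((AA k H M).map (Int.castRingHom ℝ))
    rw [h3, add_zero] at h5
    rw [← h5, ← h2]
    congr 1
    ext i
    ring
  rw [h4] at h1
  have h5 := le_pr_AA (H := H) hm
  have h6 := WW_eval_pos k M
  have h7 := le_abs_self (lam * pr γ ((AA k H M).map (Int.castRingHom ℝ)))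
  have h8 := mul_le_mul_of_nonneg_left h5 hlam
  have h9 : lam * m * (WW k M).eval 1 ≤ 2 ^ k * η * (WW k M).eval 1 := by
    calc lam * m * (WW k M).eval 1 = lam * (m * (WW k M).eval 1) := by ring
      _ ≤ 2 ^ k * (WW k M).eval 1 * η := (h8.trans h7).trans h1
      _ = 2 ^ k * η * (WW k M).eval 1 := by ring
  exact le_of_mul_le_mul_right h9 h6

end Pool.Agent.Lib.MP_ed661f_ag.X
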