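import Pool.Agent.Lib.MP_ed661f_ag.X.Roots

/-! The polynomial `AA` belongs to the ideal (task X15). -/

set_option autoImplicit false

open Polynomial

namespace Pool.Agent.Lib.MP_ed661f_ag.X

theorem AA_map (k H M : ℕ) : (AA k H M).map (Int.castRingHom ℂ) =
    (1 - X ^ H) ^ k * ∏ N ∈ Finset.Ico 2 M, (∑ i ∈ Finset.range N, X ^ i) ^ k := by
  unfold AA
  simp [Polynomial.map_mul, Polynomial.map_prod, Polynomial.map_sum]

theorem AA_map_ne_zero {k H M : ℕ} (hH : 1 ≤ H) : (AA k H M).map (Int.castRingHom ℂ) ≠ 0 := by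
  rw [AA_map]
  refine mul_ne_zero (pow_ne_zero _ ?_) (Finset.prod_ne_zero_iff.2 fun N hN => pow_ne_zero _ ?_)
  · intro h
    have h1 := congrArg (eval 0) h
    rw [eval_sub, eval_pow, eval_X, eval_one, eval_zero, zero_pow (by omega), sub_zero] at h1
    exact one_ne_zero h1
  · intro h
    rw [Finset.mem_Ico] at hN
    have h1 := congrArg (eval 1) h
    rw [eval_finsetSum] at h1
    simp only [eval_pow, eval_X, one_pow, Finset.sum_const, Finset.card_range, nsmul_eq_mul,
      mul_one, eval_zero] at h1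
    have h2 : N = 0 := by exact_mod_cast h1
    omega

theorem le_rootMultiplicity_AA {k H M N : ℕ} (hH : 1 ≤ H) (hN : 1 ≤ N) (hNM : N < M) {ζ : ℂ}
    (hζ : IsPrimitiveRoot ζ N) :
    k ≤ ((AA k H M).map (Int.castRingHom ℂ)).rootMultiplicity ζ := by
  rw [le_rootMultiplicity_iff (AA_map_ne_zero hH), AA_map]
  rcases eq_or_lt_of_le hN with h1 | h1
  · subst h1
    have h2 : ζ = 1 := by simpa using hζ.pow_eq_one
    refine dvd_mul_of_dvd_left (pow_dvd_pow_of_dvd ?_ k) _
    rw [dvd_iff_isRoot, IsRoot, h2]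
    simp
  · refine dvd_mul_of_dvd_right ?_ _
    refine dvd_trans (pow_dvd_pow_of_dvd ?_ k) (Finset.dvd_prod_of_mem _ (a := N) ?_)
    · rw [dvd_iff_isRoot, IsRoot, eval_finsetSum]
      simp only [eval_pow, eval_X]
      exact hζ.geom_sum_eq_zero h1
    · rw [Finset.mem_Ico]
      exact ⟨h1, hNM⟩

theorem not_dvd_map {F : ℤ[X]} {k : ℕ} (hk : ¬ (X - 1) ^ k ∣ F) :
    ¬ (X - C 1) ^ k ∣ F.map (Int.castRingHom ℂ) := by
  intro h
  refine hk ?_
  have hmon : ((X - 1 : ℤ[X]) ^ k).Monic := by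
    have := (monic_X_sub_C (1 : ℤ)).pow k
    rwa [C_1] at this
  rw [← map_dvd_map (Int.castRingHom ℂ) (RingHom.injective_int _) hmon]
  simpa using h

/-- the ideal is generated by one polynomial `g`; all its zeros are zeros of `AA` with at least the
same multiplicity -/
theorem AA_mem {F : ℤ[X]} {M k H : ℕ} (h0 : F.coeff 0 ≠ 0) (hM : F.natDegree < M) (hH : 1 ≤ H)
    (hk : ¬ (X - 1) ^ (k + 1) ∣ F) : (AA k H M).map (Int.castRingHom ℂ) ∈
      Ideal.span ((fun h : ℕ => (F.map (Int.castRingHom ℂ)).comp (X ^ h)) '' Set.Icc 1 M) := by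
  classical
  set G : ℂ[X] := F.map (Int.castRingHom ℂ) with hG
  have hG0 : G.coeff 0 ≠ 0 := by
    rw [hG, coeff_map]
    simpa using h0
  have hGM : G.natDegree < M := lt_of_le_of_lt natDegree_map_le hM
  have hGne : G ≠ 0 := by
    intro h
    rw [h] at hG0
    simp at hG0
  set I := Ideal.span ((fun h : ℕ => G.comp (X ^ h)) '' Set.Icc 1 M) with hI
  obtain ⟨g, hg⟩ := (IsPrincipalIdealRing.principal I).principal
  have hgI : I = Ideal.span {g} := hg
  have hmem : ∀ h, 1 ≤ h → h ≤ M → g ∣ G.comp (X ^ h) := by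
    intro h h1 h2
    rw [← Ideal.mem_span_singleton, ← hgI, hI]
    exact Ideal.subset_span ⟨h, ⟨h1, h2⟩, rfl⟩
  have hcne : ∀ h, 1 ≤ h → G.comp (X ^ h) ≠ 0 := by
    intro h h1 h2
    have h3 := congrArg (eval 0) h2
    rw [eval_comp, eval_pow, eval_X, zero_pow (by omega), eval_zero, ← coeff_zero_eq_eval_zero]
      at h3
    exact hG0 h3
  have hgne : g ≠ 0 := by
    rintro rfl
    exact hcne 1 le_rfl (zero_dvd_iff.1 (hmem 1 le_rfl (by omega)))
  rw [hgI, Ideal.mem_span_singleton,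
    IsAlgClosed.dvd_iff_roots_le_roots hgne (AA_map_ne_zero hH), Multiset.le_iff_count]
  intro ζ
  rw [count_roots, count_roots]
  by_cases hroot : g.IsRoot ζ
  · obtain ⟨N, hN1, hNM, hζ⟩ := exists_order hG0 hGM (ζ := ζ) (by
      intro h h1 h2
      obtain ⟨q, hq⟩ := hmem h h1 h2
      have h3 := congrArg (eval ζ) hq
      rw [eval_comp, eval_pow, eval_X, eval_mul, hroot.eq_zero, zero_mul] at h3
      exact h3)
    have h1 : g.rootMultiplicity ζ ≤ (G.comp (X ^ N)).rootMultiplicity ζ :=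
      rootMultiplicity_le_rootMultiplicity_of_dvd (hcne N hN1) (hmem N hN1 hNM.le) ζ
    have h2 := rootMultiplicity_comp_le hGne hN1 (not_dvd_map hk) hζ.pow_eq_one
    exact h1.trans (h2.trans (le_rootMultiplicity_AA hH hN1 hNM hζ))
  · rw [rootMultiplicity_eq_zero hroot]
    exact Nat.zero_le _

end Pool.Agent.Lib.MP_ed661f_ag.X
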