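import Pool.Agent.Lib.MP_ed661f_ag.X.Ideal
import Pool.Agent.Lib.MP_ed661f_ag.X.Span
import Pool.Agent.Lib.MP_ed661f_ag.X.DegAA

/-! The polynomial `AA` annihilates the sequence (task X20). -/

set_option autoImplicit false

open Polynomial

namespace Pool.Agent.Lib.MP_ed661f_ag.X

theorem pr_AA_eq_zero {F : ℤ[X]} {M k H l : ℕ} (h0 : F.coeff 0 ≠ 0) (hM : F.natDegree < M)
    (hH : 1 ≤ H) (hk : ¬ (X - 1) ^ (k + 1) ∣ F) {ν : ℕ → ℤ} (hν : Ann F M l ν)
    (hl : M ^ 2 + M ≤ l) (hdeg : k * H + k * M ^ 2 < l) : pr ν (AA k H M) = 0 := by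
  have hinj : Function.Injective (Int.castRingHom ℂ) := RingHom.injective_int _
  have hnd : (F.map (Int.castRingHom ℂ)).natDegree = F.natDegree :=
    natDegree_map_eq_of_injective hinj F
  have hF0 : F ≠ 0 := by
    rintro rfl
    simp at h0
  have hFc : F.map (Int.castRingHom ℂ) ≠ 0 := (Polynomial.map_ne_zero_iff hinj).2 hF0
  have hann : Ann (F.map (Int.castRingHom ℂ)) M l (fun i => ((Int.castRingHom ℂ) (ν i))) := by
    intro h h1 h2 i0 hi0
    rw [hnd] at hi0 ⊢
    have := congrArg (Int.castRingHom ℂ) (hν h h1 h2 i0 hi0)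
    rw [map_sum, map_zero] at this
    simp only [map_mul] at this
    simp only [coeff_map]
    exact this
  have h := pr_eq_zero_of_mem hFc (by rw [hnd]; exact hM) hl hann
    (A := (AA k H M).map (Int.castRingHom ℂ))
    ((natDegree_map_le).trans_lt ((AA_natDegree_le k H M).trans_lt hdeg))
    (AA_mem h0 hM hH hk)
  rw [pr_map] at h
  exact (map_eq_zero_iff _ hinj).1 h

end Pool.Agent.Lib.MP_ed661f_ag.X
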