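import Mathlib

/-! A monotonicity argument (task X4). -/

set_option autoImplicit false

namespace Pool.Agent.Lib.MP_ed661f_ag.X

private theorem calc_mono {f f' : ℝ → ℝ} {a b : ℝ} (hab : a ≤ b)
    (hf : ∀ s, HasDerivAt f (f' s) s) (h : ∀ s, a ≤ s → s ≤ b → 0 ≤ f' s) : f a ≤ f b := by
  have hm : MonotoneOn f (Set.Icc a b) := by
    refine monotoneOn_of_deriv_nonneg (convex_Icc a b) ?_ ?_ ?_
    · exact fun s _ => (hf s).continuousAt.continuousWithinAt
    · exact fun s _ => (hf s).differentiableAt.differentiableWithinAt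
    · intro s hs
      rw [interior_Icc] at hs
      rw [(hf s).deriv]
      exact h s hs.1.le hs.2.le
  exact hm (Set.left_mem_Icc.2 hab) (Set.right_mem_Icc.2 hab) hab

/-- `K' = G`, `G' = R`, `K ≥ 0`, `G(0) = 0` and the lower bounds for `R` give `K(L) ≥ (L - l) / (20 σ)`.
Proof: `G(s) ≥ s - 2 π ^ 2 σ ^ 2 s ^ 3 / 3`, at `s1 = 9 / (40 σ)` this is at least `0.15 / σ`; on
`[s1, l]` use `exp (-19 σ ^ 2 s ^ 2) ≤ exp (-19 σ ^ 2 s1 s)`, which costs at most
`exp (-19 σ ^ 2 s1 ^ 2) / (19 σ ^ 2 s1) ≤ 0.09 / σ`; on `[l, L]` the loss is at most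
`η L ≤ 0.01 / σ`. So `G ≥ 0.05 / σ` on `[l, L]`. -/
theorem calc_bound {K G R : ℝ → ℝ} {σ l L η : ℝ} (hσ : 0 < σ)
    (hK : ∀ s, HasDerivAt K (G s) s) (hG : ∀ s, HasDerivAt G (R s) s) (hG0 : G 0 = 0)
    (hK0 : ∀ s, 0 ≤ K s) (h1 : 9 / (40 * σ) ≤ l) (h2 : l ≤ L)
    (hR1 : ∀ s, 1 - 2 * Real.pi ^ 2 * σ ^ 2 * s ^ 2 ≤ R s)
    (hR2 : ∀ s, 0 ≤ s → s ≤ l → -Real.exp (-(19 * σ ^ 2 * s ^ 2)) ≤ R s)
    (hη : 0 ≤ η) (hR3 : ∀ s, l ≤ s → s ≤ L → -η ≤ R s) (hηL : η * L ≤ 1 / (100 * σ)) :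
    (L - l) / (20 * σ) ≤ K L := by
  have hs1 : 0 < 9 / (40 * σ) := by positivity
  have hl : 0 < l := lt_of_lt_of_le hs1 h1
  -- step 1
  have e1 : (0 : ℝ) ≤ G (9 / (40 * σ)) - (9 / (40 * σ) -
      2 * Real.pi ^ 2 * σ ^ 2 / 3 * (9 / (40 * σ)) ^ 3) := by
    have := calc_mono (f := fun s => G s - (s - 2 * Real.pi ^ 2 * σ ^ 2 / 3 * s ^ 3))
      (f' := fun s => R s - (1 - 2 * Real.pi ^ 2 * σ ^ 2 / 3 * (3 * s ^ 2)))
      (a := 0) (b := 9 / (40 * σ)) hs1.le ?_ ?_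
    · simpa [hG0] using this
    · intro s
      have h3 : HasDerivAt (fun s : ℝ => s ^ 3) (3 * s ^ 2) s := by
        simpa using hasDerivAt_pow 3 s
      exact (hG s).sub ((hasDerivAt_id s).sub (h3.const_mul _))
    · intro s _ _
      have := hR1 s
      nlinarith
  have hpi : Real.pi ^ 2 ≤ 9.8697 := by
    have h := Real.pi_lt_d4
    have h0 := Real.pi_pos
    nlinarith
  have e2 : 0.15 / σ ≤ G (9 / (40 * σ)) := by
    have h3 : 9 / (40 * σ) - 2 * Real.pi ^ 2 * σ ^ 2 / 3 * (9 / (40 * σ)) ^ 3 =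
        (9 / 40 - 2 * Real.pi ^ 2 / 3 * (9 / 40) ^ 3) / σ := by
      field_simp
    have h4 : (0.15 : ℝ) / σ ≤ (9 / 40 - 2 * Real.pi ^ 2 / 3 * (9 / 40) ^ 3) / σ := by
      apply div_le_div_of_nonneg_right _ hσ.le
      nlinarith
    linarith
  -- step 2
  have hc : 0 < 19 * σ ^ 2 * (9 / (40 * σ)) := by positivity
  have e3 : ∀ s, 9 / (40 * σ) ≤ s → s ≤ l → G (9 / (40 * σ)) -
      Real.exp (-(19 * σ ^ 2 * (9 / (40 * σ)) * (9 / (40 * σ)))) / (19 * σ ^ 2 * (9 / (40 * σ))) ≤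
      G s - Real.exp (-(19 * σ ^ 2 * (9 / (40 * σ)) * s)) / (19 * σ ^ 2 * (9 / (40 * σ))) := by
    intro s hs hsl
    refine calc_mono (f := fun s => G s -
      Real.exp (-(19 * σ ^ 2 * (9 / (40 * σ)) * s)) / (19 * σ ^ 2 * (9 / (40 * σ))))
      (f' := fun s => R s + Real.exp (-(19 * σ ^ 2 * (9 / (40 * σ)) * s))) hs ?_ ?_
    · intro t
      have h3 : HasDerivAt (fun s : ℝ => -(19 * σ ^ 2 * (9 / (40 * σ)) * s))
          (-(19 * σ ^ 2 * (9 / (40 * σ)))) t := by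
        have h30 := ((hasDerivAt_id t).const_mul (19 * σ ^ 2 * (9 / (40 * σ)))).neg
        rw [mul_one] at h30
        exact h30
      have h4 := (hG t).sub ((h3.exp).div_const (19 * σ ^ 2 * (9 / (40 * σ))))
      refine h4.congr_deriv ?_
      field_simp
      ring
    · intro t ht1 ht2
      have h3 := hR2 t (hs1.le.trans ht1) (ht2.trans hsl)
      have h4 : Real.exp (-(19 * σ ^ 2 * t ^ 2)) ≤
          Real.exp (-(19 * σ ^ 2 * (9 / (40 * σ)) * t)) := by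
        apply Real.exp_le_exp.2
        apply neg_le_neg
        have h5 : 19 * σ ^ 2 * (9 / (40 * σ)) * t ≤ 19 * σ ^ 2 * t * t := by
          have h6 : 0 ≤ t := hs1.le.trans ht1
          have h7 : 0 ≤ 19 * σ ^ 2 := by positivity
          exact mul_le_mul_of_nonneg_right (mul_le_mul_of_nonneg_left ht1 h7) h6
        calc 19 * σ ^ 2 * (9 / (40 * σ)) * t ≤ 19 * σ ^ 2 * t * t := h5
          _ = 19 * σ ^ 2 * t ^ 2 := by ring
      linarith
  have e4 : Real.exp (-(19 * σ ^ 2 * (9 / (40 * σ)) * (9 / (40 * σ)))) /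
      (19 * σ ^ 2 * (9 / (40 * σ))) ≤ 0.09 / σ := by
    have h3 : 19 * σ ^ 2 * (9 / (40 * σ)) * (9 / (40 * σ)) = 1539 / 1600 := by
      field_simp
      norm_num
    have h4 : 19 * σ ^ 2 * (9 / (40 * σ)) = 171 / 40 * σ := by
      field_simp
      norm_num
    rw [h3, h4]
    have h5 : Real.exp (-(1539 / 1600)) ≤ 0.38475 := by
      have h6 : Real.exp 1 * (1 - 61 / 1600) ≤ Real.exp (1539 / 1600) := by
        have h7 : (1539 / 1600 : ℝ) = 1 + (-(61 / 1600)) := by norm_num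
        rw [h7, Real.exp_add]
        apply mul_le_mul_of_nonneg_left _ (Real.exp_pos 1).le
        have := Real.add_one_le_exp (-(61 / 1600 : ℝ))
        linarith
      have h8 := Real.exp_one_gt_d9
      rw [Real.exp_neg, inv_le_comm₀ (Real.exp_pos _) (by norm_num)]
      refine le_trans ?_ h6
      calc (0.38475 : ℝ)⁻¹ ≤ 2.7182818283 * (1 - 61 / 1600) := by norm_num
        _ ≤ Real.exp 1 * (1 - 61 / 1600) :=
            mul_le_mul_of_nonneg_right h8.le (by norm_num)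
    rw [div_le_div_iff₀ (by positivity) hσ]
    nlinarith
  have e5 : 0.06 / σ ≤ G l := by
    have h3 := e3 l h1 le_rfl
    have h4 : 0 ≤ Real.exp (-(19 * σ ^ 2 * (9 / (40 * σ)) * l)) / (19 * σ ^ 2 * (9 / (40 * σ))) := by
      positivity
    have h5 : (0.15 : ℝ) / σ - 0.09 / σ = 0.06 / σ := by ring
    linarith
  -- step 3
  have e6 : ∀ s, l ≤ s → s ≤ L → 0.05 / σ ≤ G s := by
    intro s hs hsL
    have h3 := calc_mono (f := fun s => G s + η * s) (f' := fun s => R s + η * 1) hs ?_ ?_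
    · have h4 : η * s ≤ η * L := mul_le_mul_of_nonneg_left hsL hη
      have h5 : 0 ≤ η * l := mul_nonneg hη hl.le
      have h6 : (0.06 : ℝ) / σ - 1 / (100 * σ) = 0.05 / σ := by
        field_simp
        norm_num
      have h7 : G l + η * l ≤ G s + η * s := h3
      linarith
    · intro t
      exact (hG t).add ((hasDerivAt_id t).const_mul η)
    · intro t ht1 ht2
      have := hR3 t ht1 (ht2.trans hsL)
      linarith
  have e7 := calc_mono (f := fun s => K s - 0.05 / σ * s) (f' := fun s => G s - 0.05 / σ * 1) h2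
    (fun t => (hK t).sub ((hasDerivAt_id t).const_mul _))
    (fun t ht1 ht2 => by have := e6 t ht1 ht2; linarith)
  have e8 : K l - 0.05 / σ * l ≤ K L - 0.05 / σ * L := e7
  have e9 := hK0 l
  have e10 : (L - l) / (20 * σ) = 0.05 / σ * L - 0.05 / σ * l := by
    field_simp
    ring
  linarith

end Pool.Agent.Lib.MP_ed661f_ag.X
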