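import Pool.Agent.Lib.MP_ed661f_ag.X.Defs

/-! The decay of the characteristic function (task X2). -/

set_option autoImplicit false

namespace Pool.Agent.Lib.MP_ed661f_ag.X

theorem X2_factor (p α : ℝ) :
    ‖(p : ℂ) * Complex.exp (α * Complex.I) + ((1 - p : ℝ) : ℂ)‖ ≤
      Real.exp (-(2 * p * (1 - p) * Real.sin (α / 2) ^ 2)) := by
  rw [← sq_le_sq₀ (norm_nonneg _) (Real.exp_pos _).le, ← Complex.normSq_eq_norm_sq,
    Complex.normSq_apply]
  have hre : ((p : ℂ) * Complex.exp (α * Complex.I) + ((1 - p : ℝ) : ℂ)).re =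
      p * Real.cos α + (1 - p) := by
    rw [Complex.add_re, Complex.re_ofReal_mul, Complex.exp_ofReal_mul_I_re, Complex.ofReal_re]
  have him : ((p : ℂ) * Complex.exp (α * Complex.I) + ((1 - p : ℝ) : ℂ)).im =
      p * Real.sin α := by
    rw [Complex.add_im, Complex.im_ofReal_mul, Complex.exp_ofReal_mul_I_im, Complex.ofReal_im,
      add_zero]
  rw [hre, him, ← Real.exp_nat_mul]
  have hcos : Real.cos α = 1 - 2 * Real.sin (α / 2) ^ 2 := by
    have h1 := Real.cos_two_mul (α / 2)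
    have h2 := Real.sin_sq_add_cos_sq (α / 2)
    have h3 : 2 * (α / 2) = α := by ring
    rw [h3] at h1
    linarith
  have hexp := Real.add_one_le_exp ((2 : ℕ) * (-(2 * p * (1 - p) * Real.sin (α / 2) ^ 2)))
  refine le_trans (le_of_eq ?_) hexp
  have h4 : Real.sin α * Real.sin α = 1 - Real.cos α ^ 2 := by
    have := Real.sin_sq_add_cos_sq α
    nlinarith
  have h5 : p * Real.sin α * (p * Real.sin α) = p ^ 2 * (1 - Real.cos α ^ 2) := by
    rw [← h4]
    ring
  rw [h5, hcos]
  push_cast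
  ring

/-- the characteristic function is a product, and its modulus is the product of the moduli
`(1 - 4 p (1 - p) sin ^ 2) ^ (1 / 2)` -/
theorem abs_rch_le {p : ℝ} (h0 : 0 ≤ p) (h1 : p ≤ 1) (h : ℕ → ℝ) (S : Finset ℕ) (s : ℝ) :
    |rch p h S s| ≤
      Real.exp (-(2 * p * (1 - p) * ∑ b ∈ S, Real.sin (Real.pi * (s * h b)) ^ 2)) := by
  have hprod : ∏ b ∈ S, ((p : ℂ) * Complex.exp (((2 * Real.pi * s * h b : ℝ) : ℂ) * Complex.I)
      + ((1 - p : ℝ) : ℂ)) = ∑ E ∈ S.powerset, ((wt p S E : ℝ) : ℂ) *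
        Complex.exp (((2 * Real.pi * s * ∑ b ∈ E, h b : ℝ) : ℂ) * Complex.I) := by
    rw [Finset.prod_add]
    apply Finset.sum_congr rfl
    intro E _
    rw [Finset.prod_mul_distrib, Finset.prod_const, Finset.prod_const, ← Complex.exp_sum]
    unfold wt
    rw [← Finset.sum_mul]
    push_cast
    rw [Finset.mul_sum]
    ring
  have hre : rch p h S s = (Complex.exp (((-(2 * Real.pi * s * (p * ∑ b ∈ S, h b)) : ℝ) : ℂ) *
      Complex.I) * ∏ b ∈ S, ((p : ℂ) * Complex.exp (((2 * Real.pi * s * h b : ℝ) : ℂ) * Complex.I)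
      + ((1 - p : ℝ) : ℂ))).re := by
    rw [hprod, Finset.mul_sum, Complex.re_sum]
    unfold rch
    apply Finset.sum_congr rfl
    intro E _
    rw [mul_left_comm, ← Complex.exp_add, ← add_mul, ← Complex.ofReal_add,
      Complex.re_ofReal_mul, Complex.exp_ofReal_mul_I_re]
    unfold cs
    congr 2
    ring
  rw [hre]
  refine le_trans (Complex.abs_re_le_norm _) ?_
  rw [norm_mul, Complex.norm_exp_ofReal_mul_I, one_mul, norm_prod, Finset.mul_sum,
    ← Finset.sum_neg_distrib, Real.exp_sum]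
  apply Finset.prod_le_prod
  · intro b _
    exact norm_nonneg _
  · intro b _
    have h2 := X2_factor p (2 * Real.pi * s * h b)
    have h3 : 2 * Real.pi * s * h b / 2 = Real.pi * (s * h b) := by ring
    rw [h3] at h2
    exact h2

end Pool.Agent.Lib.MP_ed661f_ag.X
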