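import Pool.Agent.Lib.MP_ed661f_ag.X.Char

/-! The decay of the characteristic function: consequences (task X3). -/

set_option autoImplicit false

namespace Pool.Agent.Lib.MP_ed661f_ag.X

theorem four_nrm_sq_le (x : ℝ) : 4 * nrm x ^ 2 ≤ Real.sin (Real.pi * x) ^ 2 := by
  unfold nrm
  have hpi := Real.pi_pos
  have h1 : |x - round x| ≤ 1 / 2 := abs_sub_round x
  have h2 : Real.sin (Real.pi * (x - round x)) ^ 2 = Real.sin (Real.pi * x) ^ 2 := by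
    have e1 : Real.pi * (x - round x) = Real.pi * x - (round x : ℤ) * Real.pi := by ring
    have e2 : ((-1 : ℝ) ^ (round x)) ^ 2 = 1 := by
      rcases Int.even_or_odd (round x) with h | h
      · rw [h.neg_one_zpow, one_pow]
      · rw [h.neg_one_zpow]
        norm_num
    rw [e1, Real.sin_sub_int_mul_pi, mul_pow, e2, one_mul]
  rw [← h2]
  have h3 : |Real.pi * (x - round x)| ≤ Real.pi / 2 := by
    rw [abs_mul, abs_of_pos hpi]
    nlinarith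
  have h4 := Real.mul_abs_le_abs_sin h3
  rw [abs_mul, abs_of_pos hpi] at h4
  have h5 : 2 / Real.pi * (Real.pi * |x - round x|) = 2 * |x - round x| := by
    field_simp
  rw [h5] at h4
  have h6 : (2 * |x - round x|) ^ 2 ≤ |Real.sin (Real.pi * (x - round x))| ^ 2 :=
    pow_le_pow_left₀ (by positivity) h4 2
  rw [sq_abs] at h6
  calc 4 * |x - round x| ^ 2 = (2 * |x - round x|) ^ 2 := by ring
    _ ≤ _ := h6

theorem sq_le_sin_sq {x : ℝ} (h0 : 0 ≤ x) (h1 : x ≤ 1 / 10) :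
    19 / 2 * x ^ 2 ≤ Real.sin (Real.pi * x) ^ 2 := by
  have hp1 := Real.pi_gt_d2
  have hp2 := Real.pi_lt_d4
  have hy0 : 0 ≤ Real.pi * x := by positivity
  have hy1 : Real.pi * x ≤ 0.31416 := by nlinarith
  have hb := Real.sin_bound (x := Real.pi * x) (by rw [abs_of_nonneg hy0]; linarith)
  rw [abs_of_nonneg hy0] at hb
  have hb1 := (abs_le.1 hb).1
  obtain ⟨y, hy⟩ : ∃ y, y = Real.pi * x := ⟨_, rfl⟩
  rw [← hy] at hb1 hy0 hy1 ⊢
  have hy2 : y ^ 2 ≤ 0.0987 := by nlinarith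
  have hy3 : y ^ 3 ≤ 0.0987 * y := by nlinarith
  have hy4 : y ^ 4 ≤ 0.0987 * (0.31416 * y) := by
    have e : y ^ 4 = y ^ 3 * y := by ring
    have e2 : y ^ 2 ≤ 0.31416 * y := by nlinarith
    have e3 : y ^ 4 = y ^ 2 * y ^ 2 := by ring
    rw [e3]
    exact mul_le_mul hy2 e2 (by positivity) (by norm_num)
  have hs : 0.9819 * y ≤ Real.sin y := by nlinarith
  have hs2 : (0.9819 * y) ^ 2 ≤ Real.sin y ^ 2 := pow_le_pow_left₀ (by positivity) hs 2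
  refine le_trans ?_ hs2
  have e4 : (0.9819 * y) ^ 2 = 0.9819 ^ 2 * Real.pi ^ 2 * x ^ 2 := by rw [hy]; ring
  rw [e4]
  apply mul_le_mul_of_nonneg_right _ (sq_nonneg x)
  have e5 : (3.14 : ℝ) ^ 2 ≤ Real.pi ^ 2 := pow_le_pow_left₀ (by norm_num) hp1.le 2
  nlinarith

theorem rch_ge_far {p : ℝ} (h0 : 0 ≤ p) (h1 : p ≤ 1) (h : ℕ → ℝ) (S : Finset ℕ) (s : ℝ) :
    -Real.exp (-(8 * p * (1 - p) * ∑ b ∈ S, nrm (s * h b) ^ 2)) ≤ rch p h S s := by
  have h2 := (abs_le.1 (abs_rch_le h0 h1 h S s)).1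
  refine le_trans ?_ h2
  rw [neg_le_neg_iff, Real.exp_le_exp, neg_le_neg_iff]
  have h3 : 4 * ∑ b ∈ S, nrm (s * h b) ^ 2 ≤
      ∑ b ∈ S, Real.sin (Real.pi * (s * h b)) ^ 2 := by
    rw [Finset.mul_sum]
    exact Finset.sum_le_sum (fun b _ => four_nrm_sq_le _)
  have h4 : 0 ≤ 2 * p * (1 - p) := by
    have : 0 ≤ 1 - p := by linarith
    positivity
  have h5 := mul_le_mul_of_nonneg_left h3 h4
  linarith

theorem rch_ge_near {p : ℝ} (h0 : 0 ≤ p) (h1 : p ≤ 1) (h : ℕ → ℝ) (S : Finset ℕ) {s : ℝ}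
    (hs : 0 ≤ s) (hh : ∀ b ∈ S, 0 ≤ h b) (hsh : ∀ b ∈ S, s * h b ≤ 1 / 10) :
    -Real.exp (-(19 * var p h S * s ^ 2)) ≤ rch p h S s := by
  have h2 := (abs_le.1 (abs_rch_le h0 h1 h S s)).1
  refine le_trans ?_ h2
  rw [neg_le_neg_iff, Real.exp_le_exp, neg_le_neg_iff]
  have h3 : 19 / 2 * (s ^ 2 * ∑ b ∈ S, h b ^ 2) ≤
      ∑ b ∈ S, Real.sin (Real.pi * (s * h b)) ^ 2 := by
    rw [Finset.mul_sum, Finset.mul_sum]
    apply Finset.sum_le_sum
    intro b hb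
    have h6 := sq_le_sin_sq (mul_nonneg hs (hh b hb)) (hsh b hb)
    calc 19 / 2 * (s ^ 2 * h b ^ 2) = 19 / 2 * (s * h b) ^ 2 := by ring
      _ ≤ _ := h6
  have h4 : 0 ≤ 2 * p * (1 - p) := by
    have : 0 ≤ 1 - p := by linarith
    positivity
  have h5 := mul_le_mul_of_nonneg_left h3 h4
  unfold var
  linarith

end Pool.Agent.Lib.MP_ed661f_ag.X
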