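import Pool.Agent.Lib.MP_ed661f_ag.X.Moment2

/-! The order of the zero at `1` of a polynomial of small height is small (task X9). -/

set_option autoImplicit false

open Polynomial

namespace Pool.Agent.Lib.MP_ed661f_ag.X

/-- the Chebyshev polynomial is large to the right of `1` -/
theorem cheb_large {M d : ℕ} (hM : 12 ≤ M) :
    Real.exp (9 / 5 * d / √(M : ℝ)) / 2 ≤ (Chebyshev.T ℝ d).eval (1 + 2 / (M : ℝ)) := by
  have hM' : (12 : ℝ) ≤ M := by exact_mod_cast hM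
  have hM0 : (0 : ℝ) < M := by linarith
  have hsq : 0 < √(M : ℝ) := Real.sqrt_pos.2 hM0
  have hsq2 : √(M : ℝ) ^ 2 = M := Real.sq_sqrt hM0.le
  set t : ℝ := 9 / 5 / √(M : ℝ) with ht
  have ht0 : 0 ≤ t := by positivity
  have ht2 : t ^ 2 / 2 = 81 / 50 / M := by
    rw [ht, div_pow, hsq2]
    ring
  have hx1 : (1 : ℝ) ≤ 1 + 2 / (M : ℝ) := by
    have : 0 ≤ 2 / (M : ℝ) := by positivity
    linarith
  have hcosh : Real.cosh t ≤ 1 + 2 / (M : ℝ) := by
    refine (Real.cosh_le_exp_half_sq t).trans ?_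
    rw [ht2]
    have hu0 : 0 ≤ 81 / 50 / (M : ℝ) := by positivity
    have hu1 : 81 / 50 / (M : ℝ) ≤ 27 / 200 := by
      rw [div_le_iff₀ hM0]
      linarith
    refine (Real.exp_bound_div_one_sub_of_interval hu0 (by linarith)).trans ?_
    have e1 : 2 / (M : ℝ) = 100 / 81 * (81 / 50 / (M : ℝ)) := by ring
    rw [e1]
    set v := 81 / 50 / (M : ℝ)
    rw [div_le_iff₀ (by linarith)]
    nlinarith
  have htx : t ≤ Real.arcosh (1 + 2 / (M : ℝ)) := by
    rw [← Real.arcosh_cosh ht0]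
    exact (Real.arcosh_le_arcosh (Real.cosh_pos t) (by linarith)).2 hcosh
  rw [← Real.cosh_arcosh hx1, Chebyshev.T_real_cosh]
  have h2 : Real.exp (9 / 5 * d / √(M : ℝ)) ≤ Real.exp (((d : ℤ) : ℝ) * Real.arcosh (1 + 2 / (M : ℝ))) := by
    refine Real.exp_le_exp.2 ?_
    have e1 : 9 / 5 * d / √(M : ℝ) = d * t := by
      rw [ht]
      ring
    rw [e1]
    push_cast
    exact mul_le_mul_of_nonneg_left htx (Nat.cast_nonneg d)
  rw [Real.cosh_eq]
  have h3 := Real.exp_pos (-(((d : ℤ) : ℝ) * Real.arcosh (1 + 2 / (M : ℝ))))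
  linarith

/-- otherwise `F` annihilates the polynomial `T_d (1 + 2 (1 - x) / M)`, which is large at `0` and
at most `1` at `1, ..., M - 1` -/
theorem not_dvd {F : ℤ[X]} {M d : ℕ} (hM : 12 ≤ M) (h0 : F.coeff 0 ≠ 0)
    (hdeg : F.natDegree < M) (hB : ∀ i, |F.coeff i| ≤ (M : ℤ))
    (hd : 2 * (M : ℝ) ^ 2 ≤ Real.exp (9 / 5 * d / √(M : ℝ))) : ¬ (X - 1) ^ (d + 1) ∣ F := by
  intro hdvd
  have hM' : (12 : ℝ) ≤ M := by exact_mod_cast hM
  have hM0 : (0 : ℝ) < M := by linarith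
  set P : ℝ[X] := (Chebyshev.T ℝ d).comp (C (1 + 2 / (M : ℝ)) - C (2 / (M : ℝ)) * X) with hP
  have hPe : ∀ x : ℝ, P.eval x = (Chebyshev.T ℝ d).eval (1 + 2 / (M : ℝ) - 2 / (M : ℝ) * x) := by
    intro x
    rw [hP, eval_comp]
    simp
  have hPd : P.natDegree < d + 1 := by
    have h1 : (C (1 + 2 / (M : ℝ)) - C (2 / (M : ℝ)) * X : ℝ[X]).natDegree ≤ 1 := by
      refine (natDegree_sub_le _ _).trans (max_le ?_ ?_)
      · rw [natDegree_C]
        exact Nat.zero_le _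
      · exact (natDegree_C_mul_le _ _).trans natDegree_X_le
    have h2 : P.natDegree ≤ d * 1 := by
      refine natDegree_comp_le.trans ?_
      rw [Chebyshev.natDegree_T, Int.natAbs_natCast]
      exact Nat.mul_le_mul_left _ h1
    omega
  have hsum := sum_coeff_mul_eval hdvd hPd
  rw [Finset.sum_range_succ'] at hsum
  have hP0 : (M : ℝ) ^ 2 ≤ P.eval ((0 : ℕ) : ℝ) := by
    rw [hPe]
    have h1 := cheb_large (d := d) hM
    have e1 : 1 + 2 / (M : ℝ) - 2 / (M : ℝ) * ((0 : ℕ) : ℝ) = 1 + 2 / (M : ℝ) := by simp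
    rw [e1]
    linarith
  have hF0 : (1 : ℝ) ≤ |(F.coeff 0 : ℝ)| := by
    rw [← Int.cast_abs]
    exact_mod_cast Int.one_le_abs h0
  have hbound : |∑ i ∈ Finset.range F.natDegree, (F.coeff (i + 1) : ℝ) * P.eval ((i + 1 : ℕ) : ℝ)| ≤
      (M - 1) * M := by
    refine (Finset.abs_sum_le_sum_abs _ _).trans ?_
    have h1 : ∀ i ∈ Finset.range F.natDegree, |(F.coeff (i + 1) : ℝ) * P.eval ((i + 1 : ℕ) : ℝ)| ≤ M := by
      intro i hi
      rw [Finset.mem_range] at hi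
      rw [abs_mul]
      have h2 : |(F.coeff (i + 1) : ℝ)| ≤ M := by
        rw [← Int.cast_abs]
        exact_mod_cast hB (i + 1)
      have h3 : |P.eval ((i + 1 : ℕ) : ℝ)| ≤ 1 := by
        rw [hPe]
        refine Chebyshev.abs_eval_T_real_le_one _ ?_
        have hi1 : ((i + 1 : ℕ) : ℝ) ≤ M := by
          have : i + 1 ≤ M := by omega
          exact_mod_cast this
        have hi0 : (1 : ℝ) ≤ ((i + 1 : ℕ) : ℝ) := by
          push_cast
          have : (0 : ℝ) ≤ i := Nat.cast_nonneg i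
          linarith
        have e1 : 1 + 2 / (M : ℝ) - 2 / (M : ℝ) * ((i + 1 : ℕ) : ℝ) =
            1 - 2 * ((((i + 1 : ℕ) : ℝ) - 1) / M) := by ring
        rw [e1]
        have h4 : 0 ≤ (((i + 1 : ℕ) : ℝ) - 1) / M := div_nonneg (by linarith) hM0.le
        have h5 : (((i + 1 : ℕ) : ℝ) - 1) / M ≤ 1 := by
          rw [div_le_one hM0]
          linarith
        rw [abs_le]
        constructor <;> linarith
      calc |(F.coeff (i + 1) : ℝ)| * |P.eval ((i + 1 : ℕ) : ℝ)| ≤ M * 1 :=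
            mul_le_mul h2 h3 (abs_nonneg _) hM0.le
        _ = M := mul_one _
    refine (Finset.sum_le_sum h1).trans ?_
    rw [Finset.sum_const, Finset.card_range, nsmul_eq_mul]
    refine mul_le_mul_of_nonneg_right ?_ hM0.le
    have : F.natDegree + 1 ≤ M := hdeg
    have h2 : (F.natDegree : ℝ) + 1 ≤ M := by exact_mod_cast this
    linarith
  have h1 : |(F.coeff 0 : ℝ) * P.eval ((0 : ℕ) : ℝ)| ≤ (M - 1) * M := by
    have h2 : (F.coeff 0 : ℝ) * P.eval ((0 : ℕ) : ℝ) =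
        -∑ i ∈ Finset.range F.natDegree, (F.coeff (i + 1) : ℝ) * P.eval ((i + 1 : ℕ) : ℝ) := by
      linarith
    rw [h2, abs_neg]
    exact hbound
  rw [abs_mul] at h1
  have hPpos : 0 ≤ P.eval ((0 : ℕ) : ℝ) := le_trans (by positivity) hP0
  rw [abs_of_nonneg hPpos] at h1
  have h2 : 1 * (M : ℝ) ^ 2 ≤ |(F.coeff 0 : ℝ)| * P.eval ((0 : ℕ) : ℝ) :=
    mul_le_mul hF0 hP0 (by positivity) (abs_nonneg _)
  nlinarith

end Pool.Agent.Lib.MP_ed661f_ag.X
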