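import Mathlib

/-! The numerical contradiction (task X18). -/

set_option autoImplicit false

namespace Pool.Agent.Lib.MP_ed661f_ag.X

/-- `k ^ k / k! ≤ exp k` (`Real.pow_div_factorial_le_exp`) -/
theorem contra {k : ℕ} (hk : 1 ≤ k) {z0 Zm D lam : ℝ} (hz0 : 0 < z0) (hZm : 0 < Zm)
    (hZ : 3 * Zm ≤ 5 * z0) (hD : 588 * z0 ≤ 1000 * (k * D)) (hlam : 16 ^ k * z0 ^ 2 ≤ lam) :
    2 ^ k * (1 / 4) < lam * (((k + 1).factorial : ℝ) * (2 * D ^ k) / Zm ^ (k + 2)) := by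
  have hk0 : (0 : ℝ) < k := by exact_mod_cast hk
  have hfac0 : (0 : ℝ) < (k.factorial : ℝ) := by exact_mod_cast Nat.factorial_pos k
  -- `k ^ k ≤ k! * 2.72 ^ k`
  have hexp : (k : ℝ) ^ k ≤ (k.factorial : ℝ) * (2.72 : ℝ) ^ k := by
    have h1 : (k : ℝ) ^ k / (k.factorial : ℝ) ≤ Real.exp k :=
      Real.pow_div_factorial_le_exp (k : ℝ) hk0.le k
    have h2 : Real.exp (k : ℝ) = (Real.exp 1) ^ k := by
      rw [← Real.exp_nat_mul, mul_one]
    have h3 : (Real.exp 1) ^ k ≤ (2.72 : ℝ) ^ k := by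
      apply pow_le_pow_left₀ (Real.exp_pos 1).le
      have := Real.exp_one_lt_d9
      linarith
    rw [div_le_iff₀ hfac0] at h1
    calc (k : ℝ) ^ k ≤ Real.exp k * (k.factorial : ℝ) := h1
      _ ≤ (2.72 : ℝ) ^ k * (k.factorial : ℝ) := by
          rw [h2]; exact mul_le_mul_of_nonneg_right h3 hfac0.le
      _ = _ := mul_comm _ _
  -- the main pieces
  have hDk : (0.588 * z0) ^ k ≤ (k * D) ^ k := by
    apply pow_le_pow_left₀ (by positivity)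
    linarith
  have hZk : Zm ^ (k + 2) ≤ (5 / 3 * z0) ^ (k + 2) := by
    apply pow_le_pow_left₀ hZm.le
    linarith
  have hZp : 0 < Zm ^ (k + 2) := by positivity
  have hlam0 : 0 < lam := lt_of_lt_of_le (by positivity) hlam
  have hD0 : 0 < D := by
    have : 0 < (k : ℝ) * D := by nlinarith
    exact (pos_iff_pos_of_mul_pos this).mp hk0
  have hfac : ((k + 1).factorial : ℝ) = (k + 1) * (k.factorial : ℝ) := by
    rw [Nat.factorial_succ]; push_cast; ring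
  -- `(0.588 z0) ^ k ≤ k! * 2.72 ^ k * D ^ k`
  have hmain : (0.588 * z0) ^ k ≤ (k.factorial : ℝ) * (2.72 : ℝ) ^ k * D ^ k := by
    calc (0.588 * z0) ^ k ≤ (k * D) ^ k := hDk
      _ = (k : ℝ) ^ k * D ^ k := mul_pow _ _ _
      _ ≤ (k.factorial : ℝ) * (2.72 : ℝ) ^ k * D ^ k :=
          mul_le_mul_of_nonneg_right hexp (by positivity)
  have hre : lam * (((k + 1).factorial : ℝ) * (2 * D ^ k) / Zm ^ (k + 2))
      = lam * (((k + 1).factorial : ℝ) * (2 * D ^ k)) / Zm ^ (k + 2) := by ring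
  rw [hre, lt_div_iff₀ hZp, hfac]
  -- compare with `A := 2.72 ^ k`
  have hnum : (2 : ℝ) ^ k * (5 / 3) ^ k * (2.72 : ℝ) ^ k ≤ 16 ^ k * (0.588 : ℝ) ^ k := by
    rw [← mul_pow, ← mul_pow, ← mul_pow]
    apply pow_le_pow_left₀ (by norm_num)
    norm_num
  have hk1 : (1 : ℝ) ≤ k := by exact_mod_cast hk
  have hA : (0 : ℝ) < (2.72 : ℝ) ^ k := by positivity
  refine lt_of_mul_lt_mul_right ?_ hA.le
  calc 2 ^ k * (1 / 4) * Zm ^ (k + 2) * (2.72 : ℝ) ^ k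
      ≤ 2 ^ k * (1 / 4) * (5 / 3 * z0) ^ (k + 2) * (2.72 : ℝ) ^ k := by gcongr
    _ = (2 ^ k * (5 / 3) ^ k * (2.72 : ℝ) ^ k) * (25 / 36) * (z0 ^ k * z0 ^ 2) := by
        rw [mul_pow, pow_add, pow_add]; ring
    _ ≤ (16 ^ k * (0.588 : ℝ) ^ k) * (25 / 36) * (z0 ^ k * z0 ^ 2) := by gcongr
    _ < (16 ^ k * (0.588 : ℝ) ^ k) * (2 * (k + 1)) * (z0 ^ k * z0 ^ 2) := by
        have : (25 / 36 : ℝ) < 2 * (k + 1) := by linarith
        gcongr
    _ = (16 ^ k * z0 ^ 2) * ((k + 1) * (2 * (0.588 * z0) ^ k)) := by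
        rw [mul_pow]; ring
    _ ≤ lam * ((k + 1) * (2 * ((k.factorial : ℝ) * (2.72 : ℝ) ^ k * D ^ k))) := by gcongr
    _ = lam * ((k + 1) * (k.factorial : ℝ) * (2 * D ^ k)) * (2.72 : ℝ) ^ k := by ring

end Pool.Agent.Lib.MP_ed661f_ag.X
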