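import Mathlib

/-!
Part X: subset sums which are exponentially dense. Definitions.
-/

set_option autoImplicit false

open Polynomial

namespace Pool.Agent.Lib.MP_ed661f_ag.X

/-- the distance to the nearest integer -/
noncomputable def nrm (x : ℝ) : ℝ := |x - round x|

/-- the weight of the subset `E` of `S`, every element being chosen with probability `p` -/
noncomputable def wt (p : ℝ) (S E : Finset ℕ) : ℝ := p ^ E.card * (1 - p) ^ (S \ E).card

/-- the centred subset sum -/
noncomputable def cs (p : ℝ) (h : ℕ → ℝ) (S E : Finset ℕ) : ℝ := ∑ b ∈ E, h b - p * ∑ b ∈ S, h b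

/-- the variance -/
noncomputable def var (p : ℝ) (h : ℕ → ℝ) (S : Finset ℕ) : ℝ := p * (1 - p) * ∑ b ∈ S, h b ^ 2

/-- the real part of the characteristic function -/
noncomputable def rch (p : ℝ) (h : ℕ → ℝ) (S : Finset ℕ) (s : ℝ) : ℝ :=
  ∑ E ∈ S.powerset, wt p S E * Real.cos (2 * Real.pi * s * cs p h S E)

/-- the pairing of a polynomial with a sequence -/
noncomputable def pr {R : Type*} [CommRing R] (a : ℕ → R) (P : R[X]) : R :=
  P.sum fun i c => c * a i

/-- the difference of a sequence with step `H` -/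
def dh (H : ℕ) (a : ℕ → ℝ) : ℕ → ℝ := fun i => a i - a (i + H)

/-- the annihilating polynomial -/
noncomputable def AA (k H M : ℕ) : ℤ[X] :=
  (1 - X ^ H) ^ k * ∏ N ∈ Finset.Ico 2 M, (∑ i ∈ Finset.range N, X ^ i) ^ k

/-- the size of the sum of the squares -/
noncomputable def EE (z : ℕ) : ℕ := 3 * ⌈(z : ℝ) ^ (1 / 19 : ℝ)⌉₊ + 12

/-- the coefficients of `F` annihilate the sequence `a` on the window `[0, l)`, in all the steps
`h ≤ M` -/
def Ann {R : Type*} [CommRing R] (F : R[X]) (M l : ℕ) (a : ℕ → R) : Prop :=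
  ∀ h, 1 ≤ h → h ≤ M → ∀ i0, i0 + F.natDegree * h < l →
    ∑ i ∈ Finset.range (F.natDegree + 1), F.coeff i * a (i0 + h * i) = 0

end Pool.Agent.Lib.MP_ed661f_ag.X
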