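import Pool.Agent.Lib.MP_ed661f_ag.X.Moments
import Pool.Agent.Lib.MP_ed661f_ag.X.CharBd
import Pool.Agent.Lib.MP_ed661f_ag.X.Calc

/-! Subset sums close to a given point: the analytic criterion (task X5). -/

set_option autoImplicit false

namespace Pool.Agent.Lib.MP_ed661f_ag.X

/-- apply `calc_bound` with `K s = ∑ wt * (1 - cos (2 π s x)) / (4 π ^ 2 x ^ 2)`, `x = cs p h S E`,
`G s = ∑ wt * sin (2 π s x) / (2 π x)`, `R = rch`; if all `|x| ≥ δ` then `K ≤ 1 / (2 π ^ 2 δ ^ 2)` -/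
theorem exists_subset {p : ℝ} (h0 : 0 ≤ p) (h1 : p ≤ 1) {h : ℕ → ℝ} {S : Finset ℕ}
    (hh : ∀ b ∈ S, 0 ≤ h b) {σ l L E δ : ℝ} (hσ : 0 < σ) (hvar : var p h S = σ ^ 2)
    (hl : ∀ b ∈ S, l * h b ≤ 1 / 10) (h3 : 9 / (40 * σ) ≤ l) (h4 : l ≤ L)
    (hE : ∀ s, l ≤ s → s ≤ L → E ≤ ∑ b ∈ S, nrm (s * h b) ^ 2)
    (h5 : L * Real.exp (-(8 * p * (1 - p) * E)) ≤ 1 / (100 * σ)) (hδ : 0 < δ)
    (h6 : 1 / (2 * Real.pi ^ 2 * δ ^ 2) < (L - l) / (20 * σ)) :
    ∃ U ⊆ S, |∑ b ∈ U, h b - p * ∑ b ∈ S, h b| < δ := by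
  by_contra hcon
  push Not at hcon
  have hcs : ∀ U ∈ S.powerset, δ ≤ |cs p h S U| := fun U hU => hcon U (Finset.mem_powerset.1 hU)
  have hpi := Real.pi_pos
  have hx0 : ∀ U ∈ S.powerset, cs p h S U ≠ 0 := by
    intro U hU h0
    have := hcs U hU
    rw [h0, abs_zero] at this
    linarith
  have hlin : ∀ x s : ℝ, HasDerivAt (fun s : ℝ => 2 * Real.pi * s * x) (2 * Real.pi * x) s := by
    intro x s
    have h7 := ((hasDerivAt_id s).const_mul (2 * Real.pi)).mul_const x
    rw [mul_one] at h7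
    exact h7
  have hK : ∀ s, HasDerivAt (fun s => ∑ U ∈ S.powerset, wt p S U *
      ((1 - Real.cos (2 * Real.pi * s * cs p h S U)) / (4 * Real.pi ^ 2 * cs p h S U ^ 2)))
      (∑ U ∈ S.powerset, wt p S U *
        (Real.sin (2 * Real.pi * s * cs p h S U) / (2 * Real.pi * cs p h S U))) s := by
    intro s
    refine HasDerivAt.fun_sum fun U hU => ?_
    have hx := hx0 U hU
    have h7 := (((hlin (cs p h S U) s).cos.const_sub 1).div_const
      (4 * Real.pi ^ 2 * cs p h S U ^ 2)).const_mul (wt p S U)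
    refine h7.congr_deriv ?_
    field_simp
    ring
  have hG : ∀ s, HasDerivAt (fun s => ∑ U ∈ S.powerset, wt p S U *
      (Real.sin (2 * Real.pi * s * cs p h S U) / (2 * Real.pi * cs p h S U))) (rch p h S s) s := by
    intro s
    unfold rch
    refine HasDerivAt.fun_sum fun U hU => ?_
    have hx := hx0 U hU
    have h7 := ((hlin (cs p h S U) s).sin.div_const (2 * Real.pi * cs p h S U)).const_mul
      (wt p S U)
    refine h7.congr_deriv ?_
    field_simp
  have hl0 : 0 < l := lt_of_lt_of_le (by positivity) h3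
  have key := calc_bound (η := Real.exp (-(8 * p * (1 - p) * E))) hσ hK hG (by simp) ?_ h3 h4 ?_ ?_
    (Real.exp_pos _).le ?_ ?_
  · have h7 : ∑ U ∈ S.powerset, wt p S U *
      ((1 - Real.cos (2 * Real.pi * L * cs p h S U)) / (4 * Real.pi ^ 2 * cs p h S U ^ 2)) ≤
        ∑ U ∈ S.powerset, wt p S U * (1 / (2 * Real.pi ^ 2 * δ ^ 2)) := by
      refine Finset.sum_le_sum fun U hU => mul_le_mul_of_nonneg_left ?_ (wt_nonneg h0 h1 S U)
      have h8 : δ ^ 2 ≤ cs p h S U ^ 2 := by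
        rw [← sq_abs (cs p h S U)]
        exact pow_le_pow_left₀ hδ.le (hcs U hU) 2
      have h9 : 1 - Real.cos (2 * Real.pi * L * cs p h S U) ≤ 2 := by
        linarith [Real.neg_one_le_cos (2 * Real.pi * L * cs p h S U)]
      calc (1 - Real.cos (2 * Real.pi * L * cs p h S U)) / (4 * Real.pi ^ 2 * cs p h S U ^ 2)
          ≤ 2 / (4 * Real.pi ^ 2 * δ ^ 2) := by
            refine div_le_div₀ (by norm_num) h9 (by positivity) ?_
            exact mul_le_mul_of_nonneg_left h8 (by positivity)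
        _ = 1 / (2 * Real.pi ^ 2 * δ ^ 2) := by
            field_simp
            norm_num
    rw [← Finset.sum_mul, sum_wt, one_mul] at h7
    linarith
  · intro s
    refine Finset.sum_nonneg fun U _ => mul_nonneg (wt_nonneg h0 h1 S U) (div_nonneg ?_ (by positivity))
    linarith [Real.cos_le_one (2 * Real.pi * s * cs p h S U)]
  · intro s
    have h7 := rch_ge h0 h1 h S s
    rw [hvar] at h7
    exact h7
  · intro s hs hsl
    have h7 := rch_ge_near h0 h1 h S hs hh (fun b hb =>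
      (mul_le_mul_of_nonneg_right hsl (hh b hb)).trans (hl b hb))
    rw [hvar] at h7
    exact h7
  · intro s hs hsL
    refine le_trans ?_ (rch_ge_far h0 h1 h S s)
    apply neg_le_neg
    apply Real.exp_le_exp.2
    apply neg_le_neg
    refine mul_le_mul_of_nonneg_left (hE s hs hsL) ?_
    have : 0 ≤ 1 - p := by linarith
    positivity
  · rw [mul_comm]
    exact h5

end Pool.Agent.Lib.MP_ed661f_ag.X
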