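import Pool.Agent.Lib.MP_ed661f_ag.X.Defs
import Pool.Agent.Lib.MP_ed661f_ag.G.Diff

/-! Lower bounds for the iterated differences (task X17). -/

set_option autoImplicit false

namespace Pool.Agent.Lib.MP_ed661f_ag.X

open Pool.Agent.Lib.MP_ed661f_ag.G

/-- the iterated difference as a value of `dl` -/
theorem X17_dh_eq {z D : ℝ} (hz : 0 < z) (hD : 0 ≤ D) (H k : ℕ) : ∀ l : ℕ,
    ((dh H)^[k] fun i => gz (z + D * i)) l =
      -dl (List.replicate k (D * H) ++ [1, 2]) Real.log (z + D * l + 1) := by
  induction k with
  | zero =>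
    intro l
    simp only [Function.iterate_zero, id_eq, List.replicate_zero, List.nil_append]
    exact gz_eq (by positivity)
  | succ k ih =>
    intro l
    rw [Function.iterate_succ_apply']
    unfold dh
    rw [show (fun a : ℕ → ℝ => fun i => a i - a (i + H)) = dh H from rfl, ih, ih,
      List.replicate_succ, List.cons_append]
    simp only [dl]
    have h2 : z + D * ((l + H : ℕ) : ℝ) + 1 = z + D * l + 1 + D * H := by
      push_cast
      ring
    rw [h2]
    ring

/-- the iterated difference is `-dl (replicate k (D * H) ++ [1, 2]) log (z + D * l + 1)`, then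
`G.dl_log_bounds` -/
theorem dh_gz_lower {z D : ℝ} (hz : 0 < z) (hD : 0 ≤ D) (H : ℕ) {k : ℕ} (hk : 1 ≤ k) (l : ℕ) :
    ((k + 1).factorial : ℝ) * (2 * (D * H) ^ k) / (z + D * l + k * (D * H) + 4) ^ (k + 2) ≤
      ((dh H)^[k] fun i => gz (z + D * i)) l := by
  obtain ⟨m, rfl⟩ : ∃ m, k = m + 1 := ⟨k - 1, by omega⟩
  rw [X17_dh_eq hz hD, List.replicate_succ, List.cons_append]
  have hDH : 0 ≤ D * H := by positivity
  have h := (dl_log_bounds (t := D * H) (hs := List.replicate m (D * H) ++ [1, 2]) hDH
    (by
      intro t ht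
      rw [List.mem_append] at ht
      rcases ht with ht | ht
      · rw [List.eq_of_mem_replicate ht]
        exact hDH
      · simp only [List.mem_cons, List.not_mem_nil, or_false] at ht
        rcases ht with rfl | rfl <;> norm_num) (z := z + D * l + 1) (by positivity)).1
  have hlen : (List.replicate m (D * H) ++ [1, 2]).length = m + 2 := by simp
  have hprod : (D * H :: (List.replicate m (D * H) ++ [1, 2])).prod = 2 * (D * H) ^ (m + 1) := by
    rw [List.prod_cons, List.prod_append, List.prod_replicate, pow_succ]
    simp only [List.prod_cons, List.prod_nil]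
    ring
  have hsum : z + D * l + 1 + (D * H :: (List.replicate m (D * H) ++ [1, 2])).sum =
      z + D * l + ((m + 1 : ℕ) : ℝ) * (D * H) + 4 := by
    rw [List.sum_cons, List.sum_append, List.sum_replicate, nsmul_eq_mul]
    simp only [List.sum_cons, List.sum_nil]
    push_cast
    ring
  rw [hlen, hprod, hsum] at h
  exact h

end Pool.Agent.Lib.MP_ed661f_ag.X
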