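import Pool.Agent.Lib.MP_ed661f_ag.X.Pair

/-! The annihilator of a window is an ideal (task X12). -/

set_option autoImplicit false

open Polynomial

namespace Pool.Agent.Lib.MP_ed661f_ag.X

theorem Ideal_key {F : ℂ[X]} {a : ℕ → ℂ} {M l : ℕ} (hrel : Ann F M l a) {h : ℕ} (h1 : 1 ≤ h)
    (hhM : h ≤ M) (V : ℂ[X]) (hV : V.natDegree + F.natDegree * h < l) :
    pr a (V * F.comp (X ^ h)) = 0 := by
  have hVs := V.as_sum_range
  rw [hVs, Finset.sum_mul, pr_sum]
  refine Finset.sum_eq_zero fun m hm => ?_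
  rw [Finset.mem_range] at hm
  rw [pr_monomial_mul, pr_comp _ _ h1]
  have h2 := hrel h h1 hhM m (by omega)
  have h3 : ∑ i ∈ Finset.range (F.natDegree + 1), F.coeff i * a (h * i + m) =
      ∑ i ∈ Finset.range (F.natDegree + 1), F.coeff i * a (m + h * i) := by
    refine Finset.sum_congr rfl fun i _ => ?_
    rw [add_comm m]
  rw [h3, h2, mul_zero]

/-- `A = ∑ V_h F(X ^ h)`; divide `V_h` by `F`: `A = ∑ V_h' F(X ^ h) + Y F` with
`deg V_h' < deg F`, so that every `V_h' F(X ^ h)` has degree less than `M ^ 2` and the degree of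
`Y F` is less than `l` -/
theorem pr_eq_zero_of_mem {F : ℂ[X]} (hF : F ≠ 0) {a : ℕ → ℂ} {M l : ℕ} (hM : F.natDegree < M)
    (hl : M ^ 2 + M ≤ l) (hrel : Ann F M l a) {A : ℂ[X]} (hA : A.natDegree < l)
    (hmem : A ∈ Ideal.span ((fun h : ℕ => F.comp (X ^ h)) '' Set.Icc 1 M)) : pr a A = 0 := by
  have hM1 : 1 ≤ M := by omega
  obtain ⟨V, hV⟩ : ∃ V : ℕ → ℂ[X], ∑ h ∈ Finset.Icc 1 M, V h * F.comp (X ^ h) = A := by
    rw [← Finset.coe_Icc] at hmem
    obtain ⟨V, hV⟩ := (Submodule.mem_span_image_finset_iff_exists_fun' ℂ[X]).1 hmem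
    exact ⟨V, by simpa only [smul_eq_mul] using hV⟩
  set B : ℂ[X] := ∑ h ∈ Finset.Icc 1 M, V h % F * F.comp (X ^ h) with hB
  set Y : ℂ[X] := ∑ h ∈ Finset.Icc 1 M, V h / F * F.comp (X ^ h) with hY
  have hAB : A = B + Y * F := by
    rw [← hV, hB, hY, Finset.sum_mul, ← Finset.sum_add_distrib]
    refine Finset.sum_congr rfl fun h _ => ?_
    have h1 := EuclideanDomain.div_add_mod (V h) F
    calc V h * F.comp (X ^ h) = (F * (V h / F) + V h % F) * F.comp (X ^ h) := by rw [h1]
      _ = _ := by ring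
  have hdeg : ∀ h ∈ Finset.Icc 1 M, (V h % F).natDegree + F.natDegree * h < M ^ 2 := by
    intro h hh
    rw [Finset.mem_Icc] at hh
    have h1 : (V h % F).natDegree ≤ F.natDegree :=
      Polynomial.natDegree_le_natDegree (Polynomial.degree_mod_lt (V h) hF).le
    have h2 : F.natDegree * h ≤ F.natDegree * M := Nat.mul_le_mul_left _ hh.2
    obtain ⟨d, rfl⟩ : ∃ d, M = F.natDegree + 1 + d := ⟨M - (F.natDegree + 1), by omega⟩
    nlinarith
  have hprB : pr a B = 0 := by
    rw [hB, pr_sum]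
    refine Finset.sum_eq_zero fun h hh => ?_
    have h1 := hdeg h hh
    rw [Finset.mem_Icc] at hh
    exact Ideal_key hrel hh.1 hh.2 _ (by omega)
  have hBdeg : B.natDegree < l := by
    have h1 : B.natDegree ≤ M ^ 2 := by
      refine Polynomial.natDegree_sum_le_of_forall_le _ _ fun h hh => ?_
      refine Polynomial.natDegree_mul_le.trans ?_
      rw [Polynomial.natDegree_comp, Polynomial.natDegree_X_pow]
      exact (hdeg h hh).le
    omega
  have hprY : pr a (Y * F) = 0 := by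
    by_cases hY0 : Y = 0
    · rw [hY0, zero_mul, pr_zero]
    · have h1 : (Y * F).natDegree < l := by
        have h2 : Y * F = A - B := by rw [hAB]; ring
        rw [h2]
        exact lt_of_le_of_lt (Polynomial.natDegree_sub_le _ _) (max_lt hA hBdeg)
      rw [Polynomial.natDegree_mul hY0 hF] at h1
      have h3 := Ideal_key hrel le_rfl hM1 Y (by rw [mul_one]; exact h1)
      rw [pow_one, Polynomial.comp_X] at h3
      exact h3
  rw [hAB, pr_add, hprB, hprY, add_zero]

end Pool.Agent.Lib.MP_ed661f_ag.X
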