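import Pool.Agent.Lib.MP_ed661f_ag.X.Window
import Pool.Agent.Lib.MP_ed661f_ag.X.Pigeon

/-! Large multipliers (task X22). -/

set_option autoImplicit false

namespace Pool.Agent.Lib.MP_ed661f_ag.X

open Pool.Agent.Lib.MP_ed661f_ag.G

/-- otherwise `pigeon` with `h0 = 16 * M ^ 3 * E` gives a residue class `r`, and `window` with
`z = z0 + 4 * r`, `D = 4 * h0`, `l = nb / h0` gives a contradiction -/
theorem large {z0 nb M j K E : ℕ} {lam : ℝ} (hj : 3 ≤ j) (hM : M = j ^ 2 + j) (hK1 : 1 ≤ K)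
    (hK : 2 * (M : ℝ) ^ 2 ≤ Real.exp (9 / 5 * K / √(M : ℝ))) (hE : 1 ≤ E)
    (hbig : 1000 * K * M ^ 2 * (16 * M ^ 3 * E) ≤ z0) (h5 : 16 * z0 ≤ 10 * (z0 + 4 * nb))
    (h6 : 3 * (z0 + 4 * nb) ≤ 5 * z0)
    (hsm : 32 * lam * M ^ 2 * (4 * (16 * (M : ℝ) ^ 3 * E) * M ^ 2 / z0) ^ j ≤ 1)
    (hlam : 16 ^ K * (z0 : ℝ) ^ 2 ≤ lam) :
    (E : ℝ) ≤ ∑ b ∈ Finset.range nb, nrm (lam * gz (z0 + 4 * b)) ^ 2 := by
  by_contra hcon
  rw [not_le] at hcon
  have hM1 : 1 ≤ M := by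
    rw [hM]
    have : 0 < j ^ 2 := by positivity
    omega
  set h0 : ℕ := 16 * M ^ 3 * E with hh0
  have hM3 : 1 ≤ M ^ 3 := Nat.one_le_pow _ _ hM1
  have hM2 : 1 ≤ M ^ 2 := Nat.one_le_pow _ _ hM1
  have hh0pos : 0 < h0 := by positivity
  obtain ⟨r, hr, hsum⟩ := pigeon (a := fun b : ℕ => nrm (lam * gz (z0 + 4 * b)) ^ 2)
    (fun _ => sq_nonneg _) (h0 := h0) hh0pos hcon
  set l : ℕ := nb / h0 with hl
  set Q : ℕ := K * M ^ 2 with hQ
  have hQ1 : 1 ≤ Q := Nat.mul_pos hK1 hM2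
  have hbig' : 1000 * (Q * h0) ≤ z0 := by
    have : 1000 * K * M ^ 2 * h0 = 1000 * (Q * h0) := by rw [hQ]; ring
    rw [← this]
    exact hbig
  have hQh0 : h0 ≤ Q * h0 := Nat.le_mul_of_pos_left h0 hQ1
  have hMh0 : M ^ 2 * h0 ≤ Q * h0 := Nat.mul_le_mul_right h0 (Nat.le_mul_of_pos_left _ hK1)
  have hl1 : 100 * Q ≤ l := by
    rw [hl, Nat.le_div_iff_mul_le hh0pos]
    have : 100 * Q * h0 = 100 * (Q * h0) := by ring
    omega
  have hle : h0 * l ≤ nb := Nat.mul_div_le nb h0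
  have hlt : nb < h0 * l + h0 := by
    have := Nat.lt_mul_div_succ nb hh0pos
    rw [← hl] at this
    rw [mul_add, mul_one] at this
    exact this
  have hz0 : (0 : ℝ) < z0 := by
    have : 0 < z0 := by omega
    exact_mod_cast this
  have hE0 : (0 : ℝ) < E := by exact_mod_cast hE
  have hle' : (h0 : ℝ) * l ≤ nb := by exact_mod_cast hle
  have hlt' : (nb : ℝ) ≤ h0 * l + h0 := by exact_mod_cast hlt.le
  have hr' : (r : ℝ) + 1 ≤ h0 := by exact_mod_cast hr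
  have h5' : 16 * (z0 : ℝ) ≤ 10 * (z0 + 4 * nb) := by exact_mod_cast h5
  have h6' : 3 * ((z0 : ℝ) + 4 * nb) ≤ 5 * z0 := by exact_mod_cast h6
  have hh0' : (h0 : ℝ) = 16 * (M : ℝ) ^ 3 * E := by
    rw [hh0]
    push_cast
    ring
  have hr0 : (0 : ℝ) ≤ r := Nat.cast_nonneg r
  have hD0 : (0 : ℝ) < 4 * h0 := by
    have : (0 : ℝ) < h0 := by exact_mod_cast hh0pos
    linarith
  have hl' : 100 * K * M ^ 2 ≤ l := by
    have : 100 * K * M ^ 2 = 100 * Q := by rw [hQ]; ring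
    rw [this]
    exact hl1
  have key := window (j := j) (M := M) (K := K) (l := l) hj hM hK1 hK (z0 := (z0 : ℝ))
    (z := z0 + 4 * r) (D := 4 * h0) (lam := lam) hz0 (by linarith) hD0 hlam
    (by rw [hh0']; exact hsm)
    hl'
    (by
      have h7 : 8 * (M ^ 2 * h0) ≤ z0 := by omega
      have h8 : 8 * ((M : ℝ) ^ 2 * h0) ≤ z0 := by exact_mod_cast h7
      linarith)
    (by
      have : 4 * (h0 : ℝ) * ((l : ℝ) + 1) = 4 * (h0 * l) + 4 * h0 := by ring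
      rw [this]
      linarith)
    (by
      have : 4 * (h0 : ℝ) * ((l : ℝ) - 1) = 4 * (h0 * l) - 4 * h0 := by ring
      rw [this]
      linarith)
  have heq : ∑ i ∈ Finset.range l, nrm (lam * gz ((z0 : ℝ) + 4 * r + 4 * h0 * i)) ^ 2
      = ∑ i ∈ Finset.range l, nrm (lam * gz (z0 + 4 * ((r + h0 * i : ℕ) : ℝ))) ^ 2 := by
    refine Finset.sum_congr rfl fun i _ => ?_
    congr 4
    push_cast
    ring
  rw [heq] at key
  have hsum' : (h0 : ℝ) * ∑ i ∈ Finset.range l,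
      nrm (lam * gz (z0 + 4 * ((r + h0 * i : ℕ) : ℝ))) ^ 2 < E := hsum
  rw [hh0'] at hsum'
  have h7 : (E : ℝ) * (16 * (M : ℝ) ^ 3 * ∑ i ∈ Finset.range l,
      nrm (lam * gz (z0 + 4 * ((r + h0 * i : ℕ) : ℝ))) ^ 2) < E * 1 := by
    rw [mul_one]
    refine lt_of_eq_of_lt ?_ hsum'
    ring
  have h8 := lt_of_mul_lt_mul_left h7 hE0.le
  linarith

end Pool.Agent.Lib.MP_ed661f_ag.X
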