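import Pool.Agent.Lib.MP_ed661f_ag.X.PX
import Pool.Agent.Lib.MP_ed661f_ag.H.Main

/-! Multipoint Seshadri constants of surfaces with an exponentially small error (task X37). -/

set_option autoImplicit false

open scoped ENNReal

namespace Pool.Agent.Lib.MP_ed661f_ag.X

open Pool.Agent.Lib.MP_ed661f_ag.H

/-- like `H.surface_bound`, with `theoremPX` in place of `H.theoremP` -/
theorem surface_boundX : ∃ N0 : ℕ, 1 ≤ N0 ∧ ∀ (N : ℕ) (I : Ideal (Poly N)), IsSurface I →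
    ∀ n : ℕ, N0 * surfDeg I ≤ n →
      surfDeg I / n * ENNReal.ofReal (1 - Real.exp (-((n : ℝ) ^ (1 / 20 : ℝ)))) ≤
        eps I n ^ 2 := by
  obtain ⟨N0, hN0, hP⟩ := theoremPX
  refine ⟨N0, hN0, ?_⟩
  intro N I hI n hn
  obtain ⟨d, hd, hdI, ⟨ch⟩⟩ := exists_chart hI
  rw [hdI] at hn ⊢
  have hn' : N0 * d ≤ n := by exact_mod_cast hn
  have hn0 : 0 < n := lt_of_lt_of_le (by positivity) hn'
  obtain ⟨κ, s, hs, hsκ, hb, hS⟩ := hP d n hd hn' (∑ l, ch.a l)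
  obtain ⟨c, S, F, hrow, hF, hlead⟩ := exists_rows ch κ
  obtain ⟨q, hq, hsep⟩ := hS S hrow
  obtain ⟨v, hv, hv1, hvI, hjet⟩ := jetSep_of_monSep ch hs hF hlead hq hsep
  have h1 := le_eps_of_jetSep hs hsκ hI ch.hy0 hv hv1 hvI hjet
  have hκ : 0 < κ := by omega
  have h2 : (d : ℝ≥0∞) / n * ENNReal.ofReal (1 - Real.exp (-((n : ℝ) ^ (1 / 20 : ℝ)))) =
      ENNReal.ofReal (d / n * (1 - Real.exp (-((n : ℝ) ^ (1 / 20 : ℝ))))) := by
    rw [ENNReal.ofReal_mul (by positivity), ENNReal.ofReal_div_of_pos (by exact_mod_cast hn0),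
      ENNReal.ofReal_natCast, ENNReal.ofReal_natCast]
  have h3 : (s : ℝ≥0∞) / κ = ENNReal.ofReal (s / κ) := by
    rw [ENNReal.ofReal_div_of_pos (by exact_mod_cast hκ), ENNReal.ofReal_natCast,
      ENNReal.ofReal_natCast]
  rw [h2]
  refine le_trans ?_ (pow_le_pow_left₀ (by positivity) h1 2)
  rw [h3, ← ENNReal.ofReal_pow (by positivity)]
  refine ENNReal.ofReal_le_ofReal ?_
  exact (Real.sqrt_le_left (by positivity)).1 hb

end Pool.Agent.Lib.MP_ed661f_ag.X
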