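import Pool.Agent.Lib.MP_ed661f_ag.X.Defs

/-! Vanishing moments give a zero at `1` (task X7b). -/

set_option autoImplicit false

open Polynomial

namespace Pool.Agent.Lib.MP_ed661f_ag.X

/-- the vanishing of the moments gives a zero of order `j` at `1` -/
theorem dvd_of_moments {F : ℤ[X]} {j : ℕ}
    (h : ∀ l < j, ∑ i ∈ Finset.range (F.natDegree + 1), F.coeff i * (i : ℤ) ^ l = 0) :
    (X - 1) ^ j ∣ F := by
  have hp : ∀ q : ℤ[X], q.natDegree < j →
      ∑ i ∈ Finset.range (F.natDegree + 1), F.coeff i * q.eval (i : ℤ) = 0 := by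
    intro q hq
    simp only [Polynomial.eval_eq_sum_range, Finset.mul_sum]
    rw [Finset.sum_comm]
    refine Finset.sum_eq_zero fun l hl => ?_
    have h1 := h l (by have := Finset.mem_range.1 hl; omega)
    calc ∑ i ∈ Finset.range (F.natDegree + 1), F.coeff i * (q.coeff l * (i : ℤ) ^ l)
        = q.coeff l * ∑ i ∈ Finset.range (F.natDegree + 1), F.coeff i * (i : ℤ) ^ l := by
          rw [Finset.mul_sum]
          exact Finset.sum_congr rfl fun i _ => by ring
      _ = 0 := by rw [h1, mul_zero]
  have hc : ∀ l < j, (taylor 1 F).coeff l = 0 := by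
    intro l hl
    have h1 : ((l.factorial : ℤ)) * (taylor 1 F).coeff l = 0 := by
      rw [taylor_coeff, hasseDeriv_apply, sum_over_range _ (fun i => by simp), eval_finsetSum,
        Finset.mul_sum, ← hp (descPochhammer ℤ l) (by rw [descPochhammer_natDegree]; exact hl)]
      refine Finset.sum_congr rfl fun i _ => ?_
      rw [eval_monomial, one_pow, mul_one, descPochhammer_eval_eq_descFactorial,
        Nat.descFactorial_eq_factorial_mul_choose]
      push_cast
      ring
    exact (mul_eq_zero.1 h1).resolve_left (by exact_mod_cast Nat.factorial_ne_zero l)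
  obtain ⟨G, hG⟩ := X_pow_dvd_iff.2 hc
  refine ⟨taylor (-1) G, ?_⟩
  have h2 : F = taylor (-1) (taylor 1 F) := by
    rw [taylor_taylor]
    simp
  rw [h2, hG, taylor_mul, taylor_pow, taylor_X]
  simp [sub_eq_add_neg]

end Pool.Agent.Lib.MP_ed661f_ag.X
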