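import Pool.Agent.Lib.MP_ed661f_ag.X.Defs

/-! A zero at `1` annihilates the polynomials of small degree (task X7a). -/

set_option autoImplicit false

open Polynomial

namespace Pool.Agent.Lib.MP_ed661f_ag.X

/-- the shift -/
private noncomputable def Moment2_T : Module.End ℝ ℝ[X] := Polynomial.taylor (1 : ℝ)

private theorem Moment2_T_apply (P : ℝ[X]) : Moment2_T P = Polynomial.taylor (1 : ℝ) P := rfl

private theorem Moment2_T_pow (i : ℕ) (P : ℝ[X]) :
    (Moment2_T ^ i) P = Polynomial.taylor (i : ℝ) P := by
  induction i with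
  | zero => simp
  | succ i ih =>
    rw [pow_succ', Module.End.mul_apply, ih, Moment2_T_apply, taylor_taylor, Nat.cast_succ,
      add_comm (1 : ℝ)]

private theorem Moment2_lower (j : ℕ) :
    ∀ P : ℝ[X], P.natDegree < j → ((Moment2_T - 1) ^ j) P = 0 := by
  induction j with
  | zero => intro P hP; omega
  | succ j ih =>
    intro P hP
    rw [pow_succ, Module.End.mul_apply]
    have h1 : (Moment2_T - 1) P = taylor (1 : ℝ) P - P := rfl
    rw [h1]
    by_cases h0 : P.natDegree = 0
    · have h2 : taylor (1 : ℝ) P - P = 0 := by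
        rw [Polynomial.eq_C_of_natDegree_eq_zero h0]
        simp
      rw [h2, map_zero]
    · apply ih
      have hP0 : P ≠ 0 := by
        rintro rfl
        simp at h0
      have hT0 : taylor (1 : ℝ) P ≠ 0 := by
        intro h
        apply hP0
        apply taylor_injective (1 : ℝ)
        rw [h, map_zero]
      have h2 := Polynomial.degree_sub_lt_left (degree_taylor P 1) hT0 (leadingCoeff_taylor _ _)
      rw [degree_taylor] at h2
      by_cases h3 : taylor (1 : ℝ) P - P = 0
      · rw [h3, natDegree_zero]
        omega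
      · have h4 := Polynomial.natDegree_lt_natDegree h3 h2
        omega

/-- a zero of order `j` at `1` annihilates the polynomials of degree less than `j` -/
theorem sum_coeff_mul_eval {F : ℤ[X]} {j : ℕ} (hF : (X - 1) ^ j ∣ F) {P : ℝ[X]}
    (hP : P.natDegree < j) :
    ∑ i ∈ Finset.range (F.natDegree + 1), (F.coeff i : ℝ) * P.eval (i : ℝ) = 0 := by
  obtain ⟨G, hG⟩ := hF
  have h1 : (aeval Moment2_T F) P = 0 := by
    rw [hG, mul_comm, map_mul, Module.End.mul_apply, map_pow, map_sub, aeval_X, map_one,
      Moment2_lower j P hP, map_zero]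
  rw [aeval_eq_sum_range] at h1
  have h2 : ∑ i ∈ Finset.range (F.natDegree + 1), F.coeff i • ((Moment2_T ^ i) P) = 0 := by
    rw [← h1]
    simp
  have h3 := congrArg (fun Q : ℝ[X] => Q.eval 0) h2
  simp only [eval_finsetSum, eval_zero] at h3
  rw [← h3]
  refine Finset.sum_congr rfl fun i _ => ?_
  rw [Moment2_T_pow, zsmul_eq_mul, eval_mul, eval_intCast, taylor_eval, zero_add]

end Pool.Agent.Lib.MP_ed661f_ag.X
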