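import Pool.Agent.Lib.MP_ed661f_ag.X.Defs

/-! The first moments of the random subset sum (task X1). -/

set_option autoImplicit false

namespace Pool.Agent.Lib.MP_ed661f_ag.X

theorem wt_nonneg {p : ℝ} (h0 : 0 ≤ p) (h1 : p ≤ 1) (S E : Finset ℕ) : 0 ≤ wt p S E := by
  have : 0 ≤ 1 - p := by linarith
  unfold wt
  positivity

theorem X1_wt_insert_left {a : ℕ} {S E : Finset ℕ} (p : ℝ) (ha : a ∉ S) (hE : E ⊆ S) :
    wt p (insert a S) E = (1 - p) * wt p S E := by
  unfold wt
  have h1 : insert a S \ E = insert a (S \ E) := by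
    rw [Finset.insert_sdiff_of_notMem]
    exact fun h => ha (hE h)
  have h2 : a ∉ S \ E := fun h => ha (Finset.mem_sdiff.1 h).1
  rw [h1, Finset.card_insert_of_notMem h2]
  ring

theorem X1_wt_insert_right {a : ℕ} {S E : Finset ℕ} (p : ℝ) (ha : a ∉ S) (hE : E ⊆ S) :
    wt p (insert a S) (insert a E) = p * wt p S E := by
  unfold wt
  have h0 : a ∉ E := fun h => ha (hE h)
  have h1 : insert a S \ insert a E = S \ E := by
    ext x
    simp only [Finset.mem_sdiff, Finset.mem_insert, not_or]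
    constructor
    · rintro ⟨h2 | h2, h3, h4⟩
      · exact absurd h2 h3
      · exact ⟨h2, h4⟩
    · rintro ⟨h2, h3⟩
      exact ⟨Or.inr h2, fun h => ha (h ▸ h2), h3⟩
  rw [h1, Finset.card_insert_of_notMem h0]
  ring

theorem X1_sum_insert {a : ℕ} {S : Finset ℕ} (p : ℝ) (ha : a ∉ S) (f : Finset ℕ → ℝ) :
    ∑ E ∈ (insert a S).powerset, wt p (insert a S) E * f E =
      ∑ E ∈ S.powerset, wt p S E * ((1 - p) * f E + p * f (insert a E)) := by
  rw [Finset.sum_powerset_insert ha, ← Finset.sum_add_distrib]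
  apply Finset.sum_congr rfl
  intro E hE
  rw [Finset.mem_powerset] at hE
  rw [X1_wt_insert_left p ha hE, X1_wt_insert_right p ha hE]
  ring

theorem X1_cs_left {a : ℕ} {S : Finset ℕ} (p : ℝ) (h : ℕ → ℝ) (ha : a ∉ S) (E : Finset ℕ) :
    cs p h (insert a S) E = cs p h S E - p * h a := by
  unfold cs
  rw [Finset.sum_insert ha]
  ring

theorem X1_cs_right {a : ℕ} {S E : Finset ℕ} (p : ℝ) (h : ℕ → ℝ) (ha : a ∉ S) (hE : E ⊆ S) :
    cs p h (insert a S) (insert a E) = cs p h S E + (1 - p) * h a := by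
  unfold cs
  rw [Finset.sum_insert ha, Finset.sum_insert (fun h => ha (hE h))]
  ring

theorem sum_wt (p : ℝ) (S : Finset ℕ) : ∑ E ∈ S.powerset, wt p S E = 1 := by
  induction S using Finset.induction_on with
  | empty => simp [wt]
  | insert a S ha ih =>
    have h1 := X1_sum_insert p ha (fun _ => 1)
    simp only [mul_one] at h1
    rw [h1]
    simpa using ih

theorem sum_wt_mul_cs (p : ℝ) (h : ℕ → ℝ) (S : Finset ℕ) :
    ∑ E ∈ S.powerset, wt p S E * cs p h S E = 0 := by
  induction S using Finset.induction_on with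
  | empty => simp [cs]
  | insert a S ha ih =>
    rw [X1_sum_insert p ha, ← ih]
    apply Finset.sum_congr rfl
    intro E hE
    rw [Finset.mem_powerset] at hE
    rw [X1_cs_left p h ha, X1_cs_right p h ha hE]
    ring

theorem sum_wt_mul_cs_sq (p : ℝ) (h : ℕ → ℝ) (S : Finset ℕ) :
    ∑ E ∈ S.powerset, wt p S E * cs p h S E ^ 2 = var p h S := by
  induction S using Finset.induction_on with
  | empty => simp [cs, var]
  | insert a S ha ih =>
    have h1 : ∑ E ∈ S.powerset, wt p S E * ((1 - p) * cs p h (insert a S) E ^ 2 +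
        p * cs p h (insert a S) (insert a E) ^ 2) =
        ∑ E ∈ S.powerset, (wt p S E * cs p h S E ^ 2 + wt p S E * (p * (1 - p) * h a ^ 2)) := by
      apply Finset.sum_congr rfl
      intro E hE
      rw [Finset.mem_powerset] at hE
      rw [X1_cs_left p h ha, X1_cs_right p h ha hE]
      ring
    rw [X1_sum_insert p ha (fun E => cs p h (insert a S) E ^ 2), h1, Finset.sum_add_distrib, ih,
      ← Finset.sum_mul, sum_wt]
    unfold var
    rw [Finset.sum_insert ha]
    ring

theorem rch_ge {p : ℝ} (h0 : 0 ≤ p) (h1 : p ≤ 1) (h : ℕ → ℝ) (S : Finset ℕ) (s : ℝ) :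
    1 - 2 * Real.pi ^ 2 * var p h S * s ^ 2 ≤ rch p h S s := by
  have e1 : 1 - 2 * Real.pi ^ 2 * var p h S * s ^ 2 =
      ∑ E ∈ S.powerset, wt p S E * (1 - (2 * Real.pi * s * cs p h S E) ^ 2 / 2) := by
    have e2 : ∀ E ∈ S.powerset, wt p S E * (1 - (2 * Real.pi * s * cs p h S E) ^ 2 / 2) =
        wt p S E - 2 * Real.pi ^ 2 * s ^ 2 * (wt p S E * cs p h S E ^ 2) := by
      intro E _
      ring
    rw [Finset.sum_congr rfl e2, Finset.sum_sub_distrib, ← Finset.mul_sum, sum_wt,
      sum_wt_mul_cs_sq]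
    ring
  rw [e1]
  unfold rch
  apply Finset.sum_le_sum
  intro E _
  exact mul_le_mul_of_nonneg_left (Real.one_sub_sq_div_two_le_cos) (wt_nonneg h0 h1 S E)

end Pool.Agent.Lib.MP_ed661f_ag.X
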