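import Pool.Agent.Lib.MP_ed661f_ag.X.ChainX
import Pool.Agent.Lib.MP_ed661f_ag.H.PFinal

/-! The polynomial half with an exponentially small error (task X36). -/

set_option autoImplicit false

open Polynomial

namespace Pool.Agent.Lib.MP_ed661f_ag.X

open Pool.Agent.Lib.MP_ed661f_ag.H

/-- `chainX` and `H.monSep_of_rch`, like `H.theoremP` and `H.final_ineq` -/
theorem theoremPX : ∃ N0 : ℕ, 1 ≤ N0 ∧ ∀ δ n : ℕ, 1 ≤ δ → N0 * δ ≤ n → ∀ C : ℕ,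
    ∃ κ s : ℕ, 1 ≤ s ∧ s ≤ κ ∧
      √(δ / n * (1 - Real.exp (-((n : ℝ) ^ (1 / 20 : ℝ))))) ≤ s / κ ∧
      ∀ S : Finset (ℕ × ℕ), (∀ b ≤ κ, δ * (κ - b) ≤ (S.filter fun s => s.2 = b).card + C) →
        ∃ q : Fin n → ℂ × ℂ, Function.Injective q ∧ MonSep S q s := by
  obtain ⟨N0, hN0, hch⟩ := chainX
  have hN1 : 1 ≤ N0 := le_trans (Nat.one_le_two_pow) hN0
  refine ⟨N0, hN1, ?_⟩
  intro δ n hδ hn C
  obtain ⟨σ, x, h, hx, hx2⟩ := hch n δ hδ hn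
  have h2 : δ ≤ n := le_trans (Nat.le_mul_of_pos_left δ (by omega)) hn
  have hδR : (1 : ℝ) ≤ δ := by exact_mod_cast hδ
  have hnR : (δ : ℝ) ≤ n := by exact_mod_cast h2
  have hnpos : (0 : ℝ) < n := by linarith
  have hx0 : 0 < x := lt_of_lt_of_le (Real.sqrt_pos.2 hnpos) hx
  refine monSep_of_rch h hδ hx h2 C ?_
  rw [Real.sqrt_lt' (by positivity), div_pow, Real.sq_sqrt (by linarith), div_mul_eq_mul_div,
    div_lt_div_iff₀ hnpos (by positivity), mul_assoc]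
  refine mul_lt_mul_of_pos_left ?_ (by linarith)
  linarith

end Pool.Agent.Lib.MP_ed661f_ag.X
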