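import Pool.Agent.Lib.MP_ed661f_ag.X.Defs

/-! The pairing of a polynomial with a sequence (task X6). -/

set_option autoImplicit false

open Polynomial

namespace Pool.Agent.Lib.MP_ed661f_ag.X

section
variable {R : Type*} [CommRing R]

theorem pr_zero (a : ℕ → R) : pr a 0 = 0 := by
  unfold pr
  exact Polynomial.sum_zero_index _

theorem pr_add (a : ℕ → R) (P Q : R[X]) : pr a (P + Q) = pr a P + pr a Q := by
  unfold pr
  exact Polynomial.sum_add_index P Q _ (fun i => zero_mul _) (fun i b c => add_mul _ _ _)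

theorem pr_eq_sum_range {a : ℕ → R} {P : R[X]} {n : ℕ} (h : P.natDegree < n) :
    pr a P = ∑ i ∈ Finset.range n, P.coeff i * a i := by
  unfold pr
  exact Polynomial.sum_over_range' P (f := fun i c => c * a i) (fun i => zero_mul _) n h

theorem pr_neg' (a : ℕ → R) (P : R[X]) : pr a (-P) = -pr a P := by
  have h := pr_add a P (-P)
  rw [add_neg_cancel, pr_zero] at h
  exact (neg_eq_of_add_eq_zero_right h.symm).symm

theorem pr_sub (a : ℕ → R) (P Q : R[X]) : pr a (P - Q) = pr a P - pr a Q := by
  rw [sub_eq_add_neg, pr_add, pr_neg', sub_eq_add_neg]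

theorem pr_sum (a : ℕ → R) {ι : Type*} (s : Finset ι) (P : ι → R[X]) :
    pr a (∑ i ∈ s, P i) = ∑ i ∈ s, pr a (P i) := by
  classical
  induction s using Finset.induction_on with
  | empty => simp [pr_zero]
  | insert i s hi ih => rw [Finset.sum_insert hi, Finset.sum_insert hi, pr_add, ih]

theorem pr_monomial' (a : ℕ → R) (m : ℕ) (c : R) : pr a (monomial m c) = c * a m := by
  unfold pr
  exact Polynomial.sum_monomial_index c _ (zero_mul _)

theorem pr_monomial_mul (a : ℕ → R) (m : ℕ) (c : R) (P : R[X]) :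
    pr a (monomial m c * P) = c * pr (fun i => a (i + m)) P := by
  induction P using Polynomial.induction_on' with
  | add P Q hP hQ => rw [mul_add, pr_add, hP, hQ, pr_add, mul_add]
  | monomial n r =>
    rw [monomial_mul_monomial, pr_monomial', pr_monomial', add_comm m n, mul_assoc]

theorem pr_add_seq (a b : ℕ → R) (P : R[X]) : pr (fun i => a i + b i) P = pr a P + pr b P := by
  rw [pr_eq_sum_range (Nat.lt_succ_self _), pr_eq_sum_range (Nat.lt_succ_self _),
    pr_eq_sum_range (Nat.lt_succ_self _), ← Finset.sum_add_distrib]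
  exact Finset.sum_congr rfl fun i _ => mul_add _ _ _

theorem pr_mul_seq (c : R) (a : ℕ → R) (P : R[X]) : pr (fun i => c * a i) P = c * pr a P := by
  rw [pr_eq_sum_range (Nat.lt_succ_self _), pr_eq_sum_range (Nat.lt_succ_self _), Finset.mul_sum]
  exact Finset.sum_congr rfl fun i _ => mul_left_comm _ _ _

/-- the pairing with the dilated polynomial -/
theorem pr_comp (a : ℕ → R) (P : R[X]) {h : ℕ} (hh : 1 ≤ h) :
    pr a (P.comp (X ^ h)) = ∑ i ∈ Finset.range (P.natDegree + 1), P.coeff i * a (h * i) := by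
  have _ := hh
  have h1 : P.comp (X ^ h) =
      ∑ i ∈ Finset.range (P.natDegree + 1), monomial (h * i) (P.coeff i) := by
    rw [Polynomial.comp, Polynomial.eval₂_eq_sum_range]
    refine Finset.sum_congr rfl fun i _ => ?_
    rw [← pow_mul, C_mul_X_pow_eq_monomial]
  rw [h1, pr_sum]
  exact Finset.sum_congr rfl fun i _ => pr_monomial' a _ _

theorem pr_map {S : Type*} [CommRing S] (f : R →+* S) (a : ℕ → R) (P : R[X]) :
    pr (fun i => f (a i)) (P.map f) = f (pr a P) := by
  induction P using Polynomial.induction_on' with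
  | add P Q hP hQ => rw [Polynomial.map_add, pr_add, hP, hQ, pr_add, map_add]
  | monomial n r => rw [Polynomial.map_monomial, pr_monomial', pr_monomial', map_mul]

end

theorem pr_one_sub_mul (a : ℕ → ℝ) (H : ℕ) (P : ℝ[X]) :
    pr a ((1 - X ^ H) * P) = pr (dh H a) P := by
  rw [sub_mul, one_mul, pr_sub, X_pow_eq_monomial, pr_monomial_mul, one_mul]
  have h := pr_add_seq (dh H a) (fun i => a (i + H)) P
  have h1 : (fun i => dh H a i + (fun i => a (i + H)) i) = a := by
    funext i
    simp [dh]
  rw [h1] at h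
  rw [h, add_sub_cancel_right]

theorem pr_one_sub_pow_mul (a : ℕ → ℝ) (H k : ℕ) (P : ℝ[X]) :
    pr a ((1 - X ^ H) ^ k * P) = pr ((dh H)^[k] a) P := by
  induction k generalizing a with
  | zero => simp
  | succ k ih =>
    rw [pow_succ', mul_assoc, pr_one_sub_mul, ih, Function.iterate_succ_apply]

end Pool.Agent.Lib.MP_ed661f_ag.X
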