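import Pool.Agent.Lib.MP_ed661f_ag.X.Defs

/-! Choice of the parameters for large multipliers (task X25).

Notation: `y = z ^ (1 / 19)`, `t = log z`, `u = log lam / t`, so that `9 / 4 ≤ u ≤ y / t`;
`j = ⌈5 / 2 * u⌉₊ + 1`, `M = j ^ 2 + j`, `K = ⌈√M * (5 / 9) * log (2 * M ^ 2)⌉₊ + 1`. -/

set_option autoImplicit false

namespace Pool.Agent.Lib.MP_ed661f_ag.X

/-- `j ≤ z ^ (1 / 19)`, `M ≤ (j + 1) ^ 2`, and all the polynomial factors are small -/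
theorem par_size : ∃ Z0 : ℕ, ∀ z : ℕ, Z0 ≤ z → ∀ j : ℕ, 3 ≤ j →
    (j : ℝ) ≤ (z : ℝ) ^ (1 / 19 : ℝ) * (4 / Real.log z) →
    ∀ M K : ℕ, M = j ^ 2 + j → (K : ℝ) ≤ (j + 1) * Real.log (z : ℝ) →
    1000 * K * M ^ 2 * (16 * M ^ 3 * EE z) ≤ z ∧
      4 * (16 * (M : ℝ) ^ 3 * EE z) * M ^ 2 / z ≤ (z : ℝ) ^ (-(2 / 5 : ℝ)) ∧
      32 * (M : ℝ) ^ 2 ≤ (z : ℝ) ^ (2 / 5 : ℝ) := by
  refine ⟨(10 ^ 42) ^ 19, fun z hz j hj hjy M K hM hK => ?_⟩
  have hz0 : ((10 : ℝ) ^ 42) ^ 19 ≤ (z : ℝ) := by exact_mod_cast hz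
  have hz1 : (3 : ℝ) ≤ z := by
    refine le_trans ?_ hz0
    calc (3 : ℝ) ≤ 10 ^ 42 := by norm_num
      _ ≤ ((10 : ℝ) ^ 42) ^ 19 := le_self_pow₀ (by norm_num) (by norm_num)
  have hzp : (0 : ℝ) < z := by linarith
  set y : ℝ := (z : ℝ) ^ (1 / 19 : ℝ) with hy
  have hyp : 0 < y := Real.rpow_pos_of_pos hzp _
  have hy19 : y ^ 19 = z := by
    rw [hy, ← Real.rpow_natCast, ← Real.rpow_mul hzp.le]
    norm_num
  have hyC : (10 : ℝ) ^ 42 ≤ y := by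
    refine le_of_pow_le_pow_left₀ (n := 19) (by norm_num) hyp.le ?_
    rw [hy19]
    exact hz0
  have hy1 : (1 : ℝ) ≤ y := le_trans (by norm_num) hyC
  have hL : 1 ≤ Real.log z := by
    rw [Real.le_log_iff_exp_le hzp]
    have := Real.exp_one_lt_d9
    linarith
  have hLp : 0 < Real.log z := by linarith
  have hj1 : (1 : ℝ) ≤ j := by
    have : 1 ≤ j := by omega
    exact_mod_cast this
  have hjL : (j : ℝ) * Real.log z ≤ 4 * y := by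
    have h := mul_le_mul_of_nonneg_right hjy hLp.le
    have e : y * (4 / Real.log z) * Real.log z = 4 * y := by
      field_simp
    linarith
  have hj4 : (j : ℝ) ≤ 4 * y := by nlinarith
  have hMr : (M : ℝ) ≤ 32 * y ^ 2 := by
    rw [hM]
    push_cast
    nlinarith
  have hM0 : (0 : ℝ) ≤ M := Nat.cast_nonneg _
  have hK8 : (K : ℝ) ≤ 8 * y := by
    have h : ((j : ℝ) + 1) * Real.log z ≤ 2 * (j * Real.log z) := by nlinarith
    linarith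
  have hK0 : (0 : ℝ) ≤ K := Nat.cast_nonneg _
  have hE : (EE z : ℝ) ≤ 18 * y := by
    unfold EE
    push_cast
    have h := Nat.ceil_lt_add_one hyp.le
    rw [hy] at h hy1 ⊢
    linarith
  have hE0 : (0 : ℝ) ≤ EE z := Nat.cast_nonneg _
  have hy12 : 0 < y ^ 12 := by positivity
  refine ⟨?_, ?_, ?_⟩
  · have h1 : 1000 * (K : ℝ) * M ^ 2 * (16 * M ^ 3 * EE z) ≤ z := by
      calc 1000 * (K : ℝ) * M ^ 2 * (16 * M ^ 3 * EE z)
          ≤ 1000 * (8 * y) * (32 * y ^ 2) ^ 2 * (16 * (32 * y ^ 2) ^ 3 * (18 * y)) := by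
            gcongr
        _ = (1000 * 8 * 32 ^ 2 * 16 * 32 ^ 3 * 18) * y ^ 12 := by ring
        _ ≤ y ^ 7 * y ^ 12 := by
            apply mul_le_mul_of_nonneg_right _ hy12.le
            calc ((1000 * 8 * 32 ^ 2 * 16 * 32 ^ 3 * 18 : ℝ)) ≤ 10 ^ 42 := by norm_num
              _ ≤ y := hyC
              _ ≤ y ^ 7 := le_self_pow₀ hy1 (by norm_num)
        _ = y ^ 19 := by ring
        _ = z := hy19
    exact_mod_cast h1
  · have e1 : (z : ℝ) ^ (-(2 / 5 : ℝ)) = y ^ (2 / 5 : ℝ) * y ^ 11 / z := by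
      have e2 : (z : ℝ) ^ (-(2 / 5 : ℝ)) = y ^ (-(38 / 5) : ℝ) := by
        rw [hy, ← Real.rpow_mul hzp.le]
        norm_num
      rw [e2, ← hy19, eq_div_iff (by positivity), ← Real.rpow_natCast, ← Real.rpow_natCast,
        ← Real.rpow_add hyp, ← Real.rpow_add hyp]
      norm_num
    rw [e1]
    apply div_le_div_of_nonneg_right _ hzp.le
    have h25 : (64 * 32 ^ 5 * 18 : ℝ) ≤ y ^ (2 / 5 : ℝ) := by
      have h1 : ((10 : ℝ) ^ 42) ^ (2 / 5 : ℝ) ≤ y ^ (2 / 5 : ℝ) :=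
        Real.rpow_le_rpow (by norm_num) hyC (by norm_num)
      refine le_trans ?_ h1
      have h3 : ((10 : ℝ) ^ 42) = (10 : ℝ) ^ (42 : ℝ) := by
        rw [show (42 : ℝ) = ((42 : ℕ) : ℝ) by norm_num, Real.rpow_natCast]
      rw [h3, ← Real.rpow_mul (by norm_num)]
      have h2 : (10 : ℝ) ^ (16 : ℝ) ≤ (10 : ℝ) ^ ((42 : ℝ) * (2 / 5)) :=
        Real.rpow_le_rpow_of_exponent_le (by norm_num) (by norm_num)
      refine le_trans ?_ h2
      rw [show (16 : ℝ) = ((16 : ℕ) : ℝ) by norm_num, Real.rpow_natCast]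
      norm_num
    calc 4 * (16 * (M : ℝ) ^ 3 * EE z) * M ^ 2
        ≤ 4 * (16 * (32 * y ^ 2) ^ 3 * (18 * y)) * (32 * y ^ 2) ^ 2 := by gcongr
      _ = (64 * 32 ^ 5 * 18) * y ^ 11 := by ring
      _ ≤ y ^ (2 / 5 : ℝ) * y ^ 11 := mul_le_mul_of_nonneg_right h25 (by positivity)
  · have e2 : (z : ℝ) ^ (2 / 5 : ℝ) = y ^ (38 / 5 : ℝ) := by
      rw [hy, ← Real.rpow_mul hzp.le]
      norm_num
    rw [e2]
    have h5 : y ^ 5 ≤ y ^ (38 / 5 : ℝ) := by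
      rw [← Real.rpow_natCast]
      exact Real.rpow_le_rpow_of_exponent_le hy1 (by norm_num)
    calc 32 * (M : ℝ) ^ 2 ≤ 32 * (32 * y ^ 2) ^ 2 := by gcongr
      _ = 32768 * y ^ 4 := by ring
      _ ≤ y * y ^ 4 := mul_le_mul_of_nonneg_right (le_trans (by norm_num) hyC) (by positivity)
      _ = y ^ 5 := by ring
      _ ≤ _ := h5

end Pool.Agent.Lib.MP_ed661f_ag.X
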