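import Pool.Agent.Lib.MP_ed661f_ag.X.Taylor

/-! The integers nearest to the multiples satisfy linear relations (task X11). -/

set_option autoImplicit false

open Polynomial

namespace Pool.Agent.Lib.MP_ed661f_ag.X

open Pool.Agent.Lib.MP_ed661f_ag.G

/-- `∑ F_i ν(i0 + h i)` is an integer of absolute value at most
`lam * 8 M ^ 2 q ^ j + M * √M * √(∑ ε ^ 2) ≤ 1 / 4 + 1 / 4`, `q = D M ^ 2 / z` -/
theorem ann_of_small {F : ℤ[X]} {j M l : ℕ} (hj : 1 ≤ j) (hM : F.natDegree < M)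
    (hB : ∀ i, |F.coeff i| ≤ (M : ℤ)) (hF : (X - 1) ^ j ∣ F) (ν : ℕ → ℤ) {z D lam : ℝ}
    (hz : 0 < z) (hD : 0 ≤ D) (hlam : 0 ≤ lam) (hq : 2 * (D * M ^ 2) ≤ z)
    (hsm : 32 * lam * M ^ 2 * (D * M ^ 2 / z) ^ j ≤ 1)
    (he : 16 * (M : ℝ) ^ 3 * ∑ i ∈ Finset.range l, (lam * gz (z + D * i) - ν i) ^ 2 ≤ 1) :
    Ann F M l ν := by
  intro h hh1 hhM i0 hi0
  have hMpos : (0 : ℝ) < M := by
    have : 0 < M := by omega
    exact_mod_cast this
  have hM1 : ((F.natDegree + 1 : ℕ) : ℝ) ≤ M := by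
    have : F.natDegree + 1 ≤ M := hM
    exact_mod_cast this
  set S := Finset.range (F.natDegree + 1) with hS
  set ε : ℕ → ℝ := fun i => lam * gz (z + D * i) - ν i with hε
  -- the smooth part
  have hcoef : ∀ i, |(F.coeff i : ℝ)| ≤ M := by
    intro i
    rw [← Int.cast_abs]
    exact_mod_cast hB i
  have hs : ∑ i ∈ Finset.range (F.natDegree + 1), |(F.coeff i : ℝ)| ≤ (M : ℝ) ^ 2 := by
    refine (Finset.sum_le_sum fun i _ => hcoef i).trans ?_
    rw [Finset.sum_const, Finset.card_range, nsmul_eq_mul, sq]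
    exact mul_le_mul_of_nonneg_right hM1 hMpos.le
  have hz' : 0 < z + D * i0 := by positivity
  have hq0 : 0 ≤ D * (M : ℝ) ^ 2 / z := by positivity
  have hq1 : D * (M : ℝ) ^ 2 / z ≤ 1 / 2 := by
    rw [div_le_iff₀ hz]
    linarith
  have hqq : D * h * F.natDegree ≤ D * (M : ℝ) ^ 2 / z * (z + D * i0) := by
    have h1 : D * (M : ℝ) ^ 2 / z * z = D * (M : ℝ) ^ 2 := by
      field_simp
    have h2 : D * (M : ℝ) ^ 2 / z * z ≤ D * (M : ℝ) ^ 2 / z * (z + D * i0) :=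
      mul_le_mul_of_nonneg_left (by
        have : 0 ≤ D * (i0 : ℝ) := by positivity
        linarith) hq0
    rw [h1] at h2
    refine le_trans ?_ h2
    have h3 : (h : ℝ) ≤ M := by exact_mod_cast hhM
    have h4 : (F.natDegree : ℝ) ≤ M := by exact_mod_cast hM.le
    have h5 : (h : ℝ) * F.natDegree ≤ M * M := mul_le_mul h3 h4 (Nat.cast_nonneg _) hMpos.le
    have h6 := mul_le_mul_of_nonneg_left h5 hD
    rw [sq]
    linarith
  have hsmooth := flat_gz hj hF hs hz' (D := D * h) (by positivity) hqq hq0 hq1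
  have hsm2 : lam * |∑ i ∈ S, (F.coeff i : ℝ) * gz (z + D * i0 + D * h * i)| ≤ 1 / 4 := by
    refine (mul_le_mul_of_nonneg_left hsmooth hlam).trans ?_
    have : lam * (8 * (M : ℝ) ^ 2 * (D * (M : ℝ) ^ 2 / z) ^ j) =
        32 * lam * M ^ 2 * (D * M ^ 2 / z) ^ j / 4 := by ring
    rw [this]
    linarith
  -- the error part
  have hsq : ∑ i ∈ S, ε (i0 + h * i) ^ 2 ≤ ∑ i ∈ Finset.range l, ε i ^ 2 := by
    have h1 : ∑ i ∈ S, ε (i0 + h * i) ^ 2 = ∑ k ∈ S.image (fun i => i0 + h * i), ε k ^ 2 := by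
      rw [Finset.sum_image]
      intro a _ b _ hab
      have h2 : h * a = h * b := Nat.add_left_cancel hab
      exact Nat.eq_of_mul_eq_mul_left hh1 h2
    rw [h1]
    refine Finset.sum_le_sum_of_subset_of_nonneg ?_ fun _ _ _ => sq_nonneg _
    intro k hk
    rw [Finset.mem_image] at hk
    obtain ⟨i, hi, rfl⟩ := hk
    rw [hS, Finset.mem_range] at hi
    rw [Finset.mem_range]
    have h2 : h * i ≤ F.natDegree * h := by
      rw [mul_comm]
      exact Nat.mul_le_mul_right _ (by omega)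
    omega
  have herr : |∑ i ∈ S, (F.coeff i : ℝ) * ε (i0 + h * i)| ≤ 1 / 4 := by
    have hCS := Finset.sum_mul_sq_le_sq_mul_sq S (fun i => (F.coeff i : ℝ)) (fun i => ε (i0 + h * i))
    have hF2 : ∑ i ∈ S, (F.coeff i : ℝ) ^ 2 ≤ (M : ℝ) ^ 3 := by
      have h1 : ∀ i ∈ S, (F.coeff i : ℝ) ^ 2 ≤ (M : ℝ) ^ 2 := by
        intro i _
        rw [← sq_abs]
        exact pow_le_pow_left₀ (abs_nonneg _) (hcoef i) 2
      refine (Finset.sum_le_sum h1).trans ?_
      rw [hS, Finset.sum_const, Finset.card_range, nsmul_eq_mul]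
      have h2 := mul_le_mul_of_nonneg_right hM1 (by positivity : (0 : ℝ) ≤ (M : ℝ) ^ 2)
      calc ((F.natDegree + 1 : ℕ) : ℝ) * (M : ℝ) ^ 2 ≤ M * (M : ℝ) ^ 2 := h2
        _ = (M : ℝ) ^ 3 := by ring
    have h3 : (∑ i ∈ S, (F.coeff i : ℝ) ^ 2) * (∑ i ∈ S, ε (i0 + h * i) ^ 2) ≤
        (M : ℝ) ^ 3 * ∑ i ∈ Finset.range l, ε i ^ 2 :=
      mul_le_mul hF2 hsq (Finset.sum_nonneg fun _ _ => sq_nonneg _) (by positivity)
    have h4 : (∑ i ∈ S, (F.coeff i : ℝ) * ε (i0 + h * i)) ^ 2 ≤ (1 / 4) ^ 2 := by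
      have h5 := hCS.trans h3
      have h6 : 16 * ((M : ℝ) ^ 3 * ∑ i ∈ Finset.range l, ε i ^ 2) ≤ 1 := by
        have := he
        simp only [hε]
        linarith
      linarith
    exact abs_le_of_sq_le_sq h4 (by norm_num)
  -- the integer
  have hint : |((∑ i ∈ S, F.coeff i * ν (i0 + h * i) : ℤ) : ℝ)| < 1 := by
    have h1 : ((∑ i ∈ S, F.coeff i * ν (i0 + h * i) : ℤ) : ℝ) =
        lam * (∑ i ∈ S, (F.coeff i : ℝ) * gz (z + D * i0 + D * h * i)) -
          ∑ i ∈ S, (F.coeff i : ℝ) * ε (i0 + h * i) := by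
      rw [Finset.mul_sum, ← Finset.sum_sub_distrib]
      push_cast
      refine Finset.sum_congr rfl fun i _ => ?_
      simp only [hε]
      have e1 : z + D * i0 + D * h * i = z + D * ((i0 + h * i : ℕ) : ℝ) := by
        push_cast
        ring
      rw [e1]
      ring
    rw [h1]
    refine (abs_sub _ _).trans_lt ?_
    rw [abs_mul, abs_of_nonneg hlam]
    linarith
  have h2 : |∑ i ∈ S, F.coeff i * ν (i0 + h * i)| < 1 := by
    rw [← Int.cast_abs] at hint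
    exact_mod_cast hint
  exact Int.abs_lt_one_iff.1 h2

end Pool.Agent.Lib.MP_ed661f_ag.X
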