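import Pool.Agent.Lib.MP_ed661f_ag.X.Defs

/-! The common zeros of `F(X ^ h)`, `h ≤ M`, are roots of unity of order less than `M`
(tasks X13, X14). -/

set_option autoImplicit false

open Polynomial

namespace Pool.Agent.Lib.MP_ed661f_ag.X

/-- the powers `ζ ^ h`, `1 ≤ h ≤ M`, are zeros of `F`, whose degree is less than `M` -/
theorem exists_order {F : ℂ[X]} {M : ℕ} (h0 : F.coeff 0 ≠ 0) (hM : F.natDegree < M) {ζ : ℂ}
    (hζ : ∀ h, 1 ≤ h → h ≤ M → F.eval (ζ ^ h) = 0) :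
    ∃ N, 1 ≤ N ∧ N < M ∧ IsPrimitiveRoot ζ N := by
  classical
  have hF : F ≠ 0 := by
    rintro rfl
    simp at h0
  have hζ0 : ζ ≠ 0 := by
    rintro rfl
    have h1 := hζ 1 le_rfl (by omega)
    rw [pow_one, ← coeff_zero_eq_eval_zero] at h1
    exact h0 h1
  -- two powers coincide
  obtain ⟨h, hh, h', hh', hne, heq⟩ : ∃ h ∈ Finset.Icc 1 M, ∃ h' ∈ Finset.Icc 1 M,
      h ≠ h' ∧ ζ ^ h = ζ ^ h' := by
    refine Finset.exists_ne_map_eq_of_card_lt_of_maps_to (t := F.roots.toFinset) ?_ ?_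
    · rw [Nat.card_Icc]
      have h1 : F.roots.toFinset.card ≤ F.natDegree :=
        (Multiset.toFinset_card_le _).trans (card_roots' F)
      omega
    · intro h hh
      rw [Finset.coe_Icc] at hh
      simp only [Multiset.mem_toFinset, Finset.mem_coe]
      rw [mem_roots hF]
      exact hζ h hh.1 hh.2
  rw [Finset.mem_Icc] at hh hh'
  obtain ⟨r, hr1, hrM, hr⟩ : ∃ r, 1 ≤ r ∧ r < M ∧ ζ ^ r = 1 := by
    rcases lt_or_gt_of_ne hne with hlt | hlt
    · refine ⟨h' - h, by omega, by omega, ?_⟩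
      have h1 : ζ ^ (h' - h) * ζ ^ h = 1 * ζ ^ h := by
        rw [← pow_add, Nat.sub_add_cancel hlt.le, one_mul, heq]
      exact mul_right_cancel₀ (pow_ne_zero _ hζ0) h1
    · refine ⟨h - h', by omega, by omega, ?_⟩
      have h1 : ζ ^ (h - h') * ζ ^ h' = 1 * ζ ^ h' := by
        rw [← pow_add, Nat.sub_add_cancel hlt.le, one_mul, heq]
      exact mul_right_cancel₀ (pow_ne_zero _ hζ0) h1
  refine ⟨orderOf ζ, ?_, ?_, IsPrimitiveRoot.orderOf ζ⟩
  · exact orderOf_pos_iff.2 (isOfFinOrder_iff_pow_eq_one.2 ⟨r, by omega, hr⟩)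
  · exact lt_of_le_of_lt (orderOf_le_of_pow_eq_one (by omega) hr) hrM

/-- the order of the zero `ζ` of `F(X ^ N)` is the order of the zero `1` of `F` -/
theorem rootMultiplicity_comp_le {F : ℂ[X]} (hF : F ≠ 0) {k N : ℕ} (hN : 1 ≤ N)
    (hk : ¬ (X - C 1) ^ (k + 1) ∣ F) {ζ : ℂ} (hζ : ζ ^ N = 1) :
    (F.comp (X ^ N)).rootMultiplicity ζ ≤ k := by
  obtain ⟨G, hG, hG1⟩ := exists_eq_pow_rootMultiplicity_mul_and_not_dvd F hF 1
  set m := F.rootMultiplicity 1 with hm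
  have hmk : m ≤ k := by
    by_contra hlt
    push Not at hlt
    refine hk (dvd_trans (pow_dvd_pow _ hlt) ?_)
    rw [hm]
    exact pow_rootMultiplicity_dvd F 1
  have hcomp : F.comp (X ^ N) = (X ^ N - 1) ^ m * G.comp (X ^ N) := by
    conv_lhs => rw [hG]
    rw [mul_comp, pow_comp, sub_comp, X_comp, C_comp, C_1]
  have hN0 : N ≠ 0 := by omega
  have hXN : (X ^ N - 1 : ℂ[X]) ≠ 0 := by
    have h := X_pow_sub_C_ne_zero (show 0 < N by omega) (1 : ℂ)
    rwa [C_1] at h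
  have hGe : (G.comp (X ^ N)).eval ζ ≠ 0 := by
    rw [eval_comp, eval_pow, eval_X, hζ]
    intro h
    exact hG1 (dvd_iff_isRoot.2 h)
  have hGc : G.comp (X ^ N) ≠ 0 := by
    intro h
    rw [h, eval_zero] at hGe
    exact hGe rfl
  have h1 : (X ^ N - 1 : ℂ[X]).rootMultiplicity ζ ≤ 1 :=
    rootMultiplicity_le_one_of_separable
      (X_pow_sub_one_separable_iff.2 (by exact_mod_cast hN0)) ζ
  have h2 : (G.comp (X ^ N)).rootMultiplicity ζ = 0 := rootMultiplicity_eq_zero hGe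
  have h3 : ∀ j : ℕ, ((X ^ N - 1 : ℂ[X]) ^ j).rootMultiplicity ζ ≤ j := by
    intro j
    induction j with
    | zero => simp
    | succ j ih =>
      rw [pow_succ, rootMultiplicity_mul (mul_ne_zero (pow_ne_zero _ hXN) hXN)]
      omega
  rw [hcomp, rootMultiplicity_mul (mul_ne_zero (pow_ne_zero _ hXN) hGc), h2, add_zero]
  exact (h3 m).trans hmk

end Pool.Agent.Lib.MP_ed661f_ag.X
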