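import Pool.Agent.Lib.MP_ed661f_ag.X.MomB

/-! A polynomial of small height with a zero of high order at `1` (task X8). -/

set_option autoImplicit false

open Polynomial

namespace Pool.Agent.Lib.MP_ed661f_ag.X

attribute [local instance] Matrix.seminormedAddCommGroup

open Matrix in
/-- small integer solution of the moment equations -/
private theorem Siegel_vec (j : ℕ) (hj : 1 ≤ j) : ∃ t : Fin (j ^ 2 + j) → ℤ, t ≠ 0 ∧
    (∀ l < j, ∑ i : Fin (j ^ 2 + j), ((i : ℕ) : ℤ) ^ l * t i = 0) ∧ ∀ i, |t i| ≤ ((j ^ 2 + j : ℕ) : ℤ) := by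
  set M := j ^ 2 + j with hM
  have hjM : j < M := by
    rw [hM]
    have : 0 < j ^ 2 := by positivity
    omega
  have hM1 : (1 : ℝ) ≤ (M : ℝ) := by
    have : 1 ≤ M := by omega
    exact_mod_cast this
  let A : Matrix (Fin j) (Fin M) ℤ := fun l i => ((i : ℕ) : ℤ) ^ (l : ℕ)
  obtain ⟨t, ht0, htA, htn⟩ := Int.Matrix.exists_ne_zero_int_vec_norm_le A
    (by simpa using hjM) (by rw [Fintype.card_fin]; omega)
  simp only [Fintype.card_fin] at htn
  have hA : ‖A‖ ≤ (M : ℝ) ^ (j - 1) := by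
    rw [Matrix.norm_le_iff (by positivity)]
    intro l i
    show ‖((i : ℕ) : ℤ) ^ (l : ℕ)‖ ≤ _
    rw [Int.norm_eq_abs]
    push_cast
    rw [abs_of_nonneg (by positivity)]
    calc ((i : ℕ) : ℝ) ^ (l : ℕ) ≤ (M : ℝ) ^ (l : ℕ) :=
          pow_le_pow_left₀ (by positivity) (by exact_mod_cast i.2.le) _
      _ ≤ (M : ℝ) ^ (j - 1) := pow_le_pow_right₀ hM1 (by have := l.2; omega)
  have hA' : (M : ℝ) * max 1 ‖A‖ ≤ (M : ℝ) ^ j := by
    calc (M : ℝ) * max 1 ‖A‖ ≤ M * (M : ℝ) ^ (j - 1) :=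
          mul_le_mul_of_nonneg_left (max_le (one_le_pow₀ hM1) hA) (by positivity)
      _ = (M : ℝ) ^ j := by
          rw [← pow_succ', Nat.sub_add_cancel hj]
  have hexp : (j : ℝ) / ((M : ℝ) - j) = ((j : ℕ) : ℝ)⁻¹ := by
    have hj0 : (j : ℝ) ≠ 0 := by positivity
    have : (M : ℝ) - j = (j : ℝ) ^ 2 := by
      rw [hM]
      push_cast
      ring
    rw [this]
    field_simp
  have hnorm : ‖t‖ ≤ (M : ℝ) := by
    refine htn.trans ?_
    rw [hexp]
    calc ((M : ℝ) * max 1 ‖A‖) ^ ((j : ℝ)⁻¹) ≤ ((M : ℝ) ^ j) ^ ((j : ℝ)⁻¹) :=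
          Real.rpow_le_rpow (by positivity) hA' (by positivity)
      _ = M := Real.pow_rpow_inv_natCast (by positivity) (by omega)
  refine ⟨t, ht0, fun l hl => ?_, fun i => ?_⟩
  · have h1 := congrFun htA ⟨l, hl⟩
    simpa [Matrix.mulVec, dotProduct, A] using h1
  · have h1 : ‖t i‖ ≤ (M : ℝ) := (norm_le_pi_norm t i).trans hnorm
    rw [Int.norm_eq_abs] at h1
    exact_mod_cast h1

/-- Siegel's lemma (`Int.Matrix.exists_ne_zero_int_vec_norm_le`) for the `j` equations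
`∑ F_i i ^ l = 0`, `l < j`, in `M = j ^ 2 + j` unknowns: the entries are at most `M ^ (j - 1)`, so
the solution is at most `(M * M ^ (j - 1)) ^ (j / (M - j)) = M`. Then divide by a power of `X`. -/
theorem exists_flat (j : ℕ) (hj : 1 ≤ j) : ∃ F : ℤ[X], F.coeff 0 ≠ 0 ∧
    F.natDegree < j ^ 2 + j ∧ (∀ i, |F.coeff i| ≤ ((j ^ 2 + j : ℕ) : ℤ)) ∧ (X - 1) ^ j ∣ F := by
  have hvec := Siegel_vec j hj
  obtain ⟨M, hM⟩ : ∃ M, M = j ^ 2 + j := ⟨_, rfl⟩
  rw [← hM] at hvec ⊢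
  obtain ⟨t, ht0, hmom, hle⟩ := hvec
  let t' : ℕ → ℤ := fun i => if h : i < M then t ⟨i, h⟩ else 0
  have ht'1 : ∀ i : Fin M, t' i = t i := fun i => by simp [t']
  have ht'2 : ∀ i, M ≤ i → t' i = 0 := fun i hi => dif_neg (by omega)
  let F0 : ℤ[X] := ∑ i ∈ Finset.range M, C (t' i) * X ^ i
  have hcoeff : ∀ i, F0.coeff i = t' i := by
    intro i
    show (∑ l ∈ Finset.range M, C (t' l) * X ^ l : ℤ[X]).coeff i = t' i
    rw [Polynomial.finsetSum_coeff]
    simp only [coeff_C_mul_X_pow]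
    rw [Finset.sum_ite_eq]
    by_cases hi : i < M
    · rw [if_pos (Finset.mem_range.2 hi)]
    · rw [if_neg (by simpa using hi), ht'2 i (by omega)]
  have hF0 : F0 ≠ 0 := by
    intro h
    apply ht0
    funext i
    rw [← ht'1, ← hcoeff, h]
    simp
  have hMpos : 0 < M := by
    rw [hM]
    positivity
  have hdeg : F0.natDegree < M := by
    by_contra hcon
    have h1 : F0.coeff F0.natDegree = 0 := by
      rw [hcoeff, ht'2 _ (by omega)]
    exact hF0 (leadingCoeff_eq_zero.1 h1)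
  have hdvd : (X - 1) ^ j ∣ F0 := by
    apply dvd_of_moments
    intro l hl
    have h1 : ∑ i ∈ Finset.range (F0.natDegree + 1), F0.coeff i * (i : ℤ) ^ l
        = ∑ i ∈ Finset.range M, F0.coeff i * (i : ℤ) ^ l := by
      refine Finset.sum_subset (Finset.range_subset_range.2 (by omega)) fun i _ hi => ?_
      rw [coeff_eq_zero_of_natDegree_lt (by simpa using hi), zero_mul]
    rw [h1, Finset.sum_range, ← hmom l hl]
    refine Finset.sum_congr rfl fun i _ => ?_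
    rw [hcoeff, ht'1, mul_comm]
  -- divide by a power of `X`
  obtain ⟨k, hk⟩ : ∃ k, k = F0.natTrailingDegree := ⟨_, rfl⟩
  have hX : X ^ k ∣ F0 :=
    X_pow_dvd_iff.2 fun d hd => coeff_eq_zero_of_lt_natTrailingDegree (by omega)
  obtain ⟨F, hF⟩ := hX
  have hFc : ∀ i, F.coeff i = F0.coeff (i + k) := by
    intro i
    rw [hF, coeff_X_pow_mul]
  have hFne : F ≠ 0 := by
    rintro rfl
    rw [mul_zero] at hF
    exact hF0 hF
  refine ⟨F, ?_, ?_, ?_, ?_⟩
  · rw [hFc, zero_add, hk]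
    exact trailingCoeff_nonzero_iff_nonzero.2 hF0
  · refine lt_of_le_of_lt (natDegree_le_of_dvd ?_ hF0) hdeg
    rw [hF]
    exact Dvd.intro_left _ rfl
  · intro i
    rw [hFc, hcoeff]
    by_cases hi : i + k < M
    · have h1 := hle ⟨_, hi⟩
      rw [← ht'1] at h1
      exact h1
    · rw [ht'2 _ (by omega), abs_zero]
      positivity
  · have h1 : IsCoprime ((X - 1 : ℤ[X]) ^ j) (X ^ k) := by
      refine IsCoprime.pow ?_
      exact ⟨-1, 1, by ring⟩
    rw [hF] at hdvd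
    exact h1.dvd_of_dvd_mul_left hdvd

end Pool.Agent.Lib.MP_ed661f_ag.X
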