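import Pool.Agent.Lib.MP_ed661f_ag.X.DiffLow

/-! Small multipliers: one arithmetic progression (task X23). -/

set_option autoImplicit false

namespace Pool.Agent.Lib.MP_ed661f_ag.X

open Pool.Agent.Lib.MP_ed661f_ag.G

/-- a difference of two values: `G.dl_log_bounds` for the list `[t, 1, 2]` -/
theorem gz_sub_bounds {z t : ℝ} (hz : 0 < z) (ht : 0 ≤ t) :
    4 * t / (z + t + 4) ^ 3 ≤ gz z - gz (z + t) ∧ gz z - gz (z + t) ≤ 4 * t / (z + 1) ^ 3 := by
  have h1 := dl_log_bounds (t := t) (hs := [1, 2]) ht (by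
    intro s hs
    simp only [List.mem_cons, List.not_mem_nil, or_false] at hs
    rcases hs with rfl | rfl <;> norm_num) (z := z + 1) (by linarith)
  have h2 : -dl [t, 1, 2] Real.log (z + 1) = gz z - gz (z + t) := by
    rw [gz_eq hz.le, gz_eq (by linarith : 0 ≤ z + t)]
    have h3 : dl [t, 1, 2] Real.log (z + 1)
        = dl [1, 2] Real.log (z + 1) - dl [1, 2] Real.log (z + 1 + t) := rfl
    rw [h3, show z + 1 + t = z + t + 1 by ring]
    ring
  rw [h2] at h1
  have e1 : (([1, 2] : List ℝ).length.factorial : ℝ) * (t :: [1, 2]).prod = 4 * t := by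
    simp only [List.length_cons, List.length_nil, List.prod_cons, List.prod_nil]
    norm_num [Nat.factorial]
    ring
  have e2 : (([1, 2] : List ℝ).length + 1) = 3 := rfl
  have e3 : z + 1 + (t :: [1, 2]).sum = z + t + 4 := by
    simp only [List.sum_cons, List.sum_nil]
    ring
  rw [e1, e2, e3] at h1
  exact h1

/-- Suppose `40000 ∑ nrm ^ 2 ≤ 1`, so every `nrm ≤ 1 / 200`. The nearest integers to
`lam * gz (z + D * i)` and `lam * gz (z + D * (i + 1))` are equal, since the numbers differ by at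
most `4 D lam / z0 ^ 3 ≤ 1 / 2`. So `lam * (gz z - gz (z + D * (l - 1))) ≤ 1 / 100`, but it is at
least `(z0 ^ 2 / 20) * 4 * (0.59 z0) / (5 z0 / 3) ^ 3 > 1 / 100`. -/
theorem small_window {z0 z D lam : ℝ} {l : ℕ} (hz0 : 0 < z0) (hz : z0 ≤ z) (hD : 0 < D)
    (hl : 1 ≤ l) (hlam : z0 ^ 2 ≤ 20 * lam) (hup : 8 * D * lam ≤ z0 ^ 3)
    (hlo : 59 * z0 ≤ 100 * (D * (l - 1))) (hhi : 3 * (z + D * (l - 1) + 4) ≤ 5 * z0) :
    1 < 40000 * ∑ i ∈ Finset.range l, nrm (lam * gz (z + D * i)) ^ 2 := by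
  by_contra hcon
  rw [not_lt] at hcon
  have hzpos : 0 < z := lt_of_lt_of_le hz0 hz
  have hlam0 : 0 < lam := by
    have : 0 < z0 ^ 2 := by positivity
    linarith
  set x : ℕ → ℝ := fun i => lam * gz (z + D * i) with hx
  have hn : ∀ i, i < l → nrm (x i) ≤ 1 / 200 := by
    intro i hi
    have h1 : nrm (x i) ^ 2 ≤ ∑ i ∈ Finset.range l, nrm (lam * gz (z + D * i)) ^ 2 :=
      Finset.single_le_sum (f := fun i : ℕ => nrm (lam * gz (z + D * i)) ^ 2)
        (fun _ _ => sq_nonneg _) (Finset.mem_range.2 hi)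
    have h2 : nrm (x i) ^ 2 ≤ (1 / 200) ^ 2 := by
      have : (40000 : ℝ) * nrm (x i) ^ 2 ≤ 1 := by linarith
      linarith
    exact le_of_sq_le_sq h2 (by norm_num)
  have hdiff : ∀ i : ℕ, 0 ≤ x i - x (i + 1) ∧ x i - x (i + 1) ≤ 1 / 2 := by
    intro i
    have hzi : 0 < z + D * i := by positivity
    have h1 := gz_sub_bounds hzi hD.le
    have h2 : z + D * i + D = z + D * ((i + 1 : ℕ) : ℝ) := by
      push_cast
      ring
    rw [h2] at h1
    have h3 : x i - x (i + 1) = lam * (gz (z + D * i) - gz (z + D * ((i + 1 : ℕ) : ℝ))) := by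
      simp only [hx]
      ring
    rw [h3]
    constructor
    · refine mul_nonneg hlam0.le (le_trans ?_ h1.1)
      have : 0 ≤ z + D * ((i + 1 : ℕ) : ℝ) + 4 := by positivity
      positivity
    · have h4 : 4 * D / (z + D * i + 1) ^ 3 ≤ 4 * D / z0 ^ 3 := by
        apply div_le_div_of_nonneg_left (by positivity) (by positivity)
        apply pow_le_pow_left₀ hz0.le
        have : 0 ≤ D * (i : ℝ) := by positivity
        linarith
      have h5 : lam * (gz (z + D * i) - gz (z + D * ((i + 1 : ℕ) : ℝ))) ≤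
          lam * (4 * D / z0 ^ 3) := mul_le_mul_of_nonneg_left (h1.2.trans h4) hlam0.le
      refine h5.trans ?_
      rw [← mul_div_assoc, div_le_iff₀ (by positivity)]
      linarith
  have hround : ∀ i, i < l → round (x i) = round (x 0) := by
    intro i
    induction i with
    | zero => intro _; rfl
    | succ i ih =>
      intro hi
      rw [← ih (by omega)]
      have h1 := hn i (by omega)
      have h2 := hn (i + 1) hi
      have h3 := hdiff i
      unfold nrm at h1 h2
      rw [abs_le] at h1 h2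
      have h4 : ((round (x (i + 1)) : ℤ) : ℝ) - (round (x i) : ℤ) < 1 := by linarith
      have h5 : (-1 : ℝ) < ((round (x (i + 1)) : ℤ) : ℝ) - (round (x i) : ℤ) := by linarith
      have h6 : round (x (i + 1)) - round (x i) < 1 := by exact_mod_cast h4
      have h7 : -1 < round (x (i + 1)) - round (x i) := by exact_mod_cast h5
      omega
  have h1 := hn 0 (by omega)
  have h2 := hn (l - 1) (by omega)
  have h3 := hround (l - 1) (by omega)
  unfold nrm at h1 h2
  rw [h3] at h2
  rw [abs_le] at h1 h2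
  have hcast : ((l - 1 : ℕ) : ℝ) = (l : ℝ) - 1 := by
    rw [Nat.cast_sub hl]
    simp
  have hT0 : 0 ≤ D * ((l : ℝ) - 1) := by linarith
  have h4 := (gz_sub_bounds hzpos hT0).1
  have h5 : x 0 - x (l - 1) = lam * (gz z - gz (z + D * ((l : ℝ) - 1))) := by
    simp only [hx, hcast, Nat.cast_zero, mul_zero, add_zero]
    ring
  have h6 : x 0 - x (l - 1) ≤ 1 / 100 := by linarith
  have hWpos : 0 < z + D * ((l : ℝ) - 1) + 4 := by linarith
  have h7 : lam * (4 * (D * ((l : ℝ) - 1)) / (z + D * ((l : ℝ) - 1) + 4) ^ 3) ≤ 1 / 100 := by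
    rw [h5] at h6
    exact (mul_le_mul_of_nonneg_left h4 hlam0.le).trans h6
  rw [← mul_div_assoc, div_le_iff₀ (by positivity)] at h7
  have h8 : (z + D * ((l : ℝ) - 1) + 4) ^ 3 ≤ (5 / 3 * z0) ^ 3 :=
    pow_le_pow_left₀ hWpos.le (by linarith) 3
  have h9 : z0 ^ 2 / 20 * (4 * (59 / 100 * z0)) ≤ lam * (4 * (D * ((l : ℝ) - 1))) := by
    apply mul_le_mul (by linarith) (by linarith) (by positivity) hlam0.le
  have h10 : 0 < z0 ^ 3 := by positivity
  nlinarith

end Pool.Agent.Lib.MP_ed661f_ag.X
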