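import Pool.Agent.Lib.MP_ed661f_ag.X.Moment2
import Pool.Agent.Lib.MP_ed661f_ag.G.Cub

/-! Flat polynomials annihilate the logarithm approximately (task X10). -/

set_option autoImplicit false

open Polynomial

namespace Pool.Agent.Lib.MP_ed661f_ag.X

open Pool.Agent.Lib.MP_ed661f_ag.G

/-- The Taylor polynomial. -/
noncomputable def TaylorP (w D : ℝ) (n : ℕ) : ℝ[X] :=
  C (Real.log w) - ∑ t ∈ Finset.range n, C ((-(D / w)) ^ (t + 1) / ((t : ℝ) + 1)) * X ^ (t + 1)

theorem TaylorP_natDegree (w D : ℝ) (n : ℕ) : (TaylorP w D n).natDegree ≤ n := by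
  unfold TaylorP
  refine (Polynomial.natDegree_sub_le _ _).trans (max_le ?_ ?_)
  · rw [Polynomial.natDegree_C]
    exact Nat.zero_le _
  · refine Polynomial.natDegree_sum_le_of_forall_le _ _ fun t ht => ?_
    refine (Polynomial.natDegree_C_mul_X_pow_le _ _).trans ?_
    rw [Finset.mem_range] at ht
    omega

theorem TaylorP_eval (w D : ℝ) (n : ℕ) (x : ℝ) : (TaylorP w D n).eval x =
    Real.log w - ∑ t ∈ Finset.range n, (-(D * x / w)) ^ (t + 1) / ((t : ℝ) + 1) := by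
  unfold TaylorP
  rw [Polynomial.eval_sub, Polynomial.eval_C, Polynomial.eval_finsetSum]
  congr 1
  refine Finset.sum_congr rfl fun t _ => ?_
  rw [Polynomial.eval_mul, Polynomial.eval_C, Polynomial.eval_pow, Polynomial.eval_X,
    div_mul_eq_mul_div, ← mul_pow]
  congr 2
  ring

theorem TaylorP_bound {w D q x : ℝ} {j : ℕ} (hj : 1 ≤ j) (hw : 0 < w) (hD : 0 ≤ D) (hx : 0 ≤ x)
    (hq : D * x ≤ q * w) (hq0 : 0 ≤ q) (hq1 : q ≤ 1 / 2) :
    |Real.log (w + D * x) - (TaylorP w D (j - 1)).eval x| ≤ 2 * q ^ j := by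
  obtain ⟨n, rfl⟩ : ∃ n, j = n + 1 := ⟨j - 1, by omega⟩
  rw [Nat.add_sub_cancel, TaylorP_eval]
  set y : ℝ := D * x / w with hy
  have hy0 : 0 ≤ y := by positivity
  have hyq : y ≤ q := by
    rw [hy, div_le_iff₀ hw]
    exact hq
  have h1 : Real.log (w + D * x) = Real.log w + Real.log (1 + y) := by
    rw [← Real.log_mul hw.ne' (by positivity)]
    congr 1
    rw [hy]
    field_simp
  have habs : |-y| = y := by rw [abs_neg, abs_of_nonneg hy0]
  have h2 := Real.abs_log_sub_add_sum_range_le (x := -y) (by rw [habs]; linarith) n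
  rw [habs, sub_neg_eq_add] at h2
  have h3 : y ^ (n + 1) / (1 - y) ≤ 2 * q ^ (n + 1) := by
    rw [div_le_iff₀ (by linarith)]
    have h4 : y ^ (n + 1) ≤ q ^ (n + 1) := pow_le_pow_left₀ hy0 hyq _
    have h5 : 0 ≤ q ^ (n + 1) := by positivity
    nlinarith
  rw [h1]
  refine le_trans (le_of_eq ?_) (h2.trans h3)
  congr 1
  ring

/-- `log (w + D i) = log w + log (1 + D i / w)`, Taylor polynomial of degree `j - 1`
(`Real.abs_log_sub_add_sum_range_le`) -/
theorem flat_log {F : ℤ[X]} {j : ℕ} (hj : 1 ≤ j) (hF : (X - 1) ^ j ∣ F) {s : ℝ}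
    (hs : ∑ i ∈ Finset.range (F.natDegree + 1), |(F.coeff i : ℝ)| ≤ s) {w D q : ℝ} (hw : 0 < w)
    (hD : 0 ≤ D) (hq : D * F.natDegree ≤ q * w) (hq0 : 0 ≤ q) (hq1 : q ≤ 1 / 2) :
    |∑ i ∈ Finset.range (F.natDegree + 1), (F.coeff i : ℝ) * Real.log (w + D * i)| ≤
      2 * s * q ^ j := by
  have h1 := sum_coeff_mul_eval hF (P := TaylorP w D (j - 1))
    (lt_of_le_of_lt (TaylorP_natDegree w D (j - 1)) (by omega))
  have h2 : ∑ i ∈ Finset.range (F.natDegree + 1), (F.coeff i : ℝ) * Real.log (w + D * i) =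
      ∑ i ∈ Finset.range (F.natDegree + 1), (F.coeff i : ℝ) *
        (Real.log (w + D * i) - (TaylorP w D (j - 1)).eval (i : ℝ)) := by
    simp only [mul_sub, Finset.sum_sub_distrib]
    rw [h1, sub_zero]
  rw [h2]
  refine (Finset.abs_sum_le_sum_abs _ _).trans ?_
  have h3 : ∑ i ∈ Finset.range (F.natDegree + 1), |(F.coeff i : ℝ) *
      (Real.log (w + D * i) - (TaylorP w D (j - 1)).eval (i : ℝ))| ≤
      ∑ i ∈ Finset.range (F.natDegree + 1), |(F.coeff i : ℝ)| * (2 * q ^ j) := by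
    refine Finset.sum_le_sum fun i hi => ?_
    rw [Finset.mem_range] at hi
    rw [abs_mul]
    refine mul_le_mul_of_nonneg_left ?_ (abs_nonneg _)
    refine TaylorP_bound hj hw hD (Nat.cast_nonneg _) ?_ hq0 hq1
    have h4 : ((i : ℕ) : ℝ) ≤ (F.natDegree : ℝ) := by
      exact_mod_cast (by omega : i ≤ F.natDegree)
    exact (mul_le_mul_of_nonneg_left h4 hD).trans hq
  refine h3.trans ?_
  rw [← Finset.sum_mul]
  have h5 : 0 ≤ 2 * q ^ j := by positivity
  calc _ ≤ s * (2 * q ^ j) := mul_le_mul_of_nonneg_right hs h5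
    _ = 2 * s * q ^ j := by ring

theorem flat_gz {F : ℤ[X]} {j : ℕ} (hj : 1 ≤ j) (hF : (X - 1) ^ j ∣ F) {s : ℝ}
    (hs : ∑ i ∈ Finset.range (F.natDegree + 1), |(F.coeff i : ℝ)| ≤ s) {z D q : ℝ} (hz : 0 < z)
    (hD : 0 ≤ D) (hq : D * F.natDegree ≤ q * z) (hq0 : 0 ≤ q) (hq1 : q ≤ 1 / 2) :
    |∑ i ∈ Finset.range (F.natDegree + 1), (F.coeff i : ℝ) * gz (z + D * i)| ≤
      8 * s * q ^ j := by
  have key : ∀ c : ℝ, 0 ≤ c → |∑ i ∈ Finset.range (F.natDegree + 1),
      (F.coeff i : ℝ) * Real.log ((z + c) + D * i)| ≤ 2 * s * q ^ j := by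
    intro c hc
    refine flat_log hj hF hs (by linarith) hD ?_ hq0 hq1
    have : q * z ≤ q * (z + c) := mul_le_mul_of_nonneg_left (by linarith) hq0
    linarith
  have h1 : ∀ i : ℕ, gz (z + D * i) = Real.log ((z + 2) + D * i) + Real.log ((z + 3) + D * i) -
      Real.log ((z + 1) + D * i) - Real.log ((z + 4) + D * i) := by
    intro i
    have h2 : 0 ≤ D * (i : ℝ) := mul_nonneg hD (Nat.cast_nonneg _)
    unfold gz
    rw [Real.log_div (by positivity) (by positivity), Real.log_mul (by positivity) (by positivity),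
      Real.log_mul (by positivity) (by positivity)]
    rw [show z + D * (i : ℝ) + 2 = (z + 2) + D * i by ring,
      show z + D * (i : ℝ) + 3 = (z + 3) + D * i by ring,
      show z + D * (i : ℝ) + 1 = (z + 1) + D * i by ring,
      show z + D * (i : ℝ) + 4 = (z + 4) + D * i by ring]
    ring
  simp only [h1, mul_sub, mul_add, Finset.sum_sub_distrib, Finset.sum_add_distrib]
  have k1 := abs_le.1 (key 1 (by norm_num))
  have k2 := abs_le.1 (key 2 (by norm_num))
  have k3 := abs_le.1 (key 3 (by norm_num))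
  have k4 := abs_le.1 (key 4 (by norm_num))
  rw [abs_le]
  constructor
  · linarith [k1.2, k2.1, k3.1, k4.2]
  · linarith [k1.1, k2.2, k3.2, k4.1]

end Pool.Agent.Lib.MP_ed661f_ag.X
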