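import Pool.Agent.Lib.MP_ed661f_ag.X.Annihil
import Pool.Agent.Lib.MP_ed661f_ag.X.Rel
import Pool.Agent.Lib.MP_ed661f_ag.X.Siegel
import Pool.Agent.Lib.MP_ed661f_ag.X.Cheb
import Pool.Agent.Lib.MP_ed661f_ag.X.DiffLow
import Pool.Agent.Lib.MP_ed661f_ag.X.Contra

/-! One arithmetic progression, large multiplier (task X21). -/

set_option autoImplicit false

namespace Pool.Agent.Lib.MP_ed661f_ag.X

open Pool.Agent.Lib.MP_ed661f_ag.G

/-- Suppose that `16 M ^ 3 ∑ nrm ^ 2 ≤ 1`, and put `ν i = round (lam * gz (z + D * i))`, so that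
`|lam * gz (z + D * i) - ν i| = nrm ≤ 1 / 4`. Take `F` from `exists_flat j`, `ann_of_small` (with
`D * M ^ 2 / z ≤ D * M ^ 2 / z0`), `not_dvd` (with `d = K`), `pr_AA_eq_zero` with `k = K` and
`H = (l - 1 - K * M ^ 2) / K`, so that `K * H + K * M ^ 2 < l` and
`K * H ≥ l - K * M ^ 2 - K`. Then `core_ineq` with
`m = (K + 1)! * (2 * (D * H) ^ K) / Zm ^ (K + 2)`, `Zm = z + D * (l - 1) + 4` (`dh_gz_lower`)
contradicts `contra`: `588 z0 ≤ 1000 K D H` since `D * (l + 1) ≥ 0.6 z0` and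
`D * (1 + K + K * M ^ 2) ≤ 0.007 z0` (as `D * (l - 1) ≤ 2 / 3 z0` and `l ≥ 100 K M ^ 2`). -/
theorem window {j M K l : ℕ} (hj : 3 ≤ j) (hM : M = j ^ 2 + j) (hK1 : 1 ≤ K)
    (hK : 2 * (M : ℝ) ^ 2 ≤ Real.exp (9 / 5 * K / √(M : ℝ))) {z0 z D lam : ℝ} (hz0 : 0 < z0)
    (hz : z0 ≤ z) (hD : 0 < D) (hlam : 16 ^ K * z0 ^ 2 ≤ lam)
    (hsm : 32 * lam * M ^ 2 * (D * M ^ 2 / z0) ^ j ≤ 1) (hl : 100 * K * M ^ 2 ≤ l)
    (hq : 2 * (D * M ^ 2) ≤ z0) (hlo : 60 * z0 ≤ 100 * (D * (l + 1)))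
    (hhi : 3 * (z + D * (l - 1) + 4) ≤ 5 * z0) :
    1 < 16 * (M : ℝ) ^ 3 * ∑ i ∈ Finset.range l, nrm (lam * gz (z + D * i)) ^ 2 := by
  by_contra hcon
  rw [not_lt] at hcon
  have hj1 : 1 ≤ j := by omega
  have hM12 : 12 ≤ M := by
    rw [hM]
    have : 3 * 3 ≤ j * j := Nat.mul_le_mul hj hj
    have h2 : j ^ 2 = j * j := sq j
    omega
  have hMr : (12 : ℝ) ≤ M := by exact_mod_cast hM12
  have hKr : (1 : ℝ) ≤ K := by exact_mod_cast hK1
  have hz' : 0 < z := by linarith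
  have hlam0 : 0 < lam := lt_of_lt_of_le (by positivity) hlam
  set ν : ℕ → ℤ := fun i => round (lam * gz (z + D * i)) with hν
  have hnn : ∀ i : ℕ, (lam * gz (z + D * i) - ν i) ^ 2 = nrm (lam * gz (z + D * i)) ^ 2 := by
    intro i
    unfold nrm
    rw [sq_abs]
  have hsum : 16 * (M : ℝ) ^ 3 * ∑ i ∈ Finset.range l, (lam * gz (z + D * i) - ν i) ^ 2 ≤ 1 := by
    rw [Finset.sum_congr rfl (fun i _ => hnn i)]
    exact hcon
  have hη : ∀ i < l, |lam * gz (z + D * i) - ν i| ≤ 1 / 4 := by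
    intro i hi
    have h1 : (lam * gz (z + D * i) - ν i) ^ 2 ≤
        ∑ i ∈ Finset.range l, (lam * gz (z + D * i) - ν i) ^ 2 :=
      Finset.single_le_sum (f := fun i : ℕ => (lam * gz (z + D * i) - ν i) ^ 2)
        (fun i _ => sq_nonneg _) (Finset.mem_range.mpr hi)
    have h2 : (1 : ℝ) ≤ (M : ℝ) ^ 3 := one_le_pow₀ (by linarith)
    have h3 : 0 ≤ (lam * gz (z + D * i) - ν i) ^ 2 := sq_nonneg _
    have h4 : 16 * (lam * gz (z + D * i) - ν i) ^ 2 ≤ 1 := by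
      calc 16 * (lam * gz (z + D * i) - ν i) ^ 2 ≤
            16 * (M : ℝ) ^ 3 * (lam * gz (z + D * i) - ν i) ^ 2 := by
            apply mul_le_mul_of_nonneg_right _ h3
            linarith
        _ ≤ 16 * (M : ℝ) ^ 3 * ∑ i ∈ Finset.range l, (lam * gz (z + D * i) - ν i) ^ 2 := by
            apply mul_le_mul_of_nonneg_left h1
            positivity
        _ ≤ 1 := hsum
    apply abs_le_of_sq_le_sq _ (by norm_num)
    linarith
  obtain ⟨F, hF0, hFd, hFB, hFj⟩ := exists_flat j hj1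
  rw [← hM] at hFd hFB
  have hq' : 2 * (D * (M : ℝ) ^ 2) ≤ z := hq.trans hz
  have hsm' : 32 * lam * M ^ 2 * (D * M ^ 2 / z) ^ j ≤ 1 := by
    refine le_trans ?_ hsm
    apply mul_le_mul_of_nonneg_left _ (by positivity)
    apply pow_le_pow_left₀ (by positivity)
    apply div_le_div_of_nonneg_left (by positivity) hz0 hz
  have hAnn := ann_of_small hj1 hFd hFB hFj ν hz' hD.le hlam0.le hq' hsm' hsum
  have hnd := not_dvd (d := K) hM12 hF0 hFd hFB hK
  have hM2 : 144 ≤ M ^ 2 := by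
    have h1 := Nat.pow_le_pow_left hM12 2
    exact h1
  have hKM : 144 * K ≤ K * M ^ 2 := by
    rw [mul_comm 144 K]
    exact Nat.mul_le_mul_left K hM2
  have hMK : M ^ 2 ≤ K * M ^ 2 := Nat.le_mul_of_pos_left _ hK1
  have hMM : M ≤ M ^ 2 := by
    rw [sq]
    exact Nat.le_mul_of_pos_left _ (by omega)
  set x : ℕ := l - 1 - K * M ^ 2 with hx
  have hl' : 100 * (K * M ^ 2) ≤ l := by rw [← mul_assoc]; exact hl
  set H : ℕ := x / K with hH
  have hH1 : K * H ≤ x := Nat.mul_div_le x K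
  have hH2 : x < K * H + K := by
    have h1 := Nat.lt_mul_div_succ x (show 0 < K by omega)
    rw [← hH] at h1
    rw [mul_add, mul_one] at h1
    exact h1
  have hHpos : 1 ≤ H := by
    rw [hH, Nat.le_div_iff_mul_le (by omega)]
    omega
  have hdeg : K * H + K * M ^ 2 < l := by omega
  have hzero := pr_AA_eq_zero (k := K) (H := H) hF0 hFd hHpos hnd hAnn (by omega) hdeg
  set Zm : ℝ := z + D * (l - 1) + 4 with hZm
  have hl1 : (1 : ℝ) ≤ l := by exact_mod_cast (by omega : 1 ≤ l)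
  have hDl : 0 ≤ D * ((l : ℝ) - 1) := mul_nonneg hD.le (by linarith)
  have hZm0 : 0 < Zm := by rw [hZm]; linarith
  have hm : ∀ i ≤ K * M ^ 2, ((K + 1).factorial : ℝ) * (2 * (D * H) ^ K) / Zm ^ (K + 2) ≤
      ((dh H)^[K] fun i : ℕ => gz (z + D * i)) i := by
    intro i hi
    refine le_trans ?_ (dh_gz_lower hz' hD.le H hK1 i)
    have h1 : (i : ℝ) + K * H ≤ l - 1 := by
      have h2 : i + K * H + 1 ≤ l := by omega
      have h3 : ((i + K * H + 1 : ℕ) : ℝ) ≤ l := by exact_mod_cast h2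
      push_cast at h3
      linarith
    have h4 := mul_le_mul_of_nonneg_left h1 hD.le
    have h5 : 0 ≤ D * (i : ℝ) := mul_nonneg hD.le (Nat.cast_nonneg i)
    have h6 : 0 ≤ (K : ℝ) * (D * H) := by positivity
    apply div_le_div_of_nonneg_left (by positivity) (by positivity)
    apply pow_le_pow_left₀ (by positivity)
    rw [hZm]
    linarith
  have hcore := core_ineq (k := K) (H := H) (M := M) (l := l) hdeg (ν := ν)
    (γ := fun i : ℕ => gz (z + D * i)) (η := 1 / 4)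
    (m := ((K + 1).factorial : ℝ) * (2 * (D * H) ^ K) / Zm ^ (K + 2)) hlam0.le hη hm hzero
  have hKH : (l : ℝ) - K * M ^ 2 - K ≤ K * H := by
    have h1 : l ≤ K * H + K + K * M ^ 2 := by omega
    have h2 : (l : ℝ) ≤ ((K * H + K + K * M ^ 2 : ℕ) : ℝ) := by exact_mod_cast h1
    push_cast at h2
    linarith
  have hlr : 100 * ((K : ℝ) * M ^ 2) ≤ l := by exact_mod_cast hl'
  have hKMr : 144 * (K : ℝ) ≤ K * M ^ 2 := by exact_mod_cast hKM
  have hDbig : 588 * z0 ≤ 1000 * (K * (D * H)) := by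
    have h1 := mul_le_mul_of_nonneg_left hKH hD.le
    have h2 := mul_le_mul_of_nonneg_left hlr hD.le
    have h3 := mul_le_mul_of_nonneg_left hKMr hD.le
    have h4 := mul_le_mul_of_nonneg_left hKr hD.le
    have h5 : K * (D * H) = D * ((K : ℝ) * H) := by ring
    rw [h5]
    generalize D * ((K : ℝ) * H) = A at h1 ⊢
    have e1 : D * ((l : ℝ) - K * M ^ 2 - K) = D * l - D * (K * M ^ 2) - D * K := by ring
    have e2 : D * (100 * ((K : ℝ) * M ^ 2)) = 100 * (D * (K * M ^ 2)) := by ring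
    have e3 : D * (144 * (K : ℝ)) = 144 * (D * K) := by ring
    have e4 : D * ((l : ℝ) + 1) = D * l + D := by ring
    have e5 : D * ((l : ℝ) - 1) = D * l - D := by ring
    rw [e1] at h1
    rw [e2] at h2
    rw [e3] at h3
    rw [mul_one] at h4
    rw [e4] at hlo
    rw [hZm, e5] at hhi
    linarith
  have hcontra := contra (k := K) hK1 (D := D * H) hz0 hZm0 hhi hDbig hlam
  linarith

end Pool.Agent.Lib.MP_ed661f_ag.X
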